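import Pool.Agent.Lib.MP_2095a9_ag.Main

set_option autoImplicit false

/-!
Definitions for the criterion U and for the theorem on divisors of bidegree (3,2)
in P^2 x P^2 (problem MP_2095a9_ag).
-/

namespace Pool.Agent.Lib.MP_2095a9_ag.T2

open MvPolynomial

/-- `ℂ[x,y]` (`x = X 0`, `y = X 1`) -/
abbrev R2 := MvPolynomial (Fin 2) ℂ

/-- `ℂ(x,y)` -/
abbrev K2 := FractionRing (MvPolynomial (Fin 2) ℂ)

/-- `ℂ(T)` -/
abbrev F1 := FractionRing (MvPolynomial (Fin 1) ℂ)

/-- `ℂ(T)(s)` -/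
abbrev L2 := FractionRing (Polynomial F1)

/-- the ideal of the affine conic `a u² + b v² = 1` over `ℂ(x,y)` -/
noncomputable abbrev conicIdeal (a b : K2) : Ideal (MvPolynomial (Fin 2) K2) :=
  Ideal.span {(C a * X 0 ^ 2 + C b * X 1 ^ 2 - 1 : MvPolynomial (Fin 2) K2)}

/-- the function field of the conic bundle threefold, word for word as in the frozen statement -/
abbrev Fld (a b : K2) := FractionRing (MvPolynomial (Fin 2) K2 ⧸ conicIdeal a b)

/-- the value of the quadratic form with matrix `S` at the vector `z` -/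
def qf {E : Type*} [CommRing E] (S : Matrix (Fin 3) (Fin 3) E) (z : Fin 3 → E) : E :=
  ∑ i, ∑ j, S i j * (z i * z j)

/-- the matrix of polynomials `A` evaluated at the point `(x,y)` -/
noncomputable def evM {E : Type*} [CommRing E] [Algebra ℂ E] (A : Matrix (Fin 3) (Fin 3) R2) (x y : E) :
    Matrix (Fin 3) (Fin 3) E :=
  A.map (fun f => aeval ![x, y] f)

/-- the matrix of polynomials `A` over the field `ℂ(x,y)` -/
noncomputable def toK (A : Matrix (Fin 3) (Fin 3) R2) : Matrix (Fin 3) (Fin 3) K2 :=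
  A.map (algebraMap R2 K2)

/-- derivative of a matrix of polynomials with respect to `x` (`i = 0`) or `y` (`i = 1`) -/
noncomputable def dM (i : Fin 2) (A : Matrix (Fin 3) (Fin 3) R2) : Matrix (Fin 3) (Fin 3) R2 :=
  A.map (fun f => pderiv i f)

/-- the conic with matrix `S` over `ℂ(x,y)` acquires a point after a dominant rational map from
a rational surface to the plane -/
def Dom (S : Matrix (Fin 3) (Fin 3) K2) : Prop :=
  ∃ (τ : K2 →ₐ[ℂ] L2) (z : Fin 3 → L2), z ≠ 0 ∧ qf (S.map τ) z = 0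

/-- `Ω` is (a copy of) the function field of the conic `a u² + b v² = 1` over `ℂ(x,y)` -/
structure IsConicField (a b : K2) {Ω : Type} [Field Ω] [Algebra ℂ Ω] [Algebra K2 Ω]
    [IsScalarTower ℂ K2 Ω] (u v : Ω) : Prop where
  conic : algebraMap K2 Ω a * u ^ 2 + algebraMap K2 Ω b * v ^ 2 = 1
  trans : Transcendental K2 u
  gen : ∀ w : Ω, ∃ p q r : Polynomial K2, r ≠ 0 ∧
    w * Polynomial.aeval u r = Polynomial.aeval u p + Polynomial.aeval u q * v

/-- the coordinate functions `x` (`i = 0`) and `y` (`i = 1`) in an extension of `ℂ(x,y)` -/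
noncomputable def co (Ω : Type) [Field Ω] [Algebra K2 Ω] (i : Fin 2) : Ω :=
  algebraMap K2 Ω (algebraMap R2 K2 (X i))

/-- the value at `(x, y; s : t : 1)` of the quadratic form whose coefficients are the
polynomials `B` -/
noncomputable def gv {Ω : Type} [Field Ω] [Algebra K2 Ω] (s t : Ω)
    (B : Matrix (Fin 3) (Fin 3) R2) : Ω :=
  qf ((toK B).map (algebraMap K2 Ω)) ![s, t, 1]

/-- `(s : t : 1)` is a generic point of the conic with matrix `A` over `ℂ(x,y)`, with values in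
the function field `Ω` of the conic -/
structure Setup (A : Matrix (Fin 3) (Fin 3) R2) {Ω : Type} [Field Ω] [Algebra ℂ Ω] [Algebra K2 Ω]
    [IsScalarTower ℂ K2 Ω] (s t : Ω) : Prop where
  zero : gv s t A = 0
  prop : ∀ B : Matrix (Fin 3) (Fin 3) K2, B.IsSymm →
    qf (B.map (algebraMap K2 Ω)) ![s, t, 1] = 0 → ∃ l : K2, B = l • toK A
  kcl : ∀ w : Ω, IsAlgebraic K2 w → w ∈ Set.range (algebraMap K2 Ω)
  indep : AlgebraicIndependent ℂ ![co Ω 0, co Ω 1, s]
  dep : ∀ g : Fin 4 → Ω, ¬ AlgebraicIndependent ℂ g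
  critU : ∀ S : Matrix (Fin 3) (Fin 3) K2, ∀ σ : K2 →ₐ[ℂ] Ω,
    (∃ r, σ r ∉ Set.range (algebraMap K2 Ω)) →
    ∀ z : Fin 3 → Ω, z ≠ 0 → qf (S.map σ) z = 0 → Dom S

/-- a nonzero vector field on the plane maps the matrix `A` to a multiple of itself -/
def Flat (A : Matrix (Fin 3) (Fin 3) R2) : Prop :=
  ∃ α β l : K2, (α ≠ 0 ∨ β ≠ 0) ∧ α • toK (dM 0 A) + β • toK (dM 1 A) = l • toK A

/-- the entries of `A` have no common divisor -/
def Coprim (A : Matrix (Fin 3) (Fin 3) R2) : Prop :=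
  ∀ d : R2, (∀ i j, d ∣ A i j) → IsUnit d

/-- twice the second order term of the cubic along its tangent line -/
noncomputable def hh {Ω : Type} [Field Ω] [Algebra K2 Ω] (s t : Ω)
    (A : Matrix (Fin 3) (Fin 3) R2) : Ω :=
  gv s t (dM 0 (dM 0 A)) * gv s t (dM 1 A) ^ 2
    - 2 * gv s t (dM 0 (dM 1 A)) * gv s t (dM 0 A) * gv s t (dM 1 A)
    + gv s t (dM 1 (dM 1 A)) * gv s t (dM 0 A) ^ 2

/-- six times the third order term of the cubic along its tangent line -/
noncomputable def gg {Ω : Type} [Field Ω] [Algebra K2 Ω] (s t : Ω)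
    (A : Matrix (Fin 3) (Fin 3) R2) : Ω :=
  gv s t (dM 0 (dM 0 (dM 0 A))) * gv s t (dM 1 A) ^ 3
    - 3 * gv s t (dM 0 (dM 0 (dM 1 A))) * gv s t (dM 1 A) ^ 2 * gv s t (dM 0 A)
    + 3 * gv s t (dM 0 (dM 1 (dM 1 A))) * gv s t (dM 1 A) * gv s t (dM 0 A) ^ 2
    - gv s t (dM 1 (dM 1 (dM 1 A))) * gv s t (dM 0 A) ^ 3

end Pool.Agent.Lib.MP_2095a9_ag.T2
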