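import Pool.Agent.Lib.MP_2095a9_ag.T2.Defs

set_option autoImplicit false

/-!
Module U1: normal form modulo the equation of the conic.
-/

namespace Pool.Agent.Lib.MP_2095a9_ag.T2

open MvPolynomial

/-- embedding of `ℂ[x,y]` into `ℂ[x,y,u,v]` -/
noncomputable def i2 : R2 →ₐ[ℂ] MvPolynomial (Fin 4) ℂ := rename ![0, 1]

/-- embedding of `ℂ[x,y,u]` into `ℂ[x,y,u,v]` -/
noncomputable def i3 : MvPolynomial (Fin 3) ℂ →ₐ[ℂ] MvPolynomial (Fin 4) ℂ := rename ![0, 1, 2]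

namespace U1aux

/-- embedding of `ℂ[x,y]` into `ℂ[x,y,u]` -/
noncomputable def j23 : R2 →ₐ[ℂ] MvPolynomial (Fin 3) ℂ := rename ![0, 1]

theorem i3_j23 (f : R2) : i3 (j23 f) = i2 f := by
  unfold i3 j23 i2
  rw [rename_rename]
  have : (![0, 1, 2] : Fin 3 → Fin 4) ∘ (![0, 1] : Fin 2 → Fin 3) = ![0, 1] := by
    funext i
    fin_cases i <;> rfl
  rw [this]

theorem i3_X0 : i3 (X 0) = X 0 := by simp [i3]
theorem i3_X1 : i3 (X 1) = X 1 := by simp [i3]
theorem i3_X2 : i3 (X 2) = X 2 := by simp [i3]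

end U1aux

open U1aux in
theorem normal_form (a b : R2) (P : MvPolynomial (Fin 4) ℂ) :
    ∃ (n : ℕ) (P0 P1 : MvPolynomial (Fin 3) ℂ) (Q : MvPolynomial (Fin 4) ℂ),
      i2 b ^ n * P = i3 P0 + i3 P1 * X 3 + (i2 a * X 2 ^ 2 + i2 b * X 3 ^ 2 - 1) * Q := by
  induction P using MvPolynomial.induction_on with
  | C c =>
    refine ⟨0, C c, 0, 0, ?_⟩
    have : i3 (C c) = C c := by simp [i3]
    rw [this]
    simp
  | add f g hf hg =>
    obtain ⟨n1, P0, P1, Q, h1⟩ := hf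
    obtain ⟨n2, P0', P1', Q', h2⟩ := hg
    refine ⟨n1 + n2, j23 b ^ n2 * P0 + j23 b ^ n1 * P0', j23 b ^ n2 * P1 + j23 b ^ n1 * P1',
      i2 b ^ n2 * Q + i2 b ^ n1 * Q', ?_⟩
    simp only [map_add, map_mul, map_pow, i3_j23]
    rw [pow_add]
    linear_combination (i2 b ^ n2) * h1 + (i2 b ^ n1) * h2
  | mul_X f i hf =>
    obtain ⟨n, P0, P1, Q, h⟩ := hf
    have hi : i = 0 ∨ i = 1 ∨ i = 2 ∨ i = 3 := by fin_cases i <;> simp
    rcases hi with hi | hi | hi | hi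
    · subst hi
      refine ⟨n, P0 * X 0, P1 * X 0, Q * X 0, ?_⟩
      rw [map_mul, map_mul, i3_X0]
      linear_combination (X 0) * h
    · subst hi
      refine ⟨n, P0 * X 1, P1 * X 1, Q * X 1, ?_⟩
      rw [map_mul, map_mul, i3_X1]
      linear_combination (X 1) * h
    · subst hi
      refine ⟨n, P0 * X 2, P1 * X 2, Q * X 2, ?_⟩
      rw [map_mul, map_mul, i3_X2]
      linear_combination (X 2) * h
    · subst hi
      refine ⟨n + 1, P1 * (1 - j23 a * X 2 ^ 2), j23 b * P0, i3 P1 + i2 b * Q * X 3, ?_⟩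
      simp only [map_mul, map_sub, map_one, map_pow, i3_j23, i3_X2]
      linear_combination (i2 b * X 3) * h

end Pool.Agent.Lib.MP_2095a9_ag.T2
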