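import Pool.Agent.Lib.MP_2095a9_ag.T2.Defs

set_option autoImplicit false

/-!
# MP_2095a9_ag, module U6: `ℂ(x,y)` is algebraically closed in the function field of the conic
-/

namespace Pool.Agent.Lib.MP_2095a9_ag.T2

open Polynomial

theorem conic_kcl {Ω : Type} [Field Ω] [Algebra ℂ Ω] [Algebra K2 Ω] [IsScalarTower ℂ K2 Ω]
    (a b : K2) (ha : a ≠ 0) (hb : b ≠ 0) (u v : Ω) (h : IsConicField a b u v)
    (w : Ω) (hw : IsAlgebraic K2 w) : w ∈ Set.range (algebraMap K2 Ω) := by
  classical
  obtain ⟨p, q, r, hr, hpqr⟩ := h.gen w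
  let E : IntermediateField K2 Ω := IntermediateField.adjoin K2 {w}
  have hE : Algebra.IsAlgebraic K2 E := IntermediateField.isAlgebraic_adjoin_simple hw.isIntegral
  have hu : Transcendental E u := fun hcon => h.trans (hcon.restrictScalars K2)
  let w' : E := ⟨w, IntermediateField.mem_adjoin_simple_self K2 w⟩
  have hw' : algebraMap E Ω w' = w := rfl
  have hmap : ∀ f : K2[X], aeval u (f.map (algebraMap K2 E)) = aeval u f := fun f =>
    aeval_map_algebraMap E u f
  have hC : ∀ c : K2, aeval u (C (algebraMap K2 E c) : E[X]) = algebraMap K2 Ω c := fun c => by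
    rw [aeval_C, ← IsScalarTower.algebraMap_apply]
  have hE2 : (2 : E) ≠ 0 := by
    have : (2 : K2) ≠ 0 := two_ne_zero
    intro h2
    apply this
    apply (algebraMap K2 E).injective
    rw [map_ofNat, h2, map_zero]
  have key : C (algebraMap K2 E b) * (C w' * r.map (algebraMap K2 E) -
      p.map (algebraMap K2 E)) ^ 2 =
      (q.map (algebraMap K2 E)) ^ 2 * (1 - C (algebraMap K2 E a) * X ^ 2) := by
    rw [← sub_eq_zero]
    apply transcendental_iff.1 hu
    rw [map_sub, map_mul, map_mul, map_pow, map_sub, map_mul, map_pow, map_sub, map_mul, map_pow,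
      map_one, aeval_X, hmap, hmap, hmap, hC, hC, aeval_C, hw']
    have e1 : w * aeval u r - aeval u p = aeval u q * v := by
      rw [hpqr]; ring
    rw [e1]
    have e2 := h.conic
    linear_combination (aeval u q) ^ 2 * e2
  have hbE : algebraMap K2 E b ≠ 0 := (_root_.map_ne_zero _).2 hb
  have haE : algebraMap K2 E a ≠ 0 := (_root_.map_ne_zero _).2 ha
  obtain ⟨h1, -⟩ := sq_lemma hE2 _ _ hbE _ _ _ le_rfl key haE
  have h2 : w' * algebraMap K2 E r.leadingCoeff = algebraMap K2 E (p.coeff r.natDegree) := by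
    have := congrArg (fun f => coeff f r.natDegree) h1
    simp only [coeff_sub, coeff_C_mul, coeff_map, coeff_zero] at this
    exact sub_eq_zero.1 this
  refine ⟨p.coeff r.natDegree / r.leadingCoeff, ?_⟩
  have hl : algebraMap K2 Ω r.leadingCoeff ≠ 0 := (_root_.map_ne_zero _).2 (leadingCoeff_ne_zero.2 hr)
  rw [map_div₀, div_eq_iff hl]
  have h3 := congrArg (algebraMap E Ω) h2
  rw [map_mul, hw', ← IsScalarTower.algebraMap_apply, ← IsScalarTower.algebraMap_apply] at h3
  exact h3.symm

end Pool.Agent.Lib.MP_2095a9_ag.T2
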