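import Pool.Agent.Lib.MP_2095a9_ag.T2.Defs

set_option autoImplicit false

/-!
# MP_2095a9_ag, module U7: transcendence degree of the function field of the conic
-/

namespace Pool.Agent.Lib.MP_2095a9_ag.T2

open MvPolynomial

namespace U7aux

theorem sub_trans {k K Ω : Type*} [Field k] [Field K] [Field Ω] [Algebra k K] [Algebra K Ω]
    [Algebra k Ω] [IsScalarTower k K Ω] (S : Subalgebra k Ω)
    (hS : S ≤ (IsScalarTower.toAlgHom k K Ω).range) (w : Ω) (h : IsAlgebraic S w) :
    IsAlgebraic K w := by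
  have h1 : IsAlgebraic (IsScalarTower.toAlgHom k K Ω).range w :=
    h.ringHom_of_comp_eq (Subalgebra.inclusion hS) (RingHom.id Ω)
      (Subalgebra.inclusion_injective hS) rfl
  have h2 : Function.Surjective (IsScalarTower.toAlgHom k K Ω).rangeRestrict :=
    AlgHom.rangeRestrict_surjective _
  exact IsAlgebraic.of_ringHom_of_comp_eq (R := K) (IsScalarTower.toAlgHom k K Ω).rangeRestrict
    (RingHom.id Ω) h1 h2 Function.injective_id rfl

theorem optA {k K Ω : Type*} [Field k] [Field K] [Field Ω] [Algebra k K] [Algebra K Ω]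
    [Algebra k Ω] [IsScalarTower k K Ω] {ι : Type*} (x : ι → K)
    (hx : AlgebraicIndependent k x) :
    AlgebraicIndependent k (fun i => algebraMap K Ω (x i)) := by
  have h1 := hx.map' (f := IsScalarTower.toAlgHom k K Ω) (RingHom.injective _)
  exact h1

theorem opt {k K Ω : Type*} [Field k] [Field K] [Field Ω] [Algebra k K] [Algebra K Ω]
    [Algebra k Ω] [IsScalarTower k K Ω] {ι : Type*} (x : ι → K) (hx : AlgebraicIndependent k x)
    (w : Ω) (h : Transcendental K w) :
    AlgebraicIndependent k (fun o : Option ι => o.elim w (fun i => algebraMap K Ω (x i))) := by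
  refine AlgebraicIndependent.option_iff.2 ⟨optA x hx, ?_⟩
  intro hcon
  refine h (sub_trans (Algebra.adjoin k (Set.range fun i => algebraMap K Ω (x i))) ?_ w hcon)
  refine Algebra.adjoin_le ?_
  rintro _ ⟨i, rfl⟩
  exact ⟨x i, rfl⟩

theorem three {K Ω : Type*} [Field K] [Field Ω] [Algebra ℂ K] [Algebra K Ω]
    [Algebra ℂ Ω] [IsScalarTower ℂ K Ω] [Algebra (MvPolynomial (Fin 2) ℂ) K]
    [IsScalarTower ℂ (MvPolynomial (Fin 2) ℂ) K]
    (hinj : Function.Injective (algebraMap (MvPolynomial (Fin 2) ℂ) K)) (w : Ω)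
    (h : Transcendental K w) :
    AlgebraicIndependent ℂ ![algebraMap K Ω (algebraMap (MvPolynomial (Fin 2) ℂ) K (X 0)),
      algebraMap K Ω (algebraMap (MvPolynomial (Fin 2) ℂ) K (X 1)), w] := by
  have h0 : AlgebraicIndependent ℂ (fun i : Fin 2 => algebraMap (MvPolynomial (Fin 2) ℂ) K (X i)) :=
    (MvPolynomial.algebraicIndependent_X (Fin 2) ℂ).map'
      (f := IsScalarTower.toAlgHom ℂ (MvPolynomial (Fin 2) ℂ) K) hinj
  have h1 := opt _ h0 w h
  have h2 : Function.Injective (![some 0, some 1, none] : Fin 3 → Option (Fin 2)) := by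
    decide
  have h3 := h1.comp _ h2
  have h4 : (fun o : Option (Fin 2) => o.elim w
      (fun i => algebraMap K Ω (algebraMap (MvPolynomial (Fin 2) ℂ) K (X i)))) ∘
      (![some 0, some 1, none] : Fin 3 → Option (Fin 2)) =
      ![algebraMap K Ω (algebraMap (MvPolynomial (Fin 2) ℂ) K (X 0)),
      algebraMap K Ω (algebraMap (MvPolynomial (Fin 2) ℂ) K (X 1)), w] := by
    ext i
    fin_cases i <;> rfl
  rw [← h4]
  exact h3

theorem trdeg_base {K : Type} [Field K] [Algebra ℂ K]
    [Algebra (MvPolynomial (Fin 2) ℂ) K]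
    [IsScalarTower ℂ (MvPolynomial (Fin 2) ℂ) K] [IsFractionRing (MvPolynomial (Fin 2) ℂ) K] :
    Algebra.trdeg ℂ K = 2 := by
  have hinj : Function.Injective (algebraMap (MvPolynomial (Fin 2) ℂ) K) :=
    IsFractionRing.injective _ _
  have : FaithfulSMul (MvPolynomial (Fin 2) ℂ) K :=
    (faithfulSMul_iff_algebraMap_injective _ _).2 hinj
  have : Algebra.IsAlgebraic (MvPolynomial (Fin 2) ℂ) K :=
    IsLocalization.isAlgebraic K (nonZeroDivisors (MvPolynomial (Fin 2) ℂ))
  rw [← trdeg_add_eq ℂ (MvPolynomial (Fin 2) ℂ) (A := K),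
    trdeg_eq_zero (R := MvPolynomial (Fin 2) ℂ) (A := K), MvPolynomial.trdeg_of_isDomain]
  simp

theorem dep_aux {K Ω : Type} [Field K] [Field Ω] [Algebra ℂ K] [Algebra K Ω]
    [Algebra ℂ Ω] [IsScalarTower ℂ K Ω] (hK : Algebra.trdeg ℂ K = 2) (a b : K) (hb : b ≠ 0)
    (u v : Ω) (hc : algebraMap K Ω a * u ^ 2 + algebraMap K Ω b * v ^ 2 = 1)
    (hu : Transcendental K u)
    (hgen : ∀ w : Ω, ∃ p q r : Polynomial K, r ≠ 0 ∧
      w * Polynomial.aeval u r = Polynomial.aeval u p + Polynomial.aeval u q * v)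
    (g : Fin 4 → Ω) : ¬ AlgebraicIndependent ℂ g := by
  intro hg
  have hmem : ∀ p : Polynomial K, Polynomial.aeval u p ∈ Algebra.adjoin K {u} := fun p =>
    Polynomial.aeval_mem_adjoin_singleton K u
  have halg : Algebra.IsAlgebraic (Algebra.adjoin K {u}) Ω := by
    have hp : ∀ p : Polynomial K, IsAlgebraic (Algebra.adjoin K {u}) (Polynomial.aeval u p) :=
      fun p => isAlgebraic_algebraMap (⟨_, hmem p⟩ : Algebra.adjoin K {u})
    have hv : IsAlgebraic (Algebra.adjoin K {u}) v := by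
      have hv2 : IsAlgebraic (Algebra.adjoin K {u}) (v ^ 2) := by
        have e1 : v ^ 2 = Polynomial.aeval u
            (Polynomial.C b⁻¹ * (1 - Polynomial.C a * Polynomial.X ^ 2)) := by
          have hb' : algebraMap K Ω b ≠ 0 := (_root_.map_ne_zero _).2 hb
          rw [map_mul, map_sub, map_mul, map_pow, Polynomial.aeval_C, Polynomial.aeval_C,
            Polynomial.aeval_X, map_one, map_inv₀]
          field_simp
          linear_combination hc
        rw [e1]
        exact hp _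
      exact IsAlgebraic.of_pow (n := 2) (by norm_num) hv2
    refine ⟨fun w => ?_⟩
    obtain ⟨p, q, r, hr, he⟩ := hgen w
    have hr' : Polynomial.aeval u r ≠ 0 := fun h0 => hr (transcendental_iff.1 hu r h0)
    have hw : w = (Polynomial.aeval u p + Polynomial.aeval u q * v) * (Polynomial.aeval u r)⁻¹ := by
      rw [← he]
      field_simp
    rw [hw]
    exact ((hp p).add ((hp q).mul hv)).mul (hp r).inv
  have h1 : Algebra.trdeg K Ω ≤ 1 := by
    have := Algebra.IsAlgebraic.trdeg_le_cardinalMk K (A := Ω) {u}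
    simpa using this
  have h2 : Algebra.trdeg ℂ Ω ≤ 3 := by
    rw [← trdeg_add_eq ℂ K (A := Ω), hK]
    calc (2 : Cardinal) + Algebra.trdeg K Ω ≤ 2 + 1 := add_le_add le_rfl h1
      _ = 3 := by norm_num
  have h3 := hg.cardinalMk_le_trdeg.trans h2
  rw [Cardinal.mk_fin] at h3
  norm_num at h3

end U7aux

theorem conic_indep {Ω : Type} [Field Ω] [Algebra ℂ Ω] [Algebra K2 Ω] [IsScalarTower ℂ K2 Ω]
    (w : Ω) (h : Transcendental K2 w) : AlgebraicIndependent ℂ ![co Ω 0, co Ω 1, w] :=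
  U7aux.three (K := K2) (IsFractionRing.injective R2 K2) w h

theorem conic_alg {Ω : Type} [Field Ω] [Algebra ℂ Ω] [Algebra K2 Ω] [IsScalarTower ℂ K2 Ω]
    (w : Ω) (h : ¬ AlgebraicIndependent ℂ ![co Ω 0, co Ω 1, w]) : IsAlgebraic K2 w := by
  by_contra hcon
  exact h (conic_indep w hcon)

theorem conic_dep {Ω : Type} [Field Ω] [Algebra ℂ Ω] [Algebra K2 Ω] [IsScalarTower ℂ K2 Ω]
    (a b : K2) (ha : a ≠ 0) (hb : b ≠ 0) (u v : Ω) (h : IsConicField a b u v)
    (g : Fin 4 → Ω) : ¬ AlgebraicIndependent ℂ g :=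
  U7aux.dep_aux (K := K2) (U7aux.trdeg_base (K := K2)) a b hb u v h.conic h.trans h.gen g

end Pool.Agent.Lib.MP_2095a9_ag.T2
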