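import Pool.Agent.Lib.MP_2095a9_ag.T2.Defs

set_option autoImplicit false

/-!
Module U8: exchange property of algebraic independence.
-/

namespace Pool.Agent.Lib.MP_2095a9_ag.T2

open MvPolynomial

namespace U8aux

variable {Ω : Type*} [Field Ω] [Algebra ℂ Ω]

/-- a family with one more element in front -/
theorem ai_cons {n : ℕ} (f : Fin n → Ω) (hf : AlgebraicIndependent ℂ f) (x : Ω) :
    AlgebraicIndependent ℂ (Fin.cons x f : Fin (n + 1) → Ω) ↔
      Transcendental (Algebra.adjoin ℂ (Set.range f)) x := by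
  rw [← hf.option_iff_transcendental x]
  refine algebraicIndependent_equiv' (finSuccEquiv n) ?_
  funext i
  refine Fin.cases ?_ (fun j => ?_) i
  · simp
  · simp

theorem mem_closure_of_not {n : ℕ} (f : Fin n → Ω) (hf : AlgebraicIndependent ℂ f) (x : Ω)
    (h : ¬ AlgebraicIndependent ℂ (Fin.cons x f : Fin (n + 1) → Ω)) :
    x ∈ (AlgebraicIndependent.matroid ℂ Ω).closure (Set.range f) := by
  rw [ai_cons f hf, Transcendental, not_not] at h
  rw [AlgebraicIndependent.matroid_closure_eq]
  exact h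

theorem not_ai_of_closure {n m : ℕ} (hnm : m < n) (f : Fin m → Ω) (g : Fin n → Ω)
    (hg : ∀ i, g i ∈ (AlgebraicIndependent.matroid ℂ Ω).closure (Set.range f)) :
    ¬ AlgebraicIndependent ℂ g := by
  intro h
  have hind : (AlgebraicIndependent.matroid ℂ Ω).Indep (Set.range g) :=
    AlgebraicIndependent.matroid_indep_iff.mpr h.coe_range
  have hsub : Set.range g ⊆ (AlgebraicIndependent.matroid ℂ Ω).closure (Set.range f) := by
    rintro _ ⟨i, rfl⟩
    exact hg i
  have h1 := hind.encard_le_eRk_of_subset hsub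
  rw [Matroid.eRk_closure_eq] at h1
  have h2 := h1.trans ((AlgebraicIndependent.matroid ℂ Ω).eRk_le_encard (Set.range f))
  have h3 : (Set.range g).encard = n := by
    rw [← Set.image_univ, h.injective.encard_image, Set.encard_univ]
    simp
  have h4 : (Set.range f).encard ≤ m := by
    rw [← Set.image_univ]
    refine (Set.encard_image_le _ _).trans ?_
    rw [Set.encard_univ]
    simp
  rw [h3] at h2
  have h5 : (n : ℕ∞) ≤ m := h2.trans h4
  exact absurd (Nat.cast_le.mp h5) (not_le.mpr hnm)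

end U8aux

theorem exchange {Ω : Type*} [Field Ω] [Algebra ℂ Ω] (x y f1 f2 : Ω)
    (hxy : AlgebraicIndependent ℂ ![x, y]) (hf : AlgebraicIndependent ℂ ![f1, f2])
    (h1 : ¬ AlgebraicIndependent ℂ ![x, f1, f2]) (h2 : ¬ AlgebraicIndependent ℂ ![y, f1, f2]) :
    ¬ AlgebraicIndependent ℂ ![x, y, f1] ∧ ¬ AlgebraicIndependent ℂ ![x, y, f2] := by
  have hx : x ∈ (AlgebraicIndependent.matroid ℂ Ω).closure (Set.range ![f1, f2]) :=
    U8aux.mem_closure_of_not _ hf x h1
  have hy : y ∈ (AlgebraicIndependent.matroid ℂ Ω).closure (Set.range ![f1, f2]) :=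
    U8aux.mem_closure_of_not _ hf y h2
  have hsub : Set.range ![f1, f2] ⊆
      (AlgebraicIndependent.matroid ℂ Ω).closure (Set.range ![f1, f2]) :=
    Matroid.subset_closure _ _ (Set.subset_univ _)
  have hf1 : f1 ∈ (AlgebraicIndependent.matroid ℂ Ω).closure (Set.range ![f1, f2]) :=
    hsub ⟨0, rfl⟩
  have hf2 : f2 ∈ (AlgebraicIndependent.matroid ℂ Ω).closure (Set.range ![f1, f2]) :=
    hsub ⟨1, rfl⟩
  constructor
  · refine U8aux.not_ai_of_closure (by norm_num : 2 < 3) ![f1, f2] _ ?_
    intro i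
    fin_cases i
    · exact hx
    · exact hy
    · exact hf1
  · refine U8aux.not_ai_of_closure (by norm_num : 2 < 3) ![f1, f2] _ ?_
    intro i
    fin_cases i
    · exact hx
    · exact hy
    · exact hf2

end Pool.Agent.Lib.MP_2095a9_ag.T2
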