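import Pool.Agent.Lib.MP_2095a9_ag.T2.Defs

set_option autoImplicit false

/-!
Module U2: the coordinate `v` of the generic point is not rational in `x, y, u`.
-/

namespace Pool.Agent.Lib.MP_2095a9_ag.T2

open MvPolynomial

namespace U2aux

/-- `ℂ[x,y,u] → ℂ(x,y)[u]` -/
noncomputable def th : MvPolynomial (Fin 3) ℂ →ₐ[ℂ] Polynomial K2 :=
  aeval ![Polynomial.C (algebraMap R2 K2 (X 0)), Polynomial.C (algebraMap R2 K2 (X 1)),
    Polynomial.X]

/-- embedding of `ℂ[x,y]` into `ℂ[x,y,u]` -/
noncomputable def j23 : R2 →ₐ[ℂ] MvPolynomial (Fin 3) ℂ := rename ![0, 1]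

theorem th_j23 (f : R2) : th (j23 f) = Polynomial.C (algebraMap R2 K2 f) := by
  unfold th j23
  rw [aeval_rename]
  have h1 : ((![Polynomial.C (algebraMap R2 K2 (X 0)), Polynomial.C (algebraMap R2 K2 (X 1)),
      Polynomial.X] : Fin 3 → Polynomial K2) ∘ (![0, 1] : Fin 2 → Fin 3)) =
      fun i => Polynomial.C (algebraMap R2 K2 (X i)) := by
    funext i
    fin_cases i <;> rfl
  rw [h1]
  induction f using MvPolynomial.induction_on with
  | C c =>
    rw [aeval_C]
    rfl
  | add f g hf hg => rw [map_add, map_add, map_add, hf, hg]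
  | mul_X f i hf => rw [map_mul, map_mul, map_mul, hf, aeval_X]

end U2aux

open U2aux in
theorem indep_v {Ω : Type*} [Field Ω] [Algebra ℂ Ω] (a b : R2) (ha : a ≠ 0) (hb : b ≠ 0)
    (x y u v : Ω) (hind : AlgebraicIndependent ℂ ![x, y, u])
    (hc : aeval ![x, y] a * u ^ 2 + aeval ![x, y] b * v ^ 2 = 1)
    (P0 P1 : MvPolynomial (Fin 3) ℂ)
    (h : aeval ![x, y, u] P0 + aeval ![x, y, u] P1 * v = 0) : P0 = 0 ∧ P1 = 0 := by
  have hinj : Function.Injective (aeval ![x, y, u] : MvPolynomial (Fin 3) ℂ →ₐ[ℂ] Ω) := hind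
  have h01 : (![x, y, u] : Fin 3 → Ω) ∘ (![0, 1] : Fin 2 → Fin 3) = ![x, y] := by
    funext i
    fin_cases i <;> rfl
  have hxy : AlgebraicIndependent ℂ ![x, y] := by
    rw [← h01]
    refine hind.comp _ ?_
    intro i j hij
    fin_cases i <;> fin_cases j <;> simp_all
  have hj : ∀ f : R2, aeval ![x, y, u] (j23 f) = aeval ![x, y] f := by
    intro f
    unfold j23
    rw [aeval_rename, h01]
  have hinj2 : Function.Injective (aeval ![x, y] : R2 →ₐ[ℂ] Ω) := hxy
  -- the embedding of `K2`
  let σ : K2 →ₐ[ℂ] Ω := IsFractionRing.liftAlgHom (K := K2) hinj2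
  have hσ : ∀ f : R2, σ (algebraMap R2 K2 f) = aeval ![x, y] f := by
    intro f
    exact IsFractionRing.lift_algebraMap hinj2 f
  let ev : Polynomial K2 →+* Ω := Polynomial.eval₂RingHom (σ : K2 →+* Ω) u
  have hev : ∀ P : MvPolynomial (Fin 3) ℂ, ev (th P) = aeval ![x, y, u] P := by
    intro P
    induction P using MvPolynomial.induction_on with
    | C c =>
      have h1 : th (C c) = Polynomial.C (algebraMap R2 K2 (C c)) := by
        unfold th
        rw [aeval_C]
        rfl
      rw [h1]
      have h2 : ev (Polynomial.C (algebraMap R2 K2 (C c))) = σ (algebraMap R2 K2 (C c)) :=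
        Polynomial.eval₂_C _ _
      rw [h2, hσ, aeval_C, aeval_C]
    | add f g hf hg => rw [map_add, map_add, map_add, hf, hg]
    | mul_X f i hf =>
      rw [map_mul, map_mul, map_mul, hf, aeval_X]
      have h3 : ev (th (X i)) = ![x, y, u] i := by
        unfold th
        rw [aeval_X]
        have hi : i = 0 ∨ i = 1 ∨ i = 2 := by fin_cases i <;> simp
        rcases hi with hi | hi | hi
        · subst hi
          have h2 : ev (Polynomial.C (algebraMap R2 K2 (X 0))) = σ (algebraMap R2 K2 (X 0)) :=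
            Polynomial.eval₂_C _ _
          show ev (Polynomial.C (algebraMap R2 K2 (X 0))) = x
          rw [h2, hσ, aeval_X]
          rfl
        · subst hi
          have h2 : ev (Polynomial.C (algebraMap R2 K2 (X 1))) = σ (algebraMap R2 K2 (X 1)) :=
            Polynomial.eval₂_C _ _
          show ev (Polynomial.C (algebraMap R2 K2 (X 1))) = y
          rw [h2, hσ, aeval_X]
          rfl
        · subst hi
          exact Polynomial.eval₂_X _ _
      rw [h3]
  -- the polynomial identity
  have hid : j23 b * P0 ^ 2 = P1 ^ 2 * (1 - j23 a * X 2 ^ 2) := by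
    apply hinj
    have hX2 : aeval ![x, y, u] (X 2 : MvPolynomial (Fin 3) ℂ) = u := by
      rw [aeval_X]
      rfl
    rw [map_mul, map_mul, map_sub, map_mul, map_pow, map_pow, map_pow, map_one, hj, hj, hX2]
    linear_combination (aeval ![x, y] b * (aeval ![x, y, u] P0 - aeval ![x, y, u] P1 * v)) * h
      + (aeval ![x, y, u] P1) ^ 2 * hc
  have hid2 := congrArg th hid
  have hthX : th (X 2) = Polynomial.X := by
    unfold th
    rw [aeval_X]
    rfl
  rw [map_mul, map_mul, map_sub, map_mul, map_pow, map_pow, map_pow, map_one, th_j23, th_j23,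
    hthX] at hid2
  have hinjK : Function.Injective (algebraMap R2 K2) := IsFractionRing.injective R2 K2
  have ha' : algebraMap R2 K2 a ≠ 0 := by
    intro h0
    exact ha (hinjK (by rw [h0, map_zero]))
  have hb' : algebraMap R2 K2 b ≠ 0 := by
    intro h0
    exact hb (hinjK (by rw [h0, map_zero]))
  obtain ⟨h1, h2⟩ := sq_lemma (two_ne_zero : (2 : K2) ≠ 0) (algebraMap R2 K2 a)
    (algebraMap R2 K2 b) hb' _ (th P0) (th P1) le_rfl hid2 ha'
  constructor
  · apply hinj
    rw [← hev, h1, map_zero, map_zero]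
  · apply hinj
    rw [← hev, h2, map_zero, map_zero]

end Pool.Agent.Lib.MP_2095a9_ag.T2
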