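import Pool.Agent.Lib.MP_2095a9_ag.T2.Defs

set_option autoImplicit false

/-!
Module U3: a point of the conic over the function field of the surface `x = e`.
-/

namespace Pool.Agent.Lib.MP_2095a9_ag.T2

open MvPolynomial

namespace U3aux

/-- parametrisation of a conic with a point: a generic point -/
theorem param {L : Type*} [Field L] (h2 : (2 : L) ≠ 0) (a b : L) (ha : a ≠ 0) (hb : b ≠ 0)
    (u₀ v₀ : L) (huv : a * u₀ ^ 2 + b * v₀ ^ 2 = 1) :
    ∃ u v : FractionRing (Polynomial L), Transcendental L u ∧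
      algebraMap L (FractionRing (Polynomial L)) a * u ^ 2 +
        algebraMap L (FractionRing (Polynomial L)) b * v ^ 2 = 1 := by
  classical
  set M := FractionRing (Polynomial L) with hM
  have hal : ∀ c : L, algebraMap L M c = algebraMap (Polynomial L) M (Polynomial.C c) := fun c => by
    rw [IsScalarTower.algebraMap_apply L (Polynomial L) M]
    rfl
  let N : Polynomial L := - Polynomial.C 2 *
    (Polynomial.C (a * u₀) + Polynomial.C (b * v₀) * Polynomial.X)
  let D : Polynomial L := Polynomial.C a + Polynomial.C b * Polynomial.X ^ 2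
  have hDdeg : D.natDegree = 2 := by
    show (Polynomial.C a + Polynomial.C b * Polynomial.X ^ 2 : Polynomial L).natDegree = 2
    compute_degree!
  have hD0 : D ≠ 0 := by
    intro h0; rw [h0] at hDdeg; simp at hDdeg
  have hinjM : Function.Injective (algebraMap (Polynomial L) M) :=
    IsFractionRing.injective (Polynomial L) M
  have hDM : algebraMap (Polynomial L) M D ≠ 0 := by
    intro h0
    exact hD0 (hinjM (by rw [h0, map_zero]))
  let lam : M := algebraMap (Polynomial L) M N / algebraMap (Polynomial L) M D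
  have hlamtr : ¬ IsAlgebraic L lam := by
    intro halg
    have hdvd := dvd_of_isAlgebraic N D hD0 halg
    have hN0 : N ≠ 0 := by
      intro h0
      have h1 : (Polynomial.C (a * u₀) + Polynomial.C (b * v₀) * Polynomial.X : Polynomial L)
          = 0 := by
        rcases mul_eq_zero.mp h0 with h3 | h3
        · exfalso
          have : (Polynomial.C 2 : Polynomial L) = 0 := by linear_combination -h3
          exact h2 (Polynomial.C_eq_zero.mp this)
        · exact h3
      have hu : a * u₀ = 0 := by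
        have := congrArg (fun p : Polynomial L => p.coeff 0) h1
        simpa using this
      have hv : b * v₀ = 0 := by
        have := congrArg (fun p : Polynomial L => p.coeff 1) h1
        simpa [Polynomial.coeff_C] using this
      have hu' : u₀ = 0 := (mul_eq_zero.mp hu).resolve_left ha
      have hv' : v₀ = 0 := (mul_eq_zero.mp hv).resolve_left hb
      rw [hu', hv'] at huv
      simp at huv
    have h3 := Polynomial.natDegree_le_of_dvd hdvd hN0
    have h4 : N.natDegree ≤ 1 := by
      show (- Polynomial.C 2 * (Polynomial.C (a * u₀) + Polynomial.C (b * v₀) * Polynomial.X) :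
        Polynomial L).natDegree ≤ 1
      compute_degree
    omega
  let τ : M := algebraMap (Polynomial L) M Polynomial.X
  have hlamD : lam * (algebraMap L M a + algebraMap L M b * τ ^ 2) =
      - 2 * (algebraMap L M a * algebraMap L M u₀ + algebraMap L M b * algebraMap L M v₀ * τ) := by
    have h1 : lam * algebraMap (Polynomial L) M D = algebraMap (Polynomial L) M N :=
      div_mul_cancel₀ _ hDM
    have h5 : algebraMap (Polynomial L) M D = algebraMap L M a + algebraMap L M b * τ ^ 2 := by
      simp only [D, τ, map_add, map_mul, map_pow, hal]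
    have h6 : algebraMap (Polynomial L) M N =
        - 2 * (algebraMap L M a * algebraMap L M u₀ + algebraMap L M b * algebraMap L M v₀ * τ) := by
      simp only [N, τ, map_add, map_mul, map_neg, map_ofNat, hal]
    rw [← h5, ← h6, h1]
  refine ⟨algebraMap L M u₀ + lam, algebraMap L M v₀ + lam * τ, ?_, ?_⟩
  · intro hu
    apply hlamtr
    have h3 : lam = (algebraMap L M u₀ + lam) - algebraMap L M u₀ := by ring
    rw [h3]
    exact hu.sub (isAlgebraic_algebraMap _)
  · have h1 : algebraMap L M a * algebraMap L M u₀ ^ 2 + algebraMap L M b * algebraMap L M v₀ ^ 2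
        = 1 := by
      rw [← map_pow, ← map_pow, ← map_mul, ← map_mul, ← map_add, huv, map_one]
    linear_combination h1 + lam * hlamD

/-- the polynomial in `T` obtained by putting `x = e` -/
noncomputable def sp (e : ℂ) : R2 →ₐ[ℂ] MvPolynomial (Fin 1) ℂ := aeval ![C e, X 0]

theorem sp_eq (e : ℂ) (f : R2) : sp e f = (finSuccEquiv ℂ 1 f).eval (C e) := by
  have h : (sp e : R2 →+* MvPolynomial (Fin 1) ℂ) =
      (Polynomial.evalRingHom (C e : MvPolynomial (Fin 1) ℂ)).comp
        (finSuccEquiv ℂ 1 : R2 →+* Polynomial (MvPolynomial (Fin 1) ℂ)) := by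
    refine MvPolynomial.ringHom_ext (fun c => ?_) (fun i => ?_)
    · show sp e (C c) = Polynomial.eval (C e) (finSuccEquiv ℂ 1 (C c))
      have h1 : finSuccEquiv ℂ 1 (C c) = Polynomial.C (C c) := by
        rw [finSuccEquiv_apply, eval₂Hom_C]
        rfl
      rw [h1, Polynomial.eval_C]
      simp [sp]
    · refine Fin.cases ?_ (fun j => ?_) i
      · show sp e (X 0) = Polynomial.eval (C e) (finSuccEquiv ℂ 1 (X 0))
        rw [finSuccEquiv_X_zero, Polynomial.eval_X]
        simp [sp]
      · show sp e (X j.succ) = Polynomial.eval (C e) (finSuccEquiv ℂ 1 (X j.succ))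
        rw [finSuccEquiv_X_succ, Polynomial.eval_C]
        fin_cases j
        simp [sp]
  exact RingHom.congr_fun h f

/-- the numbers `e` with `f(e,T) = 0` are the roots of a nonzero polynomial -/
theorem exists_c (f : R2) (hf : f ≠ 0) :
    ∃ c : Polynomial ℂ, c ≠ 0 ∧ ∀ e : ℂ, c.eval e ≠ 0 → sp e f ≠ 0 := by
  classical
  have hp : finSuccEquiv ℂ 1 f ≠ 0 := by
    intro h
    exact hf ((finSuccEquiv ℂ 1).injective (by rw [h, map_zero]))
  have hfin : {e : ℂ | sp e f = 0}.Finite := by
    have h1 : {r : MvPolynomial (Fin 1) ℂ | (finSuccEquiv ℂ 1 f).IsRoot r}.Finite :=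
      Polynomial.finite_setOfPred_isRoot hp
    refine (h1.preimage ((C_injective (Fin 1) ℂ).injOn)).subset ?_
    intro e he
    have he' : sp e f = 0 := he
    rw [sp_eq] at he'
    exact he'
  refine ⟨∏ e ∈ hfin.toFinset, (Polynomial.X - Polynomial.C e), ?_, ?_⟩
  · exact Finset.prod_ne_zero_iff.mpr fun e _ => Polynomial.X_sub_C_ne_zero e
  · intro e he h0
    apply he
    rw [Polynomial.eval_prod]
    refine Finset.prod_eq_zero (i := e) ?_ (by simp)
    rw [Set.Finite.mem_toFinset]
    exact h0

end U3aux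

theorem exists_point (a b : R2) (ha : a ≠ 0) (hb : b ≠ 0) :
    ∃ c : Polynomial ℂ, c ≠ 0 ∧ ∀ e : ℂ, c.eval e ≠ 0 → ∃ T u v : L2,
      AlgebraicIndependent ℂ ![T, u] ∧
      aeval ![algebraMap ℂ L2 e, T] a * u ^ 2 + aeval ![algebraMap ℂ L2 e, T] b * v ^ 2 = 1 := by
  classical
  obtain ⟨ca, hca, hca'⟩ := U3aux.exists_c a ha
  obtain ⟨cb, hcb, hcb'⟩ := U3aux.exists_c b hb
  refine ⟨ca * cb, mul_ne_zero hca hcb, fun e he => ?_⟩
  rw [Polynomial.eval_mul] at he
  have hea := hca' e (left_ne_zero_of_mul he)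
  have heb := hcb' e (right_ne_zero_of_mul he)
  have hinj : Function.Injective (algebraMap (MvPolynomial (Fin 1) ℂ) F1) :=
    IsFractionRing.injective (MvPolynomial (Fin 1) ℂ) F1
  have h2F : (2 : F1) ≠ 0 := by
    have := (map_ne_zero (algebraMap ℂ F1)).mpr (two_ne_zero : (2 : ℂ) ≠ 0)
    rwa [map_ofNat] at this
  have hea' : algebraMap (MvPolynomial (Fin 1) ℂ) F1 (U3aux.sp e a) ≠ 0 :=
    fun h => hea (hinj (by rw [h, map_zero]))
  have heb' : algebraMap (MvPolynomial (Fin 1) ℂ) F1 (U3aux.sp e b) ≠ 0 :=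
    fun h => heb (hinj (by rw [h, map_zero]))
  obtain ⟨u₀, v₀, huv⟩ := (tsen_one _ _ hea' heb').affine h2F hea' heb'
  obtain ⟨u, v, hu, hc⟩ := U3aux.param h2F _ _ hea' heb' u₀ v₀ huv
  have hev : ∀ f : R2, aeval ![algebraMap ℂ L2 e,
      algebraMap F1 L2 (algebraMap (MvPolynomial (Fin 1) ℂ) F1 (X 0))] f =
      algebraMap F1 L2 (algebraMap (MvPolynomial (Fin 1) ℂ) F1 (U3aux.sp e f)) := by
    intro f
    have h : (aeval ![algebraMap ℂ L2 e,
        algebraMap F1 L2 (algebraMap (MvPolynomial (Fin 1) ℂ) F1 (X 0))] : R2 →ₐ[ℂ] L2) =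
        ((IsScalarTower.toAlgHom ℂ F1 L2).comp
          (IsScalarTower.toAlgHom ℂ (MvPolynomial (Fin 1) ℂ) F1)).comp (U3aux.sp e) := by
      refine MvPolynomial.algHom_ext (fun i => ?_)
      fin_cases i
      · simp only [AlgHom.comp_apply, IsScalarTower.coe_toAlgHom']
        show aeval ![algebraMap ℂ L2 e,
          algebraMap F1 L2 (algebraMap (MvPolynomial (Fin 1) ℂ) F1 (X 0))] (X 0) = _
        rw [aeval_X]
        show algebraMap ℂ L2 e = algebraMap F1 L2 (algebraMap (MvPolynomial (Fin 1) ℂ) F1
          (aeval ![C e, X 0] (X 0)))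
        rw [aeval_X]
        show algebraMap ℂ L2 e = algebraMap F1 L2 (algebraMap (MvPolynomial (Fin 1) ℂ) F1
          (algebraMap ℂ (MvPolynomial (Fin 1) ℂ) e))
        rw [← IsScalarTower.algebraMap_apply ℂ (MvPolynomial (Fin 1) ℂ) F1,
          ← IsScalarTower.algebraMap_apply ℂ F1 L2]
      · simp only [AlgHom.comp_apply, IsScalarTower.coe_toAlgHom']
        show aeval ![algebraMap ℂ L2 e,
          algebraMap F1 L2 (algebraMap (MvPolynomial (Fin 1) ℂ) F1 (X 0))] (X 1) = _
        rw [aeval_X]
        show _ = algebraMap F1 L2 (algebraMap (MvPolynomial (Fin 1) ℂ) F1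
          (aeval ![C e, X 0] (X 1)))
        rw [aeval_X]
        rfl
    exact congrArg (fun g : R2 →ₐ[ℂ] L2 => g f) h
  refine ⟨algebraMap F1 L2 (algebraMap (MvPolynomial (Fin 1) ℂ) F1 (X 0)), u, v, ?_, ?_⟩
  · have hT : AlgebraicIndependent ℂ
        (fun i : Fin 1 => algebraMap (MvPolynomial (Fin 1) ℂ) F1 (X i)) :=
      (MvPolynomial.algebraicIndependent_X (Fin 1) ℂ).map'
        (f := IsScalarTower.toAlgHom ℂ (MvPolynomial (Fin 1) ℂ) F1) hinj
    have hU : AlgebraicIndependent F1 (fun _ : Fin 1 => u) :=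
      (algebraicIndependent_singleton_iff (0 : Fin 1)).mpr hu
    have hTU := hT.sumElim_comp hU
    let eqv : Fin 2 ≃ Fin 1 ⊕ Fin 1 :=
      { toFun := ![Sum.inr 0, Sum.inl 0]
        invFun := Sum.elim (fun _ => 1) (fun _ => 0)
        left_inv := by
          intro i
          fin_cases i <;> rfl
        right_inv := by
          rintro (i | i)
          · fin_cases i
            rfl
          · fin_cases i
            rfl }
    refine (algebraicIndependent_equiv' eqv ?_).mpr hTU
    funext i
    fin_cases i <;> rfl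
  · rw [hev, hev]
    exact hc

end Pool.Agent.Lib.MP_2095a9_ag.T2
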