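import Pool.Agent.Lib.MP_2095a9_ag.T2.U1
import Pool.Agent.Lib.MP_2095a9_ag.T2.U2
import Pool.Agent.Lib.MP_2095a9_ag.T2.U3

set_option autoImplicit false

/-!
Module U4: generic specialisation of the first variable.
-/

namespace Pool.Agent.Lib.MP_2095a9_ag.T2

open MvPolynomial

namespace U4aux

open U1aux

/-- a nonzero polynomial stays nonzero for almost all values of the first variable. -/
theorem spec_finite (F : MvPolynomial (Fin 3) ℂ) (hF : F ≠ 0) :
    ∃ S : Set ℂ, S.Finite ∧ ∀ e, e ∉ S → ∀ T u : L2, AlgebraicIndependent ℂ ![T, u] →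
      aeval ![algebraMap ℂ L2 e, T, u] F ≠ 0 := by
  classical
  set H := finSuccEquiv ℂ 2 F with hH
  have hHne : H ≠ 0 := by
    rw [hH]
    exact (map_ne_zero_iff _ (finSuccEquiv ℂ 2).injective).mpr hF
  refine ⟨C ⁻¹' {z | Polynomial.IsRoot H z}, ?_, ?_⟩
  · exact (Polynomial.finite_setOfPred_isRoot hHne).preimage (C_injective (Fin 2) ℂ).injOn
  intro e he T u hTu h0
  apply he
  show Polynomial.IsRoot H (C e)
  have hΦ : ((aeval ![T, u] : MvPolynomial (Fin 2) ℂ →ₐ[ℂ] L2).toRingHom.comp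
      (Polynomial.evalRingHom (C e))).comp ((finSuccEquiv ℂ 2 : MvPolynomial (Fin 3) ℂ ≃ₐ[ℂ] _) :
        MvPolynomial (Fin 3) ℂ →+* Polynomial (MvPolynomial (Fin 2) ℂ)) =
      (aeval ![algebraMap ℂ L2 e, T, u] : MvPolynomial (Fin 3) ℂ →ₐ[ℂ] L2).toRingHom := by
    apply MvPolynomial.ringHom_ext
    · intro r
      simp [finSuccEquiv_apply]
    · intro i
      refine Fin.cases ?_ (fun i => ?_) i
      · simp [finSuccEquiv_X_zero]
      · have h1 : (finSuccEquiv ℂ 2) (X i.succ) = Polynomial.C (X i) := finSuccEquiv_X_succ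
        simp only [RingHom.comp_apply, AlgHom.toRingHom_eq_coe, RingHom.coe_coe, h1,
          Polynomial.coe_evalRingHom, Polynomial.eval_C, aeval_X]
        simp
  have h9 := RingHom.congr_fun hΦ F
  have h10 : aeval ![T, u] (Polynomial.eval (C e) H) = 0 := h9.trans h0
  exact (algebraicIndependent_iff.mp hTu) _ h10

theorem ev_i2 {E : Type*} [Field E] [Algebra ℂ E] (x y u v : E) (P : R2) :
    aeval ![x, y, u, v] (i2 P) = aeval ![x, y] P := by
  rw [i2, aeval_rename]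
  congr 2
  funext i
  fin_cases i <;> rfl

theorem ev_i3 {E : Type*} [Field E] [Algebra ℂ E] (x y u v : E) (P : MvPolynomial (Fin 3) ℂ) :
    aeval ![x, y, u, v] (i3 P) = aeval ![x, y, u] P := by
  rw [i3, aeval_rename]
  congr 2
  funext i
  fin_cases i <;> rfl

theorem ev_j {E : Type*} [Field E] [Algebra ℂ E] (x y u : E) (P : R2) :
    aeval ![x, y, u] (j23 P) = aeval ![x, y] P := by
  rw [j23, aeval_rename]
  congr 2
  funext i
  fin_cases i <;> rfl

theorem j_inj : Function.Injective j23 := by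
  unfold j23
  exact rename_injective _ (by decide)

/-- the normal form evaluated at a point of the conic -/
theorem ev_normal {E : Type*} [Field E] [Algebra ℂ E] (a b : R2) (x y u v : E)
    (hc : aeval ![x, y] a * u ^ 2 + aeval ![x, y] b * v ^ 2 = 1)
    (n : ℕ) (P0 P1 : MvPolynomial (Fin 3) ℂ) (Q P : MvPolynomial (Fin 4) ℂ)
    (h : i2 b ^ n * P = i3 P0 + i3 P1 * X 3 + (i2 a * X 2 ^ 2 + i2 b * X 3 ^ 2 - 1) * Q) :
    aeval ![x, y] b ^ n * aeval ![x, y, u, v] P =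
      aeval ![x, y, u] P0 + aeval ![x, y, u] P1 * v := by
  have h1 := congrArg (aeval ![x, y, u, v]) h
  simp only [map_mul, map_add, map_sub, map_pow, map_one, ev_i2, ev_i3, aeval_X] at h1
  have e3 : (![x, y, u, v] : Fin 4 → E) 3 = v := rfl
  have e2 : (![x, y, u, v] : Fin 4 → E) 2 = u := rfl
  rw [e3, e2, hc, sub_self, zero_mul, add_zero] at h1
  exact h1

theorem ev_b_ne {E : Type*} [Field E] [Algebra ℂ E] (b : R2) (hb : b ≠ 0) (x y u : E)
    (hind : AlgebraicIndependent ℂ ![x, y, u]) : aeval ![x, y] b ≠ 0 := by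
  intro h0
  apply hb
  apply j_inj
  rw [map_zero]
  apply (algebraicIndependent_iff.mp hind)
  rw [ev_j, h0]

theorem pair_ne (P : MvPolynomial (Fin 4) ℂ) {Ω : Type*} [Field Ω] [Algebra ℂ Ω]
    (a b : R2) (ha : a ≠ 0) (hb : b ≠ 0)
    (x y u v : Ω) (hind : AlgebraicIndependent ℂ ![x, y, u])
    (hc : aeval ![x, y] a * u ^ 2 + aeval ![x, y] b * v ^ 2 = 1)
    (hP : aeval ![x, y, u, v] P ≠ 0) :
    ∃ S : Set ℂ, S.Finite ∧ ∀ e, e ∉ S → ∀ T u' v' : L2, AlgebraicIndependent ℂ ![T, u'] →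
      aeval ![algebraMap ℂ L2 e, T] a * u' ^ 2 + aeval ![algebraMap ℂ L2 e, T] b * v' ^ 2 = 1 →
      aeval ![algebraMap ℂ L2 e, T, u', v'] P ≠ 0 := by
  classical
  obtain ⟨n, P0, P1, Q, hn⟩ := normal_form a b P
  set cP : MvPolynomial (Fin 3) ℂ :=
    j23 b * P0 ^ 2 - P1 ^ 2 * (1 - j23 a * X 2 ^ 2) with hcP
  have hbne := ev_b_ne b hb x y u hind
  have hcne : cP ≠ 0 := by
    intro h0
    have h1 := congrArg (aeval ![x, y, u]) h0
    have e2 : (![x, y, u] : Fin 3 → Ω) 2 = u := rfl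
    simp only [hcP, map_mul, map_sub, map_pow, map_one, map_zero, ev_j, aeval_X, e2] at h1
    have h2 : aeval ![x, y] b * ((aeval ![x, y, u] P0 + aeval ![x, y, u] P1 * v) *
        (aeval ![x, y, u] P0 + aeval ![x, y, u] (-P1) * v)) = 0 := by
      rw [map_neg]
      linear_combination h1 - (aeval ![x, y, u] P1) ^ 2 * hc
    have h3 : P0 = 0 ∧ P1 = 0 := by
      rcases mul_eq_zero.mp h2 with h4 | h4
      · exact absurd h4 hbne
      · rcases mul_eq_zero.mp h4 with h5 | h5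
        · exact indep_v a b ha hb x y u v hind hc P0 P1 h5
        · have h6 := indep_v a b ha hb x y u v hind hc P0 (-P1) h5
          exact ⟨h6.1, by simpa using h6.2⟩
    have h7 := ev_normal a b x y u v hc n P0 P1 Q P hn
    rw [h3.1, h3.2, map_zero, zero_mul, add_zero] at h7
    rcases mul_eq_zero.mp h7 with h8 | h8
    · exact absurd h8 (pow_ne_zero _ hbne)
    · exact hP h8
  obtain ⟨S, hS, hS2⟩ := spec_finite cP hcne
  refine ⟨S, hS, ?_⟩
  intro e he T u' v' hTu hc' h0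
  apply hS2 e he T u' hTu
  have h7 := ev_normal a b (algebraMap ℂ L2 e) T u' v' hc' n P0 P1 Q P hn
  rw [h0, mul_zero] at h7
  have e2 : (![algebraMap ℂ L2 e, T, u'] : Fin 3 → L2) 2 = u' := rfl
  simp only [hcP, map_mul, map_sub, map_pow, map_one, ev_j, aeval_X, e2]
  set p0 := aeval ![algebraMap ℂ L2 e, T, u'] P0
  set p1 := aeval ![algebraMap ℂ L2 e, T, u'] P1
  set bb := aeval ![algebraMap ℂ L2 e, T] b
  set aa := aeval ![algebraMap ℂ L2 e, T] a
  have h8 : p0 = - (p1 * v') := by linear_combination -h7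
  rw [h8]
  linear_combination p1 ^ 2 * hc'

end U4aux

open U4aux U1aux in
theorem gen_spec {Ω : Type*} [Field Ω] [Algebra ℂ Ω] (a b : R2) (ha : a ≠ 0) (hb : b ≠ 0)
    (x y u v : Ω) (hind : AlgebraicIndependent ℂ ![x, y, u])
    (hc : aeval ![x, y] a * u ^ 2 + aeval ![x, y] b * v ^ 2 = 1)
    (W : Finset (MvPolynomial (Fin 4) ℂ)) (hW : ∀ P ∈ W, aeval ![x, y, u, v] P ≠ 0) :
    ∃ (e : ℂ) (ψ : MvPolynomial (Fin 4) ℂ →ₐ[ℂ] L2),
      (∀ P, aeval ![x, y, u, v] P = 0 → ψ P = 0) ∧ (∀ P ∈ W, ψ P ≠ 0) ∧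
      ψ (X 0) = algebraMap ℂ L2 e ∧ AlgebraicIndependent ℂ ![ψ (X 1), ψ (X 2)] := by
  classical
  obtain ⟨c, hc0, hpt⟩ := exists_point a b ha hb
  have hjb : j23 b ≠ 0 := by
    intro h0
    exact hb (j_inj (by rw [h0, map_zero]))
  obtain ⟨Sb, hSb, hSb2⟩ := spec_finite (j23 b) hjb
  have hch : ∀ P : W, ∃ S : Set ℂ, S.Finite ∧ ∀ e, e ∉ S → ∀ T u' v' : L2,
      AlgebraicIndependent ℂ ![T, u'] →
      aeval ![algebraMap ℂ L2 e, T] a * u' ^ 2 + aeval ![algebraMap ℂ L2 e, T] b * v' ^ 2 = 1 →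
      aeval ![algebraMap ℂ L2 e, T, u', v'] (P : MvPolynomial (Fin 4) ℂ) ≠ 0 := fun P =>
    pair_ne P a b ha hb x y u v hind hc (hW P P.2)
  choose SP hSP hSP2 using hch
  have hroots : {z : ℂ | Polynomial.IsRoot c z}.Finite :=
    Polynomial.finite_setOfPred_isRoot hc0
  have hfin : ({z : ℂ | Polynomial.IsRoot c z} ∪ Sb ∪ ⋃ P : W, SP P).Finite :=
    (hroots.union hSb).union (Set.finite_iUnion hSP)
  obtain ⟨e, he⟩ := hfin.exists_notMem
  have he1 : c.eval e ≠ 0 := by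
    intro h0
    exact he (Or.inl (Or.inl h0))
  have he2 : e ∉ Sb := fun h0 => he (Or.inl (Or.inr h0))
  have he3 : ∀ P : W, e ∉ SP P := fun P h0 => he (Or.inr (Set.mem_iUnion.mpr ⟨P, h0⟩))
  obtain ⟨T, u', v', hTu, hc'⟩ := hpt e he1
  refine ⟨e, aeval ![algebraMap ℂ L2 e, T, u', v'], ?_, ?_, ?_, ?_⟩
  · intro P hP
    obtain ⟨n, P0, P1, Q, hn⟩ := normal_form a b P
    have h1 := ev_normal a b x y u v hc n P0 P1 Q P hn
    rw [hP, mul_zero] at h1
    obtain ⟨h2, h3⟩ := indep_v a b ha hb x y u v hind hc P0 P1 h1.symm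
    have h4 := ev_normal a b (algebraMap ℂ L2 e) T u' v' hc' n P0 P1 Q P hn
    rw [h2, h3, map_zero, zero_mul, add_zero] at h4
    have h5 := hSb2 e he2 T u' hTu
    rw [ev_j] at h5
    rcases mul_eq_zero.mp h4 with h6 | h6
    · exact absurd h6 (pow_ne_zero _ h5)
    · exact h6
  · intro P hP
    exact hSP2 ⟨P, hP⟩ e (he3 ⟨P, hP⟩) T u' v' hTu hc'
  · rw [aeval_X]; rfl
  · rw [aeval_X, aeval_X]; exact hTu

end Pool.Agent.Lib.MP_2095a9_ag.T2
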