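import Pool.Agent.Lib.MP_2095a9_ag.T2.Defs

set_option autoImplicit false

namespace Pool.Agent.Lib.MP_2095a9_ag.T2

open MvPolynomial

namespace U5aux

theorem indep_of_algebraic {E : Type*} [Field E] [Algebra ℂ E] (a b f g : E)
    (hab : AlgebraicIndependent ℂ ![a, b])
    (ha : IsAlgebraic (Algebra.adjoin ℂ ({f, g} : Set E)) a)
    (hb : IsAlgebraic (Algebra.adjoin ℂ ({f, g} : Set E)) b) :
    AlgebraicIndependent ℂ ![f, g] := by
  classical
  set M := AlgebraicIndependent.matroid ℂ E with hM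
  have hcl : ({a, b} : Set E) ⊆ M.closure {f, g} := by
    rw [hM, AlgebraicIndependent.matroid_closure_eq]
    intro x hx
    rw [SetLike.mem_coe, Subalgebra.mem_algebraicClosure]
    rcases hx with rfl | hx
    · exact ha
    · rw [Set.mem_singleton_iff] at hx
      subst hx
      exact hb
  have hne : a ≠ b := by
    intro h
    have := hab.injective (a₁ := (0 : Fin 2)) (a₂ := 1) (by simpa using h)
    exact absurd this (by decide)
  have hr : Set.range ![a, b] = {a, b} := by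
    simp [Matrix.range_cons, Matrix.range_empty, Set.pair_comm]
  have hI : M.Indep {a, b} := by
    rw [hM, AlgebraicIndependent.matroid_indep_iff]
    have := hab.to_subtype_range
    rw [hr] at this
    exact this
  have h2 : (2 : ℕ∞) ≤ M.eRk {f, g} := by
    have h3 : ({a, b} : Set E).encard ≤ M.eRk (M.closure {f, g}) := hI.encard_le_eRk_of_subset hcl
    rw [Set.encard_pair hne, Matroid.eRk_closure_eq] at h3
    exact h3
  have h4 : ({f, g} : Set E).encard ≤ 2 := by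
    refine (Set.encard_insert_le {g} f).trans ?_
    rw [Set.encard_singleton]
    norm_num
  have h5 : M.eRk {f, g} ≤ ({f, g} : Set E).encard := M.eRk_le_encard _
  have hfin : ({f, g} : Set E).Finite := by simp
  have h6 : ({f, g} : Set E).encard = 2 := le_antisymm h4 (h2.trans h5)
  have hfg : f ≠ g := by
    intro h
    rw [h, Set.pair_eq_singleton, Set.encard_singleton] at h6
    exact absurd h6 (by norm_num)
  have hIfg : M.Indep {f, g} := by
    rw [Matroid.indep_iff_eRk_eq_encard_of_finite hfin]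
    exact le_antisymm h5 (h6.le.trans h2)
  rw [hM, AlgebraicIndependent.matroid_indep_iff] at hIfg
  have hr2 : Set.range ![f, g] = {f, g} := by
    simp [Matrix.range_cons, Matrix.range_empty, Set.pair_comm]
  refine AlgebraicIndependent.of_subtype_range ?_ ?_
  · intro i j hij
    fin_cases i <;> fin_cases j <;> simp_all
  · rw [hr2]
    exact hIfg

/-- clearing denominators in `G(g i / d)` -/
noncomputable def hom {ι : Type} [Fintype ι] (g : ι → MvPolynomial (Fin 4) ℂ)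
    (d : MvPolynomial (Fin 4) ℂ) (G : MvPolynomial ι ℂ) : MvPolynomial (Fin 4) ℂ :=
  ∑ m ∈ G.support, C (G.coeff m) * (d ^ (G.totalDegree - ∑ i, m i) * ∏ i, g i ^ m i)

theorem hom_spec {ι : Type} [Fintype ι] (g : ι → MvPolynomial (Fin 4) ℂ)
    (d : MvPolynomial (Fin 4) ℂ) (G : MvPolynomial ι ℂ) {E : Type*} [Field E] [Algebra ℂ E]
    (φ : MvPolynomial (Fin 4) ℂ →ₐ[ℂ] E) (hd : φ d ≠ 0) :
    φ (hom g d G) = φ d ^ G.totalDegree * aeval (fun i => φ (g i) / φ d) G := by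
  rw [hom, aeval_def, eval₂_eq', map_sum, Finset.mul_sum]
  refine Finset.sum_congr rfl fun m hm => ?_
  have hdeg : ∑ i, m i ≤ G.totalDegree := by
    have := le_totalDegree hm
    rwa [Finsupp.sum_fintype _ _ (fun _ => rfl)] at this
  have hC : φ (C (G.coeff m)) = algebraMap ℂ E (G.coeff m) := by
    rw [← MvPolynomial.algebraMap_eq, AlgHom.commutes]
  rw [map_mul, map_mul, hC, map_pow, map_prod]
  simp only [map_pow, div_pow]
  rw [Finset.prod_div_distrib, Finset.prod_pow_eq_pow_sum]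
  have : φ d ^ G.totalDegree = φ d ^ (G.totalDegree - ∑ i, m i) * φ d ^ (∑ i, m i) := by
    rw [← pow_add, Nat.sub_add_cancel hdeg]
  rw [this]
  field_simp

/-- the algebraic core: an algebraic relation of `w` over `f, g` is preserved. -/
theorem core {Ω : Type*} [Field Ω] [Algebra ℂ Ω] (ξ : Fin 4 → Ω) (j : Fin 4)
    (n1 n2 d : MvPolynomial (Fin 4) ℂ) (hd : aeval ξ d ≠ 0)
    (hind : AlgebraicIndependent ℂ ![ξ 0, aeval ξ n1 / aeval ξ d, aeval ξ n2 / aeval ξ d])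
    (h1 : ¬ AlgebraicIndependent ℂ
      ![ξ 0, aeval ξ n1 / aeval ξ d, aeval ξ n2 / aeval ξ d, ξ j]) :
    ∃ Q : MvPolynomial (Fin 4) ℂ, aeval ξ Q ≠ 0 ∧
      ∀ (e : ℂ) (ψ : MvPolynomial (Fin 4) ℂ →ₐ[ℂ] L2), (∀ P, aeval ξ P = 0 → ψ P = 0) →
        ψ d ≠ 0 → ψ Q ≠ 0 → ψ (X 0) = algebraMap ℂ L2 e →
        IsAlgebraic (Algebra.adjoin ℂ ({ψ n1 / ψ d, ψ n2 / ψ d} : Set L2)) (ψ (X j)) := by
  classical
  -- a relation with the last variable put first
  have hperm : ¬ AlgebraicIndependent ℂ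
      ![ξ j, ξ 0, aeval ξ n1 / aeval ξ d, aeval ξ n2 / aeval ξ d] := by
    intro h
    apply h1
    have h' := h.comp ![1, 2, 3, 0] (by decide)
    have : (![ξ j, ξ 0, aeval ξ n1 / aeval ξ d, aeval ξ n2 / aeval ξ d] ∘ ![1, 2, 3, 0]) =
        ![ξ 0, aeval ξ n1 / aeval ξ d, aeval ξ n2 / aeval ξ d, ξ j] := by
      funext i
      fin_cases i <;> rfl
    rwa [this] at h'
  rw [algebraicIndependent_iff] at hperm
  push Not at hperm
  obtain ⟨G, hG0, hGne⟩ := hperm
  set H := finSuccEquiv ℂ 3 G with hH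
  have hHne : H ≠ 0 := by
    rw [hH]
    exact (map_ne_zero_iff _ (finSuccEquiv ℂ 3).injective).mpr hGne
  obtain ⟨k, hk⟩ : ∃ k, H.coeff k ≠ 0 := by
    by_contra hcon
    push Not at hcon
    exact hHne (Polynomial.ext (by simpa using hcon))
  set f : Fin 3 → Ω := ![ξ 0, aeval ξ n1 / aeval ξ d, aeval ξ n2 / aeval ξ d] with hf
  have hkne : aeval f (H.coeff k) ≠ 0 := fun h0 =>
    hk ((algebraicIndependent_iff.mp hind) _ h0)
  set g3 : Fin 3 → MvPolynomial (Fin 4) ℂ := ![X 0 * d, n1, n2] with hg3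
  set g4 : Fin 4 → MvPolynomial (Fin 4) ℂ := ![X j * d, X 0 * d, n1, n2] with hg4
  have ev3 : (fun i => aeval ξ (g3 i) / aeval ξ d) = f := by
    funext i
    fin_cases i
    · simp [hg3, hf, hd]
    · simp [hg3, hf]
    · simp [hg3, hf]
  have ev4 : (fun i => aeval ξ (g4 i) / aeval ξ d) =
      ![ξ j, ξ 0, aeval ξ n1 / aeval ξ d, aeval ξ n2 / aeval ξ d] := by
    funext i
    fin_cases i
    · simp [hg4, hd]
    · simp [hg4, hd]
    · simp [hg4]
    · simp [hg4]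
  refine ⟨hom g3 d (H.coeff k), ?_, ?_⟩
  · rw [hom_spec g3 d _ (aeval ξ) hd, ev3]
    exact mul_ne_zero (pow_ne_zero _ hd) hkne
  intro e ψ hker hψd hψQ hψ0
  have hR : ψ (hom g4 d G) = 0 := by
    apply hker
    rw [hom_spec g4 d G (aeval ξ) hd, ev4, hG0, mul_zero]
  rw [hom_spec g4 d G ψ hψd] at hR
  have hR' := (mul_eq_zero.mp hR).resolve_left (pow_ne_zero _ hψd)
  rw [hom_spec g3 d _ ψ hψd] at hψQ
  have hQ' := (mul_ne_zero_iff.mp hψQ).2
  set f' : Fin 3 → L2 := fun i => ψ (g3 i) / ψ d with hf'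
  have e4 : (fun i => ψ (g4 i) / ψ d) = Fin.cons (ψ (X j)) f' := by
    funext i
    fin_cases i
    · simp [hg4, hψd]
    · show ψ (g4 1) / ψ d = f' 0
      simp [hg4, hf', hg3]
    · show ψ (g4 2) / ψ d = f' 1
      simp [hg4, hf', hg3]
    · show ψ (g4 3) / ψ d = f' 2
      simp [hg4, hf', hg3]
  rw [e4] at hR'
  -- the subalgebra
  set A := Algebra.adjoin ℂ ({ψ n1 / ψ d, ψ n2 / ψ d} : Set L2) with hA
  have hmem : ∀ i, f' i ∈ A := by
    intro i
    fin_cases i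
    · have : f' 0 = algebraMap ℂ L2 e := by
        simp [hf', hg3, hψd, hψ0]
      show f' 0 ∈ A
      rw [this]
      exact A.algebraMap_mem e
    · show f' 1 ∈ A
      have : f' 1 = ψ n1 / ψ d := by simp [hf', hg3]
      rw [this]
      exact Algebra.subset_adjoin (by simp)
    · show f' 2 ∈ A
      have : f' 2 = ψ n2 / ψ d := by simp [hf', hg3]
      rw [this]
      exact Algebra.subset_adjoin (by simp)
  set fA : Fin 3 → A := fun i => ⟨f' i, hmem i⟩ with hfA
  have hcomp : ∀ P : MvPolynomial (Fin 3) ℂ,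
      algebraMap A L2 (aeval fA P) = aeval f' P := by
    intro P
    have : ((IsScalarTower.toAlgHom ℂ A L2).comp (aeval fA)) = aeval f' := by
      apply MvPolynomial.algHom_ext
      intro i
      simp [hfA]
    exact DFunLike.congr_fun this P
  refine ⟨H.map (aeval fA : MvPolynomial (Fin 3) ℂ →ₐ[ℂ] A).toRingHom, ?_, ?_⟩
  · intro h0
    have := congrArg (fun p => p.coeff k) h0
    simp only [Polynomial.coeff_map, Polynomial.coeff_zero] at this
    apply hQ'
    rw [← hcomp]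
    have h' : (aeval fA) (H.coeff k) = 0 := this
    rw [h', map_zero]
  · rw [Polynomial.aeval_def, Polynomial.eval₂_map]
    have hh : (algebraMap A L2).comp (aeval fA : MvPolynomial (Fin 3) ℂ →ₐ[ℂ] A).toRingHom =
        (aeval f' : MvPolynomial (Fin 3) ℂ →ₐ[ℂ] L2).toRingHom := by
      apply RingHom.ext
      intro P
      exact hcomp P
    rw [hh]
    have hΦ : (Polynomial.eval₂RingHom (aeval f' : MvPolynomial (Fin 3) ℂ →ₐ[ℂ] L2).toRingHom
        (ψ (X j))).comp ((finSuccEquiv ℂ 3 : MvPolynomial (Fin 4) ℂ ≃ₐ[ℂ] _) :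
          MvPolynomial (Fin 4) ℂ →+* Polynomial (MvPolynomial (Fin 3) ℂ)) =
        (aeval (Fin.cons (ψ (X j)) f' : Fin 4 → L2) : MvPolynomial (Fin 4) ℂ →ₐ[ℂ] L2).toRingHom := by
      apply MvPolynomial.ringHom_ext
      · intro r
        simp [finSuccEquiv_apply]
      · intro i
        refine Fin.cases ?_ (fun i => ?_) i
        · simp [finSuccEquiv_X_zero]
        · simp [finSuccEquiv_X_succ]
    have h9 := RingHom.congr_fun hΦ G
    exact h9.trans hR'

end U5aux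

theorem spec_indep {Ω : Type*} [Field Ω] [Algebra ℂ Ω] (ξ : Fin 4 → Ω)
    (n1 n2 d : MvPolynomial (Fin 4) ℂ) (hd : aeval ξ d ≠ 0)
    (hind : AlgebraicIndependent ℂ ![ξ 0, aeval ξ n1 / aeval ξ d, aeval ξ n2 / aeval ξ d])
    (h1 : ¬ AlgebraicIndependent ℂ
      ![ξ 0, aeval ξ n1 / aeval ξ d, aeval ξ n2 / aeval ξ d, ξ 1])
    (h2 : ¬ AlgebraicIndependent ℂ
      ![ξ 0, aeval ξ n1 / aeval ξ d, aeval ξ n2 / aeval ξ d, ξ 2]) :
    ∃ W : Finset (MvPolynomial (Fin 4) ℂ), (∀ P ∈ W, aeval ξ P ≠ 0) ∧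
      ∀ (e : ℂ) (ψ : MvPolynomial (Fin 4) ℂ →ₐ[ℂ] L2), (∀ P, aeval ξ P = 0 → ψ P = 0) →
        (∀ P ∈ W, ψ P ≠ 0) → ψ (X 0) = algebraMap ℂ L2 e →
        AlgebraicIndependent ℂ ![ψ (X 1), ψ (X 2)] →
        ψ d ≠ 0 ∧ AlgebraicIndependent ℂ ![ψ n1 / ψ d, ψ n2 / ψ d] := by
  classical
  obtain ⟨Q1, hQ1, H1⟩ := U5aux.core ξ 1 n1 n2 d hd hind h1
  obtain ⟨Q2, hQ2, H2⟩ := U5aux.core ξ 2 n1 n2 d hd hind h2
  refine ⟨{d, Q1, Q2}, ?_, ?_⟩
  · intro P hP
    simp only [Finset.mem_insert, Finset.mem_singleton] at hP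
    rcases hP with rfl | rfl | rfl
    · exact hd
    · exact hQ1
    · exact hQ2
  intro e ψ hker hW hψ0 hXY
  have hψd : ψ d ≠ 0 := hW d (by simp)
  have hψ1 : ψ Q1 ≠ 0 := hW Q1 (by simp)
  have hψ2 : ψ Q2 ≠ 0 := hW Q2 (by simp)
  exact ⟨hψd, U5aux.indep_of_algebraic _ _ _ _ hXY (H1 e ψ hker hψd hψ1 hψ0)
    (H2 e ψ hker hψd hψ2 hψ0)⟩

end Pool.Agent.Lib.MP_2095a9_ag.T2
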