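import Pool.Agent.Lib.MP_2095a9_ag.T2.Defs
import Pool.Agent.Lib.MP_2095a9_ag.T2.U4
import Pool.Agent.Lib.MP_2095a9_ag.T2.U5

set_option autoImplicit false

/-!
MP_2095a9_ag, module U9: specialisation half of the criterion U.
-/

namespace Pool.Agent.Lib.MP_2095a9_ag.T2

open MvPolynomial

namespace U9aux

/-- clearing denominators in a polynomial expression of fractions with the same denominator -/
theorem clear {ι : Type} (d : MvPolynomial (Fin 4) ℂ) (n : ι → MvPolynomial (Fin 4) ℂ)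
    (G : MvPolynomial ι ℂ) :
    ∃ (N : ℕ) (H : MvPolynomial (Fin 4) ℂ), ∀ (E : Type) [Field E] [Algebra ℂ E]
      (φ : MvPolynomial (Fin 4) ℂ →ₐ[ℂ] E), φ d ≠ 0 →
        φ H = φ d ^ N * aeval (fun i => φ (n i) / φ d) G := by
  induction G using MvPolynomial.induction_on with
  | C r =>
    refine ⟨0, C r, fun E _ _ φ hφ => ?_⟩
    rw [pow_zero, one_mul, aeval_C, ← algebraMap_eq, AlgHom.commutes]
  | add p q hp hq =>
    obtain ⟨N1, H1, h1⟩ := hp
    obtain ⟨N2, H2, h2⟩ := hq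
    refine ⟨N1 + N2, d ^ N2 * H1 + d ^ N1 * H2, fun E _ _ φ hφ => ?_⟩
    rw [map_add, map_mul, map_mul, map_pow, map_pow, h1 E φ hφ, h2 E φ hφ, map_add, pow_add]
    ring
  | mul_X p i hp =>
    obtain ⟨N, H, h⟩ := hp
    refine ⟨N + 1, H * n i, fun E _ _ φ hφ => ?_⟩
    rw [map_mul, h E φ hφ, map_mul, aeval_X, pow_succ]
    field_simp

/-- a polynomial relation between fractions survives a specialisation -/
theorem transfer {ι : Type} {Ω L : Type} [Field Ω] [Algebra ℂ Ω] [Field L] [Algebra ℂ L]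
    (d : MvPolynomial (Fin 4) ℂ) (n : ι → MvPolynomial (Fin 4) ℂ)
    (φ : MvPolynomial (Fin 4) ℂ →ₐ[ℂ] Ω) (ψ : MvPolynomial (Fin 4) ℂ →ₐ[ℂ] L)
    (hφψ : ∀ P, φ P = 0 → ψ P = 0) (hφ : φ d ≠ 0) (hψ : ψ d ≠ 0) (G : MvPolynomial ι ℂ)
    (h : aeval (fun i => φ (n i) / φ d) G = 0) : aeval (fun i => ψ (n i) / ψ d) G = 0 := by
  obtain ⟨N, H, hH⟩ := clear d n G
  have h1 := hH Ω φ hφ
  rw [h, mul_zero] at h1
  have h2 := hH L ψ hψ
  rw [hφψ H h1] at h2
  rcases mul_eq_zero.1 h2.symm with h3 | h3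
  · exact absurd h3 (pow_ne_zero _ hψ)
  · exact h3

/-- common denominator of the entries -/
theorem exists_den (S : Matrix (Fin 3) (Fin 3) K2) :
    ∃ (D : R2) (M : Fin 3 → Fin 3 → R2), D ≠ 0 ∧
      ∀ i j, S i j * algebraMap R2 K2 D = algebraMap R2 K2 (M i j) := by
  obtain ⟨⟨D, hD⟩, hD'⟩ := IsLocalization.exist_integer_multiples_of_finite
    (nonZeroDivisors R2) (fun q : Fin 3 × Fin 3 => S q.1 q.2)
  choose M hM using hD'
  refine ⟨D, fun i j => M (i, j), nonZeroDivisors.ne_zero hD, fun i j => ?_⟩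
  rw [hM (i, j), Algebra.smul_def, mul_comm]

end U9aux

theorem critU_half {Ω : Type} [Field Ω] [Algebra ℂ Ω] (a b : R2) (ha : a ≠ 0) (hb : b ≠ 0)
    (x y u v : Ω) (hind : AlgebraicIndependent ℂ ![x, y, u])
    (hc : aeval ![x, y] a * u ^ 2 + aeval ![x, y] b * v ^ 2 = 1)
    (hgen : ∀ w : Ω, ∃ p q : MvPolynomial (Fin 4) ℂ, aeval ![x, y, u, v] q ≠ 0 ∧
      w * aeval ![x, y, u, v] q = aeval ![x, y, u, v] p)
    (hdep : ∀ g : Fin 4 → Ω, ¬ AlgebraicIndependent ℂ g)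
    (S : Matrix (Fin 3) (Fin 3) K2) (σ : K2 →ₐ[ℂ] Ω)
    (hσ : AlgebraicIndependent ℂ
      ![x, σ (algebraMap R2 K2 (X 0)), σ (algebraMap R2 K2 (X 1))])
    (z : Fin 3 → Ω) (hz : z ≠ 0) (h : qf (S.map σ) z = 0) : Dom S := by
  classical
  set φ : MvPolynomial (Fin 4) ℂ →ₐ[ℂ] Ω := aeval ![x, y, u, v] with hφdef
  -- the elements to be written as fractions
  set w : Fin 2 ⊕ Fin 3 → Ω :=
    Sum.elim ![σ (algebraMap R2 K2 (X 0)), σ (algebraMap R2 K2 (X 1))] z with hw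
  choose P Q hQ hPQ using fun i => hgen (w i)
  set d : MvPolynomial (Fin 4) ℂ := ∏ i, Q i with hd
  set m : Fin 2 ⊕ Fin 3 → MvPolynomial (Fin 4) ℂ :=
    fun i => P i * ∏ j ∈ Finset.univ.erase i, Q j with hm
  have hφd : φ d ≠ 0 := by
    rw [hd, map_prod]
    exact Finset.prod_ne_zero_iff.2 fun i _ => hQ i
  have hfrac : ∀ i, φ (m i) / φ d = w i := by
    intro i
    rw [div_eq_iff hφd, hd, hm, map_mul, ← hPQ i, ← Finset.mul_prod_erase Finset.univ Q
      (Finset.mem_univ i), map_mul]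
    ring
  obtain ⟨k, hk⟩ : ∃ k, z k ≠ 0 := by
    by_contra hcon
    push Not at hcon
    exact hz (funext hcon)
  have hw0 : w (Sum.inl 0) = σ (algebraMap R2 K2 (X 0)) := rfl
  have hw1 : w (Sum.inl 1) = σ (algebraMap R2 K2 (X 1)) := rfl
  have hwr : ∀ i, w (Sum.inr i) = z i := fun i => rfl
  have hmk : φ (m (Sum.inr k)) ≠ 0 := by
    intro h0
    have h1 := hfrac (Sum.inr k)
    rw [h0, zero_div, hwr] at h1
    exact hk h1.symm
  obtain ⟨W, hW, hWs⟩ := spec_indep ![x, y, u, v] (m (Sum.inl 0)) (m (Sum.inl 1)) d hφd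
    (by
      have e1 := hfrac (Sum.inl 0)
      have e2 := hfrac (Sum.inl 1)
      rw [hφdef] at e1 e2
      rw [e1, e2, hw0, hw1]
      exact hσ) (hdep _) (hdep _)
  obtain ⟨e, ψ, hker, hne, hψ0, hψ12⟩ := gen_spec a b ha hb x y u v hind hc
    (insert (m (Sum.inr k)) W) (by
      intro R hR
      rcases Finset.mem_insert.1 hR with rfl | hR
      · exact hmk
      · exact hW R hR)
  obtain ⟨hψd, hAI⟩ := hWs e ψ hker (fun R hR => hne R (Finset.mem_insert_of_mem hR)) hψ0 hψ12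
  have hψk : ψ (m (Sum.inr k)) ≠ 0 := hne _ (Finset.mem_insert_self _ _)
  set f1 := ψ (m (Sum.inl 0)) / ψ d with hf1
  set f2 := ψ (m (Sum.inl 1)) / ψ d with hf2
  have hinj : Function.Injective (aeval ![f1, f2] : R2 →ₐ[ℂ] L2) := hAI
  let τ : K2 →ₐ[ℂ] L2 := IsFractionRing.liftAlgHom (g := (aeval ![f1, f2] : R2 →ₐ[ℂ] L2)) hinj
  have hτ : ∀ g : R2, τ (algebraMap R2 K2 g) = aeval ![f1, f2] g := fun g =>
    IsFractionRing.lift_algebraMap hinj g
  refine ⟨τ, fun i => ψ (m (Sum.inr i)) / ψ d, ?_, ?_⟩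
  · intro h0
    have h1 := congrFun h0 k
    simp only [Pi.zero_apply] at h1
    rcases div_eq_zero_iff.1 h1 with h2 | h2
    · exact hψk h2
    · exact hψd h2
  · obtain ⟨D, M, hD, hM⟩ := U9aux.exists_den S
    set G : MvPolynomial (Fin 2 ⊕ Fin 3) ℂ :=
      ∑ i, ∑ j, rename Sum.inl (M i j) * (X (Sum.inr i) * X (Sum.inr j)) with hG
    have hσe : ∀ g : R2, σ (algebraMap R2 K2 g) =
        aeval ![σ (algebraMap R2 K2 (X 0)), σ (algebraMap R2 K2 (X 1))] g := by
      intro g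
      have h1 : (σ.comp (IsScalarTower.toAlgHom ℂ R2 K2)) =
          aeval ![σ (algebraMap R2 K2 (X 0)), σ (algebraMap R2 K2 (X 1))] := by
        refine MvPolynomial.algHom_ext fun i => ?_
        fin_cases i <;> simp
      have h2 := congrArg (fun F : R2 →ₐ[ℂ] Ω => F g) h1
      exact h2
    have hφG : aeval (fun i => φ (m i) / φ d) G = 0 := by
      have e0 : (fun i => φ (m i) / φ d) = w := funext hfrac
      rw [e0, hG]
      simp only [map_sum, map_mul, aeval_X, aeval_rename, hwr]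
      have e1 : w ∘ Sum.inl = ![σ (algebraMap R2 K2 (X 0)), σ (algebraMap R2 K2 (X 1))] := rfl
      rw [e1]
      have e2 : ∀ i j, aeval ![σ (algebraMap R2 K2 (X 0)), σ (algebraMap R2 K2 (X 1))] (M i j) =
          σ (S i j) * σ (algebraMap R2 K2 D) := by
        intro i j
        rw [← hσe, ← hM, map_mul]
      have e3 : (∑ i, ∑ j, aeval ![σ (algebraMap R2 K2 (X 0)), σ (algebraMap R2 K2 (X 1))]
          (M i j) * (z i * z j)) = σ (algebraMap R2 K2 D) * qf (S.map σ) z := by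
        rw [qf, Finset.mul_sum]
        refine Finset.sum_congr rfl fun i _ => ?_
        rw [Finset.mul_sum]
        refine Finset.sum_congr rfl fun j _ => ?_
        rw [e2, Matrix.map_apply]
        ring
      rw [e3, h, mul_zero]
    have hψG := U9aux.transfer d m φ ψ hker hφd hψd G hφG
    rw [hG] at hψG
    simp only [map_sum, map_mul, aeval_X, aeval_rename] at hψG
    have e1 : (fun i => ψ (m i) / ψ d) ∘ Sum.inl = ![f1, f2] := by
      funext i
      fin_cases i <;> rfl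
    rw [e1] at hψG
    have hτD : τ (algebraMap R2 K2 D) ≠ 0 := by
      intro h0
      rw [map_eq_zero_iff τ τ.toRingHom.injective] at h0
      exact hD ((map_eq_zero_iff _ (IsFractionRing.injective R2 K2)).1 h0)
    have e3 : (∑ i, ∑ j, aeval ![f1, f2] (M i j) * (ψ (m (Sum.inr i)) / ψ d *
        (ψ (m (Sum.inr j)) / ψ d))) =
        τ (algebraMap R2 K2 D) * qf (S.map τ) (fun i => ψ (m (Sum.inr i)) / ψ d) := by
      rw [qf, Finset.mul_sum]
      refine Finset.sum_congr rfl fun i _ => ?_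
      rw [Finset.mul_sum]
      refine Finset.sum_congr rfl fun j _ => ?_
      rw [← hτ, ← hM, map_mul, Matrix.map_apply]
      ring
    rw [e3] at hψG
    exact (mul_eq_zero.1 hψG).resolve_left hτD

end Pool.Agent.Lib.MP_2095a9_ag.T2
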