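import Pool.Agent.Lib.MP_2095a9_ag.T2.Defs
import Pool.Agent.Lib.MP_2095a9_ag.T2.U6
import Pool.Agent.Lib.MP_2095a9_ag.T2.U7
import Pool.Agent.Lib.MP_2095a9_ag.T2.U8
import Pool.Agent.Lib.MP_2095a9_ag.T2.U9

set_option autoImplicit false

/-!
MP_2095a9_ag, theorem U, module U10: the criterion.
-/

namespace Pool.Agent.Lib.MP_2095a9_ag.T2

open MvPolynomial

namespace U10aux

/-- every element of `ℂ(x,y)` becomes a polynomial after multiplication by a square -/
theorem clear_sq (a : K2) (ha : a ≠ 0) :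
    ∃ (d : R2) (a' : R2), d ≠ 0 ∧ a' ≠ 0 ∧ algebraMap R2 K2 a' = a * algebraMap R2 K2 d ^ 2 := by
  obtain ⟨n, d, hd, rfl⟩ := IsFractionRing.div_surjective (A := R2) a
  have hd0 : d ≠ 0 := nonZeroDivisors.ne_zero hd
  have hdK : algebraMap R2 K2 d ≠ 0 := by
    intro h
    exact hd0 ((IsFractionRing.injective R2 K2) (by rw [h, map_zero]))
  have hn0 : n ≠ 0 := by
    rintro rfl
    exact ha (by rw [map_zero, zero_div])
  refine ⟨d, n * d, hd0, mul_ne_zero hn0 hd0, ?_⟩
  rw [map_mul]
  field_simp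

variable {Ω : Type} [Field Ω] [Algebra ℂ Ω] [Algebra K2 Ω] [IsScalarTower ℂ K2 Ω]

theorem aeval_co (P : R2) :
    aeval ![co Ω 0, co Ω 1] P = algebraMap K2 Ω (algebraMap R2 K2 P) := by
  have e : (aeval ![co Ω 0, co Ω 1] : R2 →ₐ[ℂ] Ω)
      = (IsScalarTower.toAlgHom ℂ K2 Ω).comp (IsScalarTower.toAlgHom ℂ R2 K2) := by
    refine MvPolynomial.algHom_ext fun i => ?_
    fin_cases i <;> simp [co]
  rw [e]
  rfl

/-- generation of the function field as fractions of polynomials in four elements -/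
theorem gen_frac (a b : K2) (u v : Ω) (hΩ : IsConicField a b u v)
    (L : IntermediateField ℂ Ω) (h0 : co Ω 0 ∈ L) (h1 : co Ω 1 ∈ L) (hu : u ∈ L) (hv : v ∈ L)
    (w : Ω) : w ∈ L := by
  have hR : ∀ P : R2, algebraMap K2 Ω (algebraMap R2 K2 P) ∈ L := by
    intro P
    rw [← aeval_co]
    induction P using MvPolynomial.induction_on with
    | C r =>
      rw [← MvPolynomial.algebraMap_eq, AlgHom.commutes]
      exact L.algebraMap_mem r
    | add p q hp hq =>
      rw [map_add]
      exact L.add_mem hp hq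
    | mul_X p i hp =>
      rw [map_mul, aeval_X]
      refine L.mul_mem hp ?_
      fin_cases i
      · exact h0
      · exact h1
  have hK : ∀ k : K2, algebraMap K2 Ω k ∈ L := by
    intro k
    obtain ⟨n, d, _, rfl⟩ := IsFractionRing.div_surjective (A := R2) k
    rw [map_div₀]
    exact L.div_mem (hR n) (hR d)
  have hP : ∀ p : Polynomial K2, Polynomial.aeval u p ∈ L := by
    intro p
    rw [Polynomial.aeval_eq_sum_range]
    refine L.sum_mem fun i _ => ?_
    rw [Algebra.smul_def]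
    exact L.mul_mem (hK _) (pow_mem hu i)
  obtain ⟨p, q, r, hr, hw⟩ := hΩ.gen w
  have hr0 : Polynomial.aeval u r ≠ 0 := by
    intro h
    exact hΩ.trans ⟨r, hr, h⟩
  rw [← eq_div_iff hr0] at hw
  rw [hw]
  exact L.div_mem (L.add_mem (hP p) (L.mul_mem (hP q) hv)) (hP r)

end U10aux

open U10aux in
theorem critU {Ω : Type} [Field Ω] [Algebra ℂ Ω] [Algebra K2 Ω] [IsScalarTower ℂ K2 Ω]
    (a b : K2) (ha : a ≠ 0) (hb : b ≠ 0) (u v : Ω) (hΩ : IsConicField a b u v)
    (S : Matrix (Fin 3) (Fin 3) K2) (σ : K2 →ₐ[ℂ] Ω)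
    (hσ : ∃ r, σ r ∉ Set.range (algebraMap K2 Ω))
    (z : Fin 3 → Ω) (hz : z ≠ 0) (h : qf (S.map σ) z = 0) : Dom S := by
  obtain ⟨d, a', hd, ha', hda⟩ := clear_sq a ha
  obtain ⟨d', b', hd', hb', hdb⟩ := clear_sq b hb
  have hiK : Function.Injective (algebraMap K2 Ω) := (algebraMap K2 Ω).injective
  have hne : ∀ e : R2, e ≠ 0 → algebraMap K2 Ω (algebraMap R2 K2 e) ≠ 0 := by
    intro e he h0
    apply he
    apply IsFractionRing.injective R2 K2
    apply hiK
    rw [h0, map_zero, map_zero]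
  set δ : Ω := algebraMap K2 Ω (algebraMap R2 K2 d) with hδ
  set δ' : Ω := algebraMap K2 Ω (algebraMap R2 K2 d') with hδ'
  have hδ0 : δ ≠ 0 := hne d hd
  have hδ0' : δ' ≠ 0 := hne d' hd'
  set U : Ω := u / δ with hU
  set W : Ω := v / δ' with hW
  have hcon : aeval ![co Ω 0, co Ω 1] a' * U ^ 2 + aeval ![co Ω 0, co Ω 1] b' * W ^ 2 = 1 := by
    rw [aeval_co, aeval_co, hda, hdb, map_mul, map_mul, map_pow, map_pow, ← hδ, ← hδ', hU, hW,
      ← hΩ.conic]
    field_simp
  -- transcendence of `U`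
  have hUtr : Transcendental K2 U := by
    intro hal
    apply hΩ.trans
    have e : u = U * δ := by
      rw [hU]
      field_simp
    rw [e]
    exact hal.mul (isAlgebraic_algebraMap _)
  have hindU : AlgebraicIndependent ℂ ![co Ω 0, co Ω 1, U] := conic_indep U hUtr
  -- the two elements `f1, f2`
  set f1 : Ω := σ (algebraMap R2 K2 (X 0)) with hf1
  set f2 : Ω := σ (algebraMap R2 K2 (X 1)) with hf2
  have hσR : ∀ P : R2, σ (algebraMap R2 K2 P) = aeval ![f1, f2] P := by
    intro P
    have e : (aeval ![f1, f2] : R2 →ₐ[ℂ] Ω) = σ.comp (IsScalarTower.toAlgHom ℂ R2 K2) := by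
      refine MvPolynomial.algHom_ext fun i => ?_
      fin_cases i <;> simp [hf1, hf2]
    rw [e]
    rfl
  have hf : AlgebraicIndependent ℂ ![f1, f2] := by
    change Function.Injective (aeval ![f1, f2] : R2 →ₐ[ℂ] Ω)
    intro P Q hPQ
    have h1 : σ (algebraMap R2 K2 P) = σ (algebraMap R2 K2 Q) := by
      rw [hσR, hσR]
      exact hPQ
    exact IsFractionRing.injective R2 K2 (σ.toRingHom.injective h1)
  -- not both are in the range
  have hnot : ¬ (f1 ∈ Set.range (algebraMap K2 Ω) ∧ f2 ∈ Set.range (algebraMap K2 Ω)) := by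
    rintro ⟨⟨α, hα⟩, ⟨β, hβ⟩⟩
    obtain ⟨r, hr⟩ := hσ
    apply hr
    have hR : ∀ P : R2, σ (algebraMap R2 K2 P) ∈ (algebraMap K2 Ω).fieldRange := by
      intro P
      rw [hσR]
      induction P using MvPolynomial.induction_on with
      | C r =>
        rw [← MvPolynomial.algebraMap_eq, AlgHom.commutes]
        exact ⟨algebraMap ℂ K2 r, by rw [← IsScalarTower.algebraMap_apply]⟩
      | add p q hp hq =>
        rw [map_add]
        exact add_mem hp hq
      | mul_X p i hp =>
        rw [map_mul, aeval_X]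
        refine mul_mem hp ?_
        fin_cases i
        · exact ⟨α, hα⟩
        · exact ⟨β, hβ⟩
    obtain ⟨n, e, _, rfl⟩ := IsFractionRing.div_surjective (A := R2) r
    have h3 : σ (algebraMap R2 K2 n / algebraMap R2 K2 e) ∈ (algebraMap K2 Ω).fieldRange := by
      rw [map_div₀]
      exact div_mem (hR n) (hR e)
    exact h3
  have hdep : ∀ g : Fin 4 → Ω, ¬ AlgebraicIndependent ℂ g := conic_dep a b ha hb u v hΩ
  have hxy : AlgebraicIndependent ℂ ![co Ω 0, co Ω 1] := by
    change Function.Injective (aeval ![co Ω 0, co Ω 1] : R2 →ₐ[ℂ] Ω)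
    intro P Q hPQ
    rw [aeval_co, aeval_co] at hPQ
    exact IsFractionRing.injective R2 K2 (hiK hPQ)
  -- the generation statement
  have hgen : ∀ (L : IntermediateField ℂ Ω), co Ω 0 ∈ L → co Ω 1 ∈ L → U ∈ L → W ∈ L →
      ∀ w : Ω, w ∈ L := by
    intro L h0 h1 hUL hWL w
    have hRL : ∀ P : R2, algebraMap K2 Ω (algebraMap R2 K2 P) ∈ L := by
      intro P
      rw [← aeval_co]
      induction P using MvPolynomial.induction_on with
      | C r =>
        rw [← MvPolynomial.algebraMap_eq, AlgHom.commutes]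
        exact L.algebraMap_mem r
      | add p q hp hq =>
        rw [map_add]
        exact L.add_mem hp hq
      | mul_X p i hp =>
        rw [map_mul, aeval_X]
        refine L.mul_mem hp ?_
        fin_cases i
        · exact h0
        · exact h1
    refine gen_frac a b u v hΩ L h0 h1 ?_ ?_ w
    · have e : u = U * δ := by
        rw [hU]
        field_simp
      rw [e]
      exact L.mul_mem hUL (hRL d)
    · have e : v = W * δ' := by
        rw [hW]
        field_simp
      rw [e]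
      exact L.mul_mem hWL (hRL d')
  have hfrac : ∀ g : Fin 4 → Ω, (∀ w : Ω, w ∈ IntermediateField.adjoin ℂ (Set.range g)) →
      ∀ w : Ω, ∃ p q : MvPolynomial (Fin 4) ℂ, aeval g q ≠ 0 ∧ w * aeval g q = aeval g p := by
    intro g hg w
    obtain ⟨r, s, hrs⟩ := (IntermediateField.mem_adjoin_range_iff ℂ g w).1 (hg w)
    by_cases hs : aeval g s = 0
    · refine ⟨0, 1, by simp, ?_⟩
      rw [hrs, hs, div_zero]
      simp
    · refine ⟨r, s, hs, ?_⟩
      rw [hrs]
      field_simp
  have hcase : AlgebraicIndependent ℂ ![co Ω 0, f1, f2] ∨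
      AlgebraicIndependent ℂ ![co Ω 1, f1, f2] := by
    by_contra hcon
    push Not at hcon
    obtain ⟨h3, h4⟩ := exchange (co Ω 0) (co Ω 1) f1 f2 hxy hf hcon.1 hcon.2
    exact hnot ⟨conic_kcl a b ha hb u v hΩ f1 (conic_alg f1 h3),
      conic_kcl a b ha hb u v hΩ f2 (conic_alg f2 h4)⟩
  rcases hcase with hc | hc
  · refine critU_half a' b' ha' hb' (co Ω 0) (co Ω 1) U W hindU hcon ?_ hdep S σ hc z hz h
    refine hfrac _ (hgen _ ?_ ?_ ?_ ?_)
    · exact IntermediateField.subset_adjoin _ _ ⟨0, rfl⟩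
    · exact IntermediateField.subset_adjoin _ _ ⟨1, rfl⟩
    · exact IntermediateField.subset_adjoin _ _ ⟨2, rfl⟩
    · exact IntermediateField.subset_adjoin _ _ ⟨3, rfl⟩
  · -- exchange the roles of the variables
    have hsw : ∀ P : R2, aeval ![co Ω 1, co Ω 0] (rename (![1, 0] : Fin 2 → Fin 2) P)
        = aeval ![co Ω 0, co Ω 1] P := by
      intro P
      rw [aeval_rename]
      congr 2
      funext i
      fin_cases i <;> rfl
    have hinjr : Function.Injective (rename (![1, 0] : Fin 2 → Fin 2) : R2 →ₐ[ℂ] R2) := by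
      apply rename_injective
      decide
    have hra : rename (![1, 0] : Fin 2 → Fin 2) a' ≠ 0 := by
      intro h0
      exact ha' (hinjr (by rw [h0, map_zero]))
    have hrb : rename (![1, 0] : Fin 2 → Fin 2) b' ≠ 0 := by
      intro h0
      exact hb' (hinjr (by rw [h0, map_zero]))
    have hind' : AlgebraicIndependent ℂ ![co Ω 1, co Ω 0, U] := by
      have h5 := hindU.comp (![1, 0, 2] : Fin 3 → Fin 3) (by decide)
      have e : ![co Ω 0, co Ω 1, U] ∘ (![1, 0, 2] : Fin 3 → Fin 3)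
          = ![co Ω 1, co Ω 0, U] := by
        funext i
        fin_cases i <;> rfl
      rwa [e] at h5
    refine critU_half _ _ hra hrb (co Ω 1) (co Ω 0) U W hind' ?_ ?_ hdep S σ hc z hz h
    · rw [hsw, hsw]
      exact hcon
    · refine hfrac _ (hgen _ ?_ ?_ ?_ ?_)
      · exact IntermediateField.subset_adjoin _ _ ⟨1, rfl⟩
      · exact IntermediateField.subset_adjoin _ _ ⟨0, rfl⟩
      · exact IntermediateField.subset_adjoin _ _ ⟨2, rfl⟩
      · exact IntermediateField.subset_adjoin _ _ ⟨3, rfl⟩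

end Pool.Agent.Lib.MP_2095a9_ag.T2
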