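import Pool.Agent.Lib.MP_2095a9_ag.T2.Defs

set_option autoImplicit false

namespace Pool.Agent.Lib.MP_2095a9_ag.T2

open MvPolynomial

namespace U11aux

/-- the coordinate ring of the conic -/
abbrev Q (a b : K2) := MvPolynomial (Fin 2) K2 ⧸ conicIdeal a b

/-- the quotient map -/
noncomputable abbrev mkQ (a b : K2) : MvPolynomial (Fin 2) K2 →ₐ[K2] Q a b :=
  Ideal.Quotient.mkₐ K2 (conicIdeal a b)

theorem two_ne : (2 : K2) ≠ 0 := by
  have := (map_ne_zero (algebraMap ℂ K2)).mpr (two_ne_zero : (2 : ℂ) ≠ 0)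
  rwa [map_ofNat] at this

/-- a field containing the coordinate ring -/
theorem exists_emb (a b : K2) (ha : a ≠ 0) (hb : b ≠ 0) :
    ∃ (M : Type) (_ : Field M) (_ : Algebra K2 M) (φ : Q a b →ₐ[K2] M),
      Function.Injective φ ∧ ∀ p : Polynomial K2,
        Polynomial.aeval (φ (mkQ a b (X 0))) p = 0 → p = 0 := by
  classical
  let E := FractionRing (Polynomial K2)
  let M := AlgebraicClosure E
  have hinjE : Function.Injective (algebraMap (Polynomial K2) E) := IsFractionRing.injective _ _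
  let u : M := algebraMap E M (algebraMap (Polynomial K2) E Polynomial.X)
  have hev : ∀ p : Polynomial K2, Polynomial.aeval u p =
      algebraMap E M (algebraMap (Polynomial K2) E p) := by
    intro p
    rw [Polynomial.aeval_algebraMap_apply, Polynomial.aeval_algebraMap_apply,
      Polynomial.aeval_X_left_apply]
  have htr : ∀ p : Polynomial K2, Polynomial.aeval u p = 0 → p = 0 := by
    intro p hp
    rw [hev] at hp
    have h1 : algebraMap (Polynomial K2) E p = 0 :=
      (algebraMap E M).injective (hp.trans (map_zero _).symm)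
    exact hinjE (h1.trans (map_zero _).symm)
  obtain ⟨v, hv⟩ := IsAlgClosed.exists_pow_nat_eq
    ((1 - algebraMap K2 M a * u ^ 2) / algebraMap K2 M b) (n := 2) (by norm_num)
  have hbM : algebraMap K2 M b ≠ 0 := (map_ne_zero _).mpr hb
  have hcon : algebraMap K2 M a * u ^ 2 + algebraMap K2 M b * v ^ 2 = 1 := by
    rw [hv, mul_div_cancel₀ _ hbM]
    ring
  let ψ : MvPolynomial (Fin 2) K2 →ₐ[K2] M := aeval ![u, v]
  have hψ0 : ψ (X 0) = u := by simp [ψ]
  have hψ1 : ψ (X 1) = v := by simp [ψ]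
  have hψC : ∀ c : K2, ψ (C c) = algebraMap K2 M c := fun c => MvPolynomial.aeval_C _ _
  have hψg : ψ (C a * X 0 ^ 2 + C b * X 1 ^ 2 - 1) = 0 := by
    rw [map_sub, map_add, map_mul, map_mul, map_pow, map_pow, hψC, hψC, hψ0, hψ1, hcon, map_one,
      sub_self]
  have hker : ∀ f ∈ conicIdeal a b, ψ f = 0 := by
    intro f hf
    obtain ⟨g, rfl⟩ := Ideal.mem_span_singleton'.mp hf
    rw [map_mul, hψg, mul_zero]
  let φ : Q a b →ₐ[K2] M := Ideal.Quotient.liftₐ (conicIdeal a b) ψ hker
  have hφ : ∀ f, φ (mkQ a b f) = ψ f := fun f => rfl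
  refine ⟨M, inferInstance, inferInstance, φ, ?_, ?_⟩
  · rw [injective_iff_map_eq_zero]
    intro x hx
    obtain ⟨f, rfl⟩ := Ideal.Quotient.mkₐ_surjective K2 (conicIdeal a b) x
    rw [hφ] at hx
    obtain ⟨p, q, hpq⟩ := conic_normal_form a b hb f
    have h3 : ψ (Polynomial.aeval (X 0 : MvPolynomial (Fin 2) K2) p +
        Polynomial.aeval (X 0 : MvPolynomial (Fin 2) K2) q * X 1) = 0 := by
      have h4 := hker _ hpq
      rw [map_sub, hx, zero_sub, neg_eq_zero] at h4
      exact h4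
    have hev' : ∀ r : Polynomial K2,
        ψ (Polynomial.aeval (X 0 : MvPolynomial (Fin 2) K2) r) = Polynomial.aeval u r := by
      intro r
      rw [← hψ0, Polynomial.aeval_algHom_apply]
    rw [map_add, map_mul, hev', hev', hψ1] at h3
    have h5 : Polynomial.aeval u (Polynomial.C b * p ^ 2 -
        q ^ 2 * (1 - Polynomial.C a * Polynomial.X ^ 2)) = 0 := by
      have hbv : algebraMap K2 M b * v ^ 2 = 1 - algebraMap K2 M a * u ^ 2 := by
        linear_combination hcon
      rw [map_sub, map_mul, map_mul, map_sub, map_mul, map_pow, map_pow, map_pow, map_one,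
        Polynomial.aeval_C, Polynomial.aeval_C, Polynomial.aeval_X, ← hbv]
      linear_combination (algebraMap K2 M b * (Polynomial.aeval u p - Polynomial.aeval u q * v)) * h3
    have h6 := htr _ h5
    obtain ⟨hp0, hq0⟩ := sq_lemma two_ne a b hb _ p q le_rfl (sub_eq_zero.mp h6) ha
    rw [hp0, hq0, map_zero, zero_mul, add_zero, sub_zero] at hpq
    exact Ideal.Quotient.eq_zero_iff_mem.mpr hpq
  · intro p hp
    rw [hφ, hψ0] at hp
    exact htr p hp

theorem isDomain (a b : K2) (ha : a ≠ 0) (hb : b ≠ 0) : IsDomain (Q a b) := by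
  obtain ⟨M, _, _, φ, hφ, -⟩ := exists_emb a b ha hb
  exact hφ.isDomain φ.toRingHom

theorem trans_Q (a b : K2) (ha : a ≠ 0) (hb : b ≠ 0) (p : Polynomial K2)
    (h : Polynomial.aeval (mkQ a b (X 0)) p = 0) : p = 0 := by
  obtain ⟨M, _, _, φ, -, hφ⟩ := exists_emb a b ha hb
  apply hφ
  rw [Polynomial.aeval_algHom_apply, h, map_zero]

theorem conic_Q (a b : K2) : algebraMap K2 (Q a b) a * mkQ a b (X 0) ^ 2 +
    algebraMap K2 (Q a b) b * mkQ a b (X 1) ^ 2 = 1 := by
  have h1 : mkQ a b (C a * X 0 ^ 2 + C b * X 1 ^ 2 - 1) = 0 :=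
    Ideal.Quotient.eq_zero_iff_mem.mpr (Ideal.mem_span_singleton_self _)
  have hC : ∀ c : K2, mkQ a b (C c) = algebraMap K2 (Q a b) c := fun c => rfl
  rw [map_sub, map_add, map_mul, map_mul, map_pow, map_pow, hC, hC, map_one] at h1
  exact sub_eq_zero.mp h1

theorem nf_Q (a b : K2) (hb : b ≠ 0) (w : Q a b) : ∃ p q : Polynomial K2,
    w = Polynomial.aeval (mkQ a b (X 0)) p + Polynomial.aeval (mkQ a b (X 0)) q * mkQ a b (X 1) := by
  obtain ⟨f, rfl⟩ := Ideal.Quotient.mkₐ_surjective K2 (conicIdeal a b) w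
  obtain ⟨p, q, hpq⟩ := conic_normal_form a b hb f
  refine ⟨p, q, ?_⟩
  have h1 : mkQ a b (f - (Polynomial.aeval (X 0 : MvPolynomial (Fin 2) K2) p +
        Polynomial.aeval (X 0 : MvPolynomial (Fin 2) K2) q * X 1)) = 0 :=
    Ideal.Quotient.eq_zero_iff_mem.mpr hpq
  rw [map_sub, map_add, map_mul, ← Polynomial.aeval_algHom_apply,
    ← Polynomial.aeval_algHom_apply] at h1
  exact sub_eq_zero.mp h1

/-- the map to the function field -/
noncomputable def jQ (a b : K2) : Q a b →ₐ[K2] Fld a b :=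
  IsScalarTower.toAlgHom K2 (Q a b) (Fld a b)

theorem jQ_inj (a b : K2) : Function.Injective (jQ a b) :=
  IsFractionRing.injective (Q a b) (Fld a b)

theorem jQ_surj (a b : K2) (w : Fld a b) :
    ∃ n d : Q a b, d ∈ nonZeroDivisors (Q a b) ∧ w * jQ a b d = jQ a b n := by
  obtain ⟨⟨n, d⟩, h⟩ := IsLocalization.surj (R := Q a b) (S := Fld a b)
    (M := nonZeroDivisors (Q a b)) w
  exact ⟨n, d, d.2, h⟩

end U11aux

open U11aux in
theorem exists_model (a b : K2) (ha : a ≠ 0) (hb : b ≠ 0) :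
    ∃ (Ω : Type) (_ : Field Ω) (_ : Algebra ℂ Ω) (_ : Algebra K2 Ω) (_ : IsScalarTower ℂ K2 Ω)
      (u v : Ω), IsConicField a b u v ∧ Nonempty (Fld a b ≃ₐ[K2] Ω) := by
  classical
  have _ : IsDomain (Q a b) := isDomain a b ha hb
  let u : Fld a b := jQ a b (mkQ a b (X 0))
  let v : Fld a b := jQ a b (mkQ a b (X 1))
  have hinj := jQ_inj a b
  have hal : ∀ c : K2, algebraMap K2 (Fld a b) c =
      jQ a b (algebraMap K2 (Q a b) c) := fun c => (AlgHom.commutes (jQ a b) c).symm
  have hev : ∀ p : Polynomial K2, Polynomial.aeval u p =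
      jQ a b (Polynomial.aeval (mkQ a b (X 0)) p) := by
    intro p
    exact Polynomial.aeval_algHom_apply (jQ a b) _ p
  have hcon : algebraMap K2 (Fld a b) a * u ^ 2 + algebraMap K2 (Fld a b) b * v ^ 2 = 1 := by
    have h1 := congrArg (jQ a b) (conic_Q a b)
    rw [map_add, map_mul, map_mul, map_pow, map_pow, map_one] at h1
    rw [hal, hal]
    exact h1
  have htr : ∀ p : Polynomial K2, Polynomial.aeval u p = 0 → p = 0 := by
    intro p hp
    rw [hev] at hp
    exact trans_Q a b ha hb p (hinj (hp.trans (map_zero _).symm))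
  have hgen : ∀ w : Fld a b, ∃ p q r : Polynomial K2, r ≠ 0 ∧
      w * Polynomial.aeval u r = Polynomial.aeval u p + Polynomial.aeval u q * v := by
    intro w
    obtain ⟨n, d, hd, hw⟩ := jQ_surj a b w
    obtain ⟨p, q, hn⟩ := nf_Q a b hb n
    obtain ⟨p', q', hd'⟩ := nf_Q a b hb d
    have hd0 : d ≠ 0 := nonZeroDivisors.ne_zero hd
    have hn2 : jQ a b n = Polynomial.aeval u p + Polynomial.aeval u q * v := by
      rw [hn, map_add, map_mul, hev, hev]
    have hd2 : jQ a b d = Polynomial.aeval u p' + Polynomial.aeval u q' * v := by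
      rw [hd', map_add, map_mul, hev, hev]
    have hwd : w * (Polynomial.aeval u p' + Polynomial.aeval u q' * v) =
        Polynomial.aeval u p + Polynomial.aeval u q * v := by
      rw [← hd2, ← hn2, hw]
    refine ⟨Polynomial.C b * p * p' - q * q' * (1 - Polynomial.C a * Polynomial.X ^ 2),
      Polynomial.C b * (q * p' - p * q'),
      Polynomial.C b * p' ^ 2 - q' ^ 2 * (1 - Polynomial.C a * Polynomial.X ^ 2), ?_, ?_⟩
    · intro h0
      obtain ⟨hp0, hq0⟩ := sq_lemma two_ne a b hb _ p' q' le_rfl (sub_eq_zero.mp h0) ha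
      apply hd0
      rw [hd', hp0, hq0, map_zero, zero_mul, add_zero]
    · simp only [map_sub, map_mul, map_pow, map_one, Polynomial.aeval_C, Polynomial.aeval_X]
      have hbv : algebraMap K2 (Fld a b) b * v ^ 2 = 1 - algebraMap K2 (Fld a b) a * u ^ 2 := by
        linear_combination hcon
      rw [← hbv]
      linear_combination (algebraMap K2 (Fld a b) b *
        (Polynomial.aeval u p' - Polynomial.aeval u q' * v)) * hwd
  have hcf : IsConicField a b u v := ⟨hcon, fun ⟨p, hp0, hp⟩ => hp0 (htr p hp), hgen⟩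
  exact ⟨Fld a b, inferInstance, inferInstance, inferInstance, inferInstance, u, v, hcf,
    ⟨AlgEquiv.refl⟩⟩

end Pool.Agent.Lib.MP_2095a9_ag.T2
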