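import Pool.Agent.Lib.MP_2095a9_ag.T2.Defs

set_option autoImplicit false

namespace Pool.Agent.Lib.MP_2095a9_ag.T2

open MvPolynomial

namespace U12aux

theorem qf_eq {E : Type*} [CommRing E] (S : Matrix (Fin 3) (Fin 3) E) (z : Fin 3 → E) :
    qf S z = z ⬝ᵥ (S.mulVec z) := by
  simp only [qf, dotProduct, Matrix.mulVec, Finset.mul_sum]
  refine Finset.sum_congr rfl fun i _ => Finset.sum_congr rfl fun j _ => ?_
  ring

theorem qf_trans {E : Type*} [CommRing E] (S P : Matrix (Fin 3) (Fin 3) E) (w : Fin 3 → E) :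
    qf S (P.mulVec w) = qf (P.transpose * S * P) w := by
  rw [qf_eq, qf_eq, ← Matrix.mulVec_mulVec, ← Matrix.mulVec_mulVec, Matrix.dotProduct_mulVec w,
    Matrix.vecMul_transpose]

end U12aux

open U12aux in
theorem fin_of_dom (a b : K2) (ha : a ≠ 0) (hb : b ≠ 0) (S P : Matrix (Fin 3) (Fin 3) K2)
    (hP : P.det ≠ 0) (c : K2) (hc : c ≠ 0)
    (h : P.transpose * S * P = Matrix.diagonal ![c * a, c * b, -c]) (hD : Dom S) :
    Nonempty (Fld a b →ₐ[ℂ] FractionRing (MvPolynomial (Fin 3) ℂ)) := by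
  classical
  obtain ⟨τ, z, hz, hq⟩ := hD
  set P' : Matrix (Fin 3) (Fin 3) L2 := P.map τ with hP'
  have hdet : P'.det = τ P.det := by
    have := RingHom.map_det (τ : K2 →+* L2) P
    exact this.symm
  have hdet0 : P'.det ≠ 0 := by
    rw [hdet]
    exact (map_ne_zero τ).mpr hP
  have hunit : IsUnit P'.det := isUnit_iff_ne_zero.mpr hdet0
  set w : Fin 3 → L2 := P'⁻¹.mulVec z with hw
  have hPw : P'.mulVec w = z := by
    rw [hw, Matrix.mulVec_mulVec, Matrix.mul_nonsing_inv _ hunit, Matrix.one_mulVec]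
  have hw0 : w ≠ 0 := by
    intro h0
    apply hz
    rw [← hPw, h0, Matrix.mulVec_zero]
  have hmap : P'.transpose * S.map τ * P' = Matrix.diagonal ![τ c * τ a, τ c * τ b, -τ c] := by
    have h1 := congrArg (fun M : Matrix (Fin 3) (Fin 3) K2 => M.map τ) h
    rw [Matrix.map_mul, Matrix.map_mul, Matrix.transpose_map] at h1
    rw [hP', h1, Matrix.diagonal_map (map_zero τ)]
    congr 1
    funext i
    fin_cases i <;> simp
  rw [← hPw, qf_trans, hmap] at hq
  have hq' : τ c * (τ a * w 0 ^ 2 + τ b * w 1 ^ 2 - w 2 ^ 2) = 0 := by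
    rw [← hq]
    simp only [qf, Matrix.diagonal_apply, Fin.sum_univ_three]
    simp
    ring
  have hτc : τ c ≠ 0 := (map_ne_zero τ).mpr hc
  have hiso : Iso (τ a) (τ b) := by
    refine ⟨w 0, w 1, w 2, ?_, ?_⟩
    · rintro ⟨h0, h1, h2⟩
      apply hw0
      funext i
      fin_cases i
      · exact h0
      · exact h1
      · exact h2
    · have := (mul_eq_zero.mp hq').resolve_left hτc
      linear_combination this
  have h2L : (2 : L2) ≠ 0 := by
    have := (map_ne_zero (algebraMap ℂ L2)).mpr (two_ne_zero : (2 : ℂ) ≠ 0)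
    rwa [map_ofNat] at this
  obtain ⟨u, v, huv⟩ := hiso.affine h2L ((map_ne_zero τ).mpr ha) ((map_ne_zero τ).mpr hb)
  have h2K : (2 : K2) ≠ 0 := by
    have := (map_ne_zero (algebraMap ℂ K2)).mpr (two_ne_zero : (2 : ℂ) ≠ 0)
    rwa [map_ofNat] at this
  obtain ⟨Ψ⟩ := conic_embed h2K a b ha hb τ u v huv
  obtain ⟨s2⟩ := rational_step 1 (AlgHom.id ℂ F1)
  obtain ⟨s3⟩ := rational_step 2 s2
  exact ⟨s3.comp Ψ⟩

end Pool.Agent.Lib.MP_2095a9_ag.T2
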