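import Pool.Agent.Lib.MP_2095a9_ag.T2.Defs
import Pool.Agent.Lib.MP_2095a9_ag.T2.U10
import Pool.Agent.Lib.MP_2095a9_ag.T2.U11
import Pool.Agent.Lib.MP_2095a9_ag.T2.U12

set_option autoImplicit false

namespace Pool.Agent.Lib.MP_2095a9_ag.T2

open MvPolynomial

theorem theoremU (a b a' b' : K2) (ha : a ≠ 0) (hb : b ≠ 0) (ha' : a' ≠ 0) (hb' : b' ≠ 0)
    (σ : K2 →ₐ[ℂ] Fld a b) (hσ : ∃ r, σ r ∉ Set.range (algebraMap K2 (Fld a b)))
    (u v : Fld a b) (h : σ a' * u ^ 2 + σ b' * v ^ 2 = 1) :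
    Nonempty (Fld a' b' →ₐ[ℂ] FractionRing (MvPolynomial (Fin 3) ℂ)) := by
  obtain ⟨Ω, i1, i2, i3, i4, uu, vv, hΩ, ⟨e⟩⟩ := exists_model a b ha hb
  let e' : Fld a b →ₐ[ℂ] Ω := (e : Fld a b →ₐ[K2] Ω).restrictScalars ℂ
  have he' : ∀ w, e' w = e w := fun w => rfl
  obtain ⟨r, hr⟩ := hσ
  have hr' : ∃ r, (e'.comp σ) r ∉ Set.range (algebraMap K2 Ω) := by
    refine ⟨r, ?_⟩
    rintro ⟨q, hq⟩
    apply hr
    refine ⟨q, ?_⟩
    apply e.injective
    rw [AlgEquiv.commutes, hq]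
    rfl
  have hD : Dom (Matrix.diagonal ![a', b', -1]) := by
    refine critU a b ha hb uu vv hΩ (Matrix.diagonal ![a', b', -1]) (e'.comp σ) hr'
      ![e' u, e' v, 1] ?_ ?_
    · intro h0
      have := congrFun h0 2
      simp at this
    · have h1 := congrArg e' h
      simp only [map_add, map_mul, map_pow, map_one] at h1
      simp only [qf, Fin.sum_univ_three, Matrix.map_apply, Matrix.diagonal_apply, AlgHom.comp_apply]
      simp
      linear_combination h1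
  refine fin_of_dom a' b' ha' hb' _ 1 (by simp) 1 one_ne_zero ?_ hD
  simp

end Pool.Agent.Lib.MP_2095a9_ag.T2
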