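import Pool.Agent.Lib.MP_2095a9_ag.T2.Defs

set_option autoImplicit false

/-!
Module V1: diagonalisation of a nondegenerate ternary symmetric matrix.
-/

namespace Pool.Agent.Lib.MP_2095a9_ag.T2

theorem diag_exists {E : Type*} [Field E] (h2 : (2 : E) ≠ 0) (S : Matrix (Fin 3) (Fin 3) E)
    (hs : S.IsSymm) (hd : S.det ≠ 0) :
    ∃ (P : Matrix (Fin 3) (Fin 3) E) (a b c : E), P.det ≠ 0 ∧ a ≠ 0 ∧ b ≠ 0 ∧ c ≠ 0 ∧
      P.transpose * S * P = Matrix.diagonal ![c * a, c * b, -c] := by
  have : Invertible (2 : E) := invertibleOfNonzero h2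
  have hsym : LinearMap.IsSymm (Matrix.toBilin' S) := by
    constructor
    intro x y
    rw [RingHom.id_apply, Matrix.toBilin'_apply', Matrix.toBilin'_apply']
    rw [Matrix.dotProduct_mulVec, ← Matrix.mulVec_transpose, hs.eq, dotProduct_comm]
  obtain ⟨v0, hv0⟩ := LinearMap.BilinForm.exists_orthogonal_basis
    (B := (Matrix.toBilin' S : LinearMap.BilinForm E (Fin 3 → E))) hsym
  have hfr : Module.finrank E (Fin 3 → E) = 3 := by simp
  let v : Module.Basis (Fin 3) E (Fin 3 → E) := v0.reindex (finCongr hfr)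
  have hv : ∀ i j : Fin 3, i ≠ j → Matrix.toBilin' S (v i) (v j) = 0 := by
    intro i j hij
    have : (finCongr hfr).symm i ≠ (finCongr hfr).symm j := by
      intro h
      exact hij ((finCongr hfr).symm.injective h)
    have h := hv0 this
    simpa [v, Module.Basis.reindex_apply] using h
  let P : Matrix (Fin 3) (Fin 3) E := Matrix.of fun i j => v j i
  have hP : P.det ≠ 0 := by
    have hP2 : P = (Pi.basisFun E (Fin 3)).toMatrix v := by
      ext i j
      simp [P, Module.Basis.toMatrix_apply]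
    rw [hP2]
    intro h0
    have h1 := congrArg Matrix.det ((Pi.basisFun E (Fin 3)).toMatrix_mul_toMatrix_flip v)
    rw [Matrix.det_mul, h0, zero_mul, Matrix.det_one] at h1
    exact zero_ne_one h1
  have hent : ∀ i j, (P.transpose * S * P) i j = Matrix.toBilin' S (v i) (v j) := by
    intro i j
    rw [Matrix.toBilin'_apply', Matrix.mul_assoc]
    simp only [Matrix.mul_apply, dotProduct, Matrix.mulVec, Matrix.transpose_apply, P, Matrix.of_apply]
  have hdiag : P.transpose * S * P =
      Matrix.diagonal (fun i => Matrix.toBilin' S (v i) (v i)) := by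
    ext i j
    rw [hent]
    by_cases hij : i = j
    · subst hij
      rw [Matrix.diagonal_apply_eq]
    · rw [hv i j hij, Matrix.diagonal_apply_ne _ hij]
  have hne : ∀ i, Matrix.toBilin' S (v i) (v i) ≠ 0 := by
    have h1 := congrArg Matrix.det hdiag
    rw [Matrix.det_mul, Matrix.det_mul, Matrix.det_transpose, Matrix.det_diagonal] at h1
    have h3 : ∏ i, Matrix.toBilin' S (v i) (v i) ≠ 0 := by
      rw [← h1]
      exact mul_ne_zero (mul_ne_zero hP hd) hP
    intro i
    exact (Finset.prod_ne_zero_iff.mp h3) i (Finset.mem_univ i)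
  refine ⟨P, -(Matrix.toBilin' S (v 0) (v 0)) / Matrix.toBilin' S (v 2) (v 2),
    -(Matrix.toBilin' S (v 1) (v 1)) / Matrix.toBilin' S (v 2) (v 2),
    -(Matrix.toBilin' S (v 2) (v 2)), hP, div_ne_zero (neg_ne_zero.mpr (hne 0)) (hne 2),
    div_ne_zero (neg_ne_zero.mpr (hne 1)) (hne 2), neg_ne_zero.mpr (hne 2), ?_⟩
  rw [hdiag]
  refine congrArg Matrix.diagonal ?_
  funext i
  have h22 := hne 2
  fin_cases i
  · simp
    field_simp
  · simp
    field_simp
  · simp

end Pool.Agent.Lib.MP_2095a9_ag.T2
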