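import Pool.Agent.Lib.MP_2095a9_ag.T2.V9

set_option autoImplicit false

/-!
Module V10: the point `(f1,f2)` is generic.
-/

namespace Pool.Agent.Lib.MP_2095a9_ag.T2

open MvPolynomial

namespace V10aux

/-- one more element in front of an algebraically independent family -/
theorem ai_cons {E Ω : Type*} [Field E] [Field Ω] [Algebra E Ω] {n : ℕ} (w : Ω)
    (v : Fin n → Ω) :
    AlgebraicIndependent E (Matrix.vecCons w v) ↔
      AlgebraicIndependent E v ∧ Transcendental (Algebra.adjoin E (Set.range v)) w := by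
  rw [← AlgebraicIndependent.option_iff]
  refine (algebraicIndependent_equiv' (finSuccEquiv n) ?_)
  funext i
  refine Fin.cases ?_ (fun j => ?_) i
  · simp [finSuccEquiv_zero]
  · simp [finSuccEquiv_succ]

/-- a ternary quadratic form over `M` which vanishes at a generic point is zero -/
theorem quad_zero {M Ω : Type*} [Field M] [CharZero M] [Field Ω] [Algebra M Ω] (s t : Ω)
    (h : AlgebraicIndependent M ![s, t]) (B : Matrix (Fin 3) (Fin 3) M) (hB : B.IsSymm)
    (h0 : qf (B.map (algebraMap M Ω)) ![s, t, 1] = 0) : B = 0 := by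
  have hP : qf (B.map (C : M → MvPolynomial (Fin 2) M)) ![X 0, X 1, 1] = 0 := by
    apply h
    rw [map_zero, ← h0]
    simp only [qf, Fin.sum_univ_three, Matrix.map_apply]
    simp
  have key : ∀ u v : M, qf B ![u, v, 1] = 0 := by
    intro u v
    have := congrArg (aeval ![u, v]) hP
    rw [map_zero] at this
    rw [← this]
    simp only [qf, Fin.sum_univ_three, Matrix.map_apply]
    simp
  have e10 : B 1 0 = B 0 1 := hB.apply 0 1
  have e20 : B 2 0 = B 0 2 := hB.apply 0 2
  have e21 : B 2 1 = B 1 2 := hB.apply 1 2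
  have k00 := key 0 0
  have k10 := key 1 0
  have k01 := key 0 1
  have k11 := key 1 1
  have km0 := key (-1) 0
  have k0m := key 0 (-1)
  simp only [qf, Fin.sum_univ_three] at k00 k10 k01 k11 km0 k0m
  simp [e10, e20, e21] at k00 k10 k01 k11 km0 k0m
  have h2 : (2 : M) ≠ 0 := two_ne_zero
  have a22 : B 2 2 = 0 := k00
  rw [a22] at k10 k01 k11 km0 k0m
  have a00 : B 0 0 = 0 := by
    have : 2 * B 0 0 = 0 := by linear_combination k10 + km0
    exact (mul_eq_zero.mp this).resolve_left h2
  have a02 : B 0 2 = 0 := by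
    have : 2 * B 0 2 = 0 := by linear_combination k10 - a00
    exact (mul_eq_zero.mp this).resolve_left h2
  have a11 : B 1 1 = 0 := by
    have : 2 * B 1 1 = 0 := by linear_combination k01 + k0m
    exact (mul_eq_zero.mp this).resolve_left h2
  have a12 : B 1 2 = 0 := by
    have : 2 * B 1 2 = 0 := by linear_combination k01 - a11
    exact (mul_eq_zero.mp this).resolve_left h2
  have a01 : B 0 1 = 0 := by
    have : 2 * B 0 1 = 0 := by linear_combination k11 - a00 - a11 - 2 * a02 - 2 * a12
    exact (mul_eq_zero.mp this).resolve_left h2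
  ext i j
  fin_cases i <;> fin_cases j <;> simp [a00, a01, a02, a11, a12, a22, e10, e20, e21]

/-- if the coordinates of the point `(f1,f2)` lie in a subfield over which `s, t` are
independent, then the point is defined over `ℂ` -/
theorem alg_of_mem {Ω : Type} [Field Ω] [Algebra ℂ Ω]
    (A : Matrix (Fin 3) (Fin 3) R2) (hs : A.IsSymm) (hA : Coprim A) (s t : Ω) (f1 f2 : Ω)
    (hf : qf (evM A f1 f2) ![s, t, 1] = 0)
    (M : IntermediateField ℂ Ω) (h1 : f1 ∈ M) (h2 : f2 ∈ M)
    (hst : AlgebraicIndependent M ![s, t]) : IsAlgebraic ℂ f1 ∧ IsAlgebraic ℂ f2 := by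
  have e : (evM A (⟨f1, h1⟩ : M) ⟨f2, h2⟩).map (algebraMap M Ω) = evM A f1 f2 := by
    ext i j
    simp only [evM, Matrix.map_apply]
    rw [← IsScalarTower.toAlgHom_apply ℂ M Ω, ← AlgHom.comp_apply]
    congr 1
    apply MvPolynomial.algHom_ext
    intro k
    fin_cases k <;> simp
  have hsym : (evM A (⟨f1, h1⟩ : M) ⟨f2, h2⟩).IsSymm := by
    ext i j
    simp only [evM, Matrix.transpose_apply, Matrix.map_apply]
    rw [hs.apply]
  have h0 := quad_zero s t hst (evM A (⟨f1, h1⟩ : M) ⟨f2, h2⟩) hsym (by rw [e]; exact hf)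
  obtain ⟨a1, a2⟩ := coprim_zero A hA _ _ h0
  have hinj : Function.Injective (algebraMap M Ω) := (algebraMap M Ω).injective
  exact ⟨a1.algebraMap (A := Ω), a2.algebraMap (A := Ω)⟩

/-- the main step, with the roles of `f1` and `f2` open -/
theorem half {Ω : Type} [Field Ω] [Algebra ℂ Ω]
    (A : Matrix (Fin 3) (Fin 3) R2) (hs : A.IsSymm) (hA : Coprim A) (s t : Ω)
    (f g : Ω) (f1 f2 : Ω) (h1 : f1 = f ∨ f1 = g) (h2 : f2 = f ∨ f2 = g) (hfg : f = f1 ∨ f = f2)
    (hf : qf (evM A f1 f2) ![s, t, 1] = 0)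
    (hn : AlgebraicIndependent ℂ ![s, t, f]) :
    AlgebraicIndependent ℂ ![g, f] := by
  by_contra hcon
  have htr : Transcendental ℂ f := hn.transcendental 2
  have hff : AlgebraicIndependent ℂ ![f] := algebraicIndependent_iff_transcendental.mpr htr
  rw [show ![g, f] = Matrix.vecCons g ![f] from rfl, ai_cons, not_and] at hcon
  have hg := hcon hff
  rw [Transcendental, not_not] at hg
  -- independence of `s, t` over the closure of `ℂ(f)`
  have hsum : AlgebraicIndependent ℂ (Sum.elim ![s, t] ![f]) := by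
    have := (algebraicIndependent_equiv (R := ℂ) (finSumFinEquiv (m := 2) (n := 1))
      (f := ![s, t, f])).mpr hn
    have e : (![s, t, f] ∘ (finSumFinEquiv (m := 2) (n := 1))) = Sum.elim ![s, t] ![f] := by
      funext i
      rcases i with i | i
      · fin_cases i <;> rfl
      · fin_cases i; rfl
    rw [← e]
    exact this
  have hst := (AlgebraicIndependent.sumElim_iff.mp hsum).2
  have hst2 := (IntermediateField.algebraicIndependent_adjoin_iff.mpr hst).algebraicClosure
  have hg2 := IntermediateField.isAlgebraic_adjoin_iff.mpr hg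
  set F := IntermediateField.adjoin ℂ (Set.range ![f]) with hF
  have hfF : f ∈ F := IntermediateField.subset_adjoin _ _ ⟨0, rfl⟩
  set M : IntermediateField ℂ Ω := (algebraicClosure F Ω).restrictScalars ℂ with hM
  have hfM : f ∈ M := by
    rw [hM, IntermediateField.mem_restrictScalars, mem_algebraicClosure_iff]
    exact isAlgebraic_algebraMap (⟨f, hfF⟩ : F)
  have hgM : g ∈ M := by
    rw [hM, IntermediateField.mem_restrictScalars, mem_algebraicClosure_iff]
    exact hg2
  have h1M : f1 ∈ M := by rcases h1 with h | h <;> rw [h] <;> assumption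
  have h2M : f2 ∈ M := by rcases h2 with h | h <;> rw [h] <;> assumption
  have hres := alg_of_mem A hs hA s t f1 f2 hf M h1M h2M hst2
  rcases hfg with h | h
  · exact htr (h ▸ hres.1)
  · exact htr (h ▸ hres.2)

end V10aux

theorem rk_indep {Ω : Type} [Field Ω] [Algebra ℂ Ω]
    (A : Matrix (Fin 3) (Fin 3) R2) (hs : A.IsSymm) (hA : Coprim A) (s t : Ω)
    (hst : AlgebraicIndependent ℂ ![s, t]) (f1 f2 : Ω)
    (hf : qf (evM A f1 f2) ![s, t, 1] = 0)
    (hn : AlgebraicIndependent ℂ ![s, t, f1] ∨ AlgebraicIndependent ℂ ![s, t, f2]) :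
    AlgebraicIndependent ℂ ![f1, f2] := by
  rcases hn with hn | hn
  · have := V10aux.half A hs hA s t f1 f2 f1 f2 (Or.inl rfl) (Or.inr rfl) (Or.inl rfl) hf hn
    have h2 := this.comp ![1, 0] (by decide)
    have e : (![f2, f1] ∘ ![1, 0]) = ![f1, f2] := by
      funext i
      fin_cases i <;> rfl
    rw [← e]
    exact h2
  · exact V10aux.half A hs hA s t f2 f1 f1 f2 (Or.inr rfl) (Or.inl rfl) (Or.inr rfl) hf hn

end Pool.Agent.Lib.MP_2095a9_ag.T2
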