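import Pool.Agent.Lib.MP_2095a9_ag.T2.Defs

set_option autoImplicit false

/-!
Module V11: the gradient does not vanish, and `s`, `t` are algebraically independent.
-/

namespace Pool.Agent.Lib.MP_2095a9_ag.T2

open MvPolynomial

namespace V11aux

theorem symm_dM (A : Matrix (Fin 3) (Fin 3) R2) (hA : A.IsSymm) (i : Fin 2) :
    (toK (dM i A)).IsSymm := by
  refine Matrix.IsSymm.ext fun k l => ?_
  simp only [toK, dM, Matrix.map_apply]
  rw [hA.apply k l]

theorem ev_eq {Ω : Type} [Field Ω] [Algebra ℂ Ω] [Algebra K2 Ω] [IsScalarTower ℂ K2 Ω]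
    (f : R2) : aeval ![co Ω 0, co Ω 1] f = algebraMap K2 Ω (algebraMap R2 K2 f) := by
  have h : (aeval ![co Ω 0, co Ω 1] : R2 →ₐ[ℂ] Ω) =
      (IsScalarTower.toAlgHom ℂ K2 Ω).comp (IsScalarTower.toAlgHom ℂ R2 K2) := by
    refine MvPolynomial.algHom_ext fun i => ?_
    fin_cases i
    · simp [co]
    · simp [co]
  rw [h]
  rfl

theorem gv_eq {Ω : Type} [Field Ω] [Algebra ℂ Ω] [Algebra K2 Ω] [IsScalarTower ℂ K2 Ω]
    (s t : Ω) (B : Matrix (Fin 3) (Fin 3) R2) :
    gv s t B = ∑ i, ∑ j, aeval ![co Ω 0, co Ω 1] (B i j) *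
      ((![s, t, 1] : Fin 3 → Ω) i * (![s, t, 1] : Fin 3 → Ω) j) := by
  simp only [gv, qf, toK, Matrix.map_apply, ev_eq]

theorem pderiv_map_mul_C {R S : Type*} [CommRing R] [CommRing S] (ι : R →+* S)
    (f : MvPolynomial (Fin 2) R) (a : S) (i : Fin 2) :
    pderiv i (map ι f * C a) = map ι (pderiv i f) * C a := by
  rw [Derivation.leibniz, pderiv_C, smul_zero, zero_add, pderiv_map, smul_eq_mul, mul_comm]

theorem pair_alg {Ω : Type} [Field Ω] [Algebra ℂ Ω] (s t : Ω) (hs : Transcendental ℂ s)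
    (h : ¬ AlgebraicIndependent ℂ ![s, t]) :
    IsAlgebraic (Algebra.adjoin ℂ (Set.range ![s])) t := by
  by_contra ht
  apply h
  have h1 : AlgebraicIndependent (Algebra.adjoin ℂ (Set.range ![s])) ![t] :=
    algebraicIndependent_unique_type_iff.mpr ht
  have h2 : AlgebraicIndependent ℂ ![s] := algebraicIndependent_unique_type_iff.mpr hs
  have h3 := AlgebraicIndependent.sumElim_iff.mpr ⟨h2, h1⟩
  have hf : Function.Injective (![Sum.inr 0, Sum.inl 0] : Fin 2 → Fin 1 ⊕ Fin 1) := by decide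
  have h4 := h3.comp _ hf
  have e : Sum.elim ![t] ![s] ∘ (![Sum.inr 0, Sum.inl 0] : Fin 2 → Fin 1 ⊕ Fin 1) = ![s, t] := by
    funext i
    fin_cases i <;> rfl
  rw [e] at h4
  exact h4

theorem over_closure {Ω : Type} [Field Ω] [Algebra ℂ Ω] (x y s : Ω)
    (h : AlgebraicIndependent ℂ ![x, y, s]) :
    AlgebraicIndependent (Subalgebra.algebraicClosure (Algebra.adjoin ℂ (Set.range ![s])) Ω)
      ![x, y] := by
  have hf : Function.Injective (Sum.elim ![0, 1] ![2] : Fin 2 ⊕ Fin 1 → Fin 3) := by decide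
  have h1 := h.comp _ hf
  have e : (![x, y, s] : Fin 3 → Ω) ∘ (Sum.elim ![0, 1] ![2] : Fin 2 ⊕ Fin 1 → Fin 3) =
      Sum.elim ![x, y] ![s] := by
    funext i
    rcases i with i | i
    · fin_cases i <;> rfl
    · fin_cases i
      rfl
  rw [e] at h1
  exact (AlgebraicIndependent.sumElim_iff.mp h1).2.subalgebraAlgebraicClosure

end V11aux

theorem grad_ne {Ω : Type} [Field Ω] [Algebra ℂ Ω] [Algebra K2 Ω] [IsScalarTower ℂ K2 Ω]
    (A : Matrix (Fin 3) (Fin 3) R2) (hA : A.IsSymm) (s t : Ω) (hS : Setup A s t)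
    (hflat : ¬ Flat A) : gv s t (dM 0 A) ≠ 0 ∧ gv s t (dM 1 A) ≠ 0 := by
  constructor
  · intro h
    obtain ⟨l, hl⟩ := hS.prop (toK (dM 0 A)) (V11aux.symm_dM A hA 0) h
    exact hflat ⟨1, 0, l, Or.inl one_ne_zero, by rw [one_smul, zero_smul, add_zero, hl]⟩
  · intro h
    obtain ⟨l, hl⟩ := hS.prop (toK (dM 1 A)) (V11aux.symm_dM A hA 1) h
    exact hflat ⟨0, 1, l, Or.inr one_ne_zero, by rw [one_smul, zero_smul, zero_add, hl]⟩

theorem st_indep {Ω : Type} [Field Ω] [Algebra ℂ Ω] [Algebra K2 Ω] [IsScalarTower ℂ K2 Ω]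
    (A : Matrix (Fin 3) (Fin 3) R2) (s t : Ω) (hS : Setup A s t)
    (hx : gv s t (dM 0 A) ≠ 0) : AlgebraicIndependent ℂ ![s, t] := by
  by_contra hst
  apply hx
  have hs : Transcendental ℂ s := hS.indep.transcendental 2
  have ht := V11aux.pair_alg s t hs hst
  have hxy := V11aux.over_closure _ _ _ hS.indep
  let A0 := Algebra.adjoin ℂ (Set.range ![s])
  let N := Subalgebra.algebraicClosure A0 Ω
  have hsN : s ∈ N := by
    have hs0 : s ∈ A0 := Algebra.subset_adjoin ⟨0, rfl⟩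
    exact isAlgebraic_algebraMap (⟨s, hs0⟩ : A0)
  have htN : t ∈ N := ht
  let z : Fin 3 → N := ![⟨s, hsN⟩, ⟨t, htN⟩, 1]
  have hz : ∀ i, algebraMap N Ω (z i) = (![s, t, 1] : Fin 3 → Ω) i := by
    intro i
    fin_cases i <;> rfl
  let ι : ℂ →+* N := (algebraMap A0 N).comp (algebraMap ℂ A0)
  have hι : (algebraMap N Ω).comp ι = algebraMap ℂ Ω := rfl
  let F : Matrix (Fin 3) (Fin 3) R2 → MvPolynomial (Fin 2) N := fun B =>
    ∑ i, ∑ j, map ι (B i j) * C (z i * z j)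
  have hev : ∀ B, aeval ![co Ω 0, co Ω 1] (F B) = gv s t B := by
    intro B
    rw [V11aux.gv_eq]
    simp only [F, map_sum, map_mul, aeval_C, hz]
    refine Finset.sum_congr rfl fun i _ => Finset.sum_congr rfl fun j _ => ?_
    rw [aeval_def, eval₂_map, hι, ← aeval_def]
  have hF : F A = 0 := by
    refine hxy ?_
    rw [map_zero]
    exact (hev A).trans hS.zero
  have hd : pderiv 0 (F A) = F (dM 0 A) := by
    simp only [F, map_sum, dM, Matrix.map_apply]
    refine Finset.sum_congr rfl fun i _ => Finset.sum_congr rfl fun j _ => ?_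
    rw [V11aux.pderiv_map_mul_C]
  rw [← hev, ← hd, hF, map_zero, map_zero]

end Pool.Agent.Lib.MP_2095a9_ag.T2
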