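import Pool.Agent.Lib.MP_2095a9_ag.T2.Defs

set_option autoImplicit false

/-!
Module V12: if all third derivatives of the family of cubics vanish at the generic point then
the entries have degree at most two.
-/

namespace Pool.Agent.Lib.MP_2095a9_ag.T2

open MvPolynomial

namespace V12aux

/-- a symmetric matrix of constants whose quadratic form vanishes at an independent point is zero -/
theorem const_zero {Ω : Type} [Field Ω] [Algebra ℂ Ω] (c : Matrix (Fin 3) (Fin 3) ℂ)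
    (hc : c.IsSymm) (s t : Ω) (hst : AlgebraicIndependent ℂ ![s, t])
    (h : ∑ i, ∑ j, algebraMap ℂ Ω (c i j) * ((![s, t, 1] : Fin 3 → Ω) i * (![s, t, 1] : Fin 3 → Ω) j) = 0) :
    ∀ i j, c i j = 0 := by
  have h10 : c 1 0 = c 0 1 := by rw [← hc.apply]
  have h20 : c 2 0 = c 0 2 := by rw [← hc.apply]
  have h21 : c 2 1 = c 1 2 := by rw [← hc.apply]
  have hP : (C (c 0 0) * X 0 ^ 2 + C (2 * c 0 1) * (X 0 * X 1) + C (2 * c 0 2) * X 0
      + C (c 1 1) * X 1 ^ 2 + C (2 * c 1 2) * X 1 + C (c 2 2) : R2) = 0 := by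
    apply (algebraicIndependent_iff_injective_aeval.1 hst)
    rw [map_zero, ← h]
    simp only [map_add, map_mul, map_pow, aeval_X, aeval_C, Fin.sum_univ_three, h10, h20, h21,
      Matrix.cons_val_zero, Matrix.cons_val_one, Matrix.cons_val_two, Matrix.head_cons,
      Matrix.tail_cons, map_ofNat]
    ring
  have hev : ∀ x y : ℂ, c 0 0 * x ^ 2 + 2 * c 0 1 * (x * y) + 2 * c 0 2 * x + c 1 1 * y ^ 2
      + 2 * c 1 2 * y + c 2 2 = 0 := by
    intro x y
    have := congrArg (eval ![x, y]) hP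
    simpa using this
  have e0 := hev 0 0
  have e1 := hev 1 0
  have e2 := hev (-1) 0
  have e3 := hev 0 1
  have e4 := hev 0 (-1)
  have e5 := hev 1 1
  have c22 : c 2 2 = 0 := by linear_combination e0
  have c00 : c 0 0 = 0 := by linear_combination (1 / 2) * e1 + (1 / 2) * e2 - c22
  have c02 : c 0 2 = 0 := by linear_combination (1 / 4) * e1 - (1 / 4) * e2
  have c11 : c 1 1 = 0 := by linear_combination (1 / 2) * e3 + (1 / 2) * e4 - c22
  have c12 : c 1 2 = 0 := by linear_combination (1 / 4) * e3 - (1 / 4) * e4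
  have c01 : c 0 1 = 0 := by
    linear_combination (1 / 2) * e5 - (1 / 2) * c00 - c02 - (1 / 2) * c11 - c12 - (1 / 2) * c22
  intro i j
  fin_cases i <;> fin_cases j <;> simp [c00, c01, c02, c11, c12, c22, h10, h20, h21]

/-- third derivatives of a cubic are constants -/
theorem third_const (f : R2) (hf : f.totalDegree ≤ 3) (i j k : Fin 2) :
    pderiv i (pderiv j (pderiv k f)) = C (coeff 0 (pderiv i (pderiv j (pderiv k f)))) := by
  ext m
  rw [coeff_C]
  split_ifs with hm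
  · rw [← hm]
  · rw [coeff_pderiv, coeff_pderiv, coeff_pderiv, coeff_eq_zero_of_totalDegree_lt]
    · ring
    · refine lt_of_le_of_lt hf ?_
      have h1 : 0 < m.degree := by
        rw [pos_iff_ne_zero, Ne, Finsupp.degree_eq_zero_iff]
        exact fun h => hm h.symm
      have h2 : (m + Finsupp.single i 1 + Finsupp.single j 1 + Finsupp.single k 1).degree
          = m.degree + 3 := by
        simp [map_add, Finsupp.degree_single]
      change 3 < (m + Finsupp.single i 1 + Finsupp.single j 1 + Finsupp.single k 1).degree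
      omega

theorem coeff_third (f : R2) (i j k : Fin 2)
    (h : coeff 0 (pderiv i (pderiv j (pderiv k f))) = 0) :
    coeff (Finsupp.single i 1 + Finsupp.single j 1 + Finsupp.single k 1) f = 0 := by
  rw [coeff_pderiv, coeff_pderiv, coeff_pderiv] at h
  have h0 : ∀ n : ℕ, (n : ℂ) + 1 ≠ 0 := fun n => Nat.cast_add_one_ne_zero n
  rw [zero_add] at h
  exact ((mul_eq_zero.1 ((mul_eq_zero.1 ((mul_eq_zero.1 h).resolve_right (h0 _))).resolve_right
    (h0 _))).resolve_right (h0 _))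

/-- the relation for a matrix of constants -/
theorem gv_const {Ω : Type} [Field Ω] [Algebra ℂ Ω] [Algebra K2 Ω] [IsScalarTower ℂ K2 Ω]
    (s t : Ω) (B : Matrix (Fin 3) (Fin 3) R2) (c : Matrix (Fin 3) (Fin 3) ℂ)
    (hB : ∀ i j, B i j = C (c i j)) :
    gv s t B = ∑ i, ∑ j, algebraMap ℂ Ω (c i j) *
      ((![s, t, 1] : Fin 3 → Ω) i * (![s, t, 1] : Fin 3 → Ω) j) := by
  unfold gv qf toK
  refine Finset.sum_congr rfl fun i _ => Finset.sum_congr rfl fun j _ => ?_
  rw [Matrix.map_apply, Matrix.map_apply, hB]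
  congr 1
  rw [← MvPolynomial.algebraMap_eq, ← IsScalarTower.algebraMap_apply ℂ R2 K2,
    ← IsScalarTower.algebraMap_apply ℂ K2 Ω]

theorem third_zero {Ω : Type} [Field Ω] [Algebra ℂ Ω] [Algebra K2 Ω] [IsScalarTower ℂ K2 Ω]
    (A : Matrix (Fin 3) (Fin 3) R2) (hA : A.IsSymm) (hdeg : ∀ i j, (A i j).totalDegree ≤ 3)
    (s t : Ω) (hst : AlgebraicIndependent ℂ ![s, t]) (a b c : Fin 2)
    (h0 : gv s t (dM a (dM b (dM c A))) = 0) (i j : Fin 3) :
    coeff (Finsupp.single a 1 + Finsupp.single b 1 + Finsupp.single c 1) (A i j) = 0 := by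
  apply coeff_third
  have h1 := gv_const s t (dM a (dM b (dM c A)))
    (fun i j => coeff 0 (pderiv a (pderiv b (pderiv c (A i j)))))
    (fun i j => third_const (A i j) (hdeg i j) a b c)
  rw [h0] at h1
  exact const_zero (fun i j => coeff 0 (pderiv a (pderiv b (pderiv c (A i j)))))
    (by
      ext i j
      change coeff 0 (pderiv a (pderiv b (pderiv c (A j i)))) = _
      rw [hA.apply]) s t hst h1.symm i j

theorem fin2_eq (m : Fin 2 →₀ ℕ) : m = Finsupp.single 0 (m 0) + Finsupp.single 1 (m 1) := by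
  ext i
  fin_cases i <;> simp

end V12aux

theorem deg_le_two {Ω : Type} [Field Ω] [Algebra ℂ Ω] [Algebra K2 Ω] [IsScalarTower ℂ K2 Ω]
    (A : Matrix (Fin 3) (Fin 3) R2) (hA : A.IsSymm) (hdeg : ∀ i j, (A i j).totalDegree ≤ 3)
    (s t : Ω) (hst : AlgebraicIndependent ℂ ![s, t])
    (h0 : gv s t (dM 0 (dM 0 (dM 0 A))) = 0) (h1 : gv s t (dM 0 (dM 0 (dM 1 A))) = 0)
    (h2 : gv s t (dM 0 (dM 1 (dM 1 A))) = 0) (h3 : gv s t (dM 1 (dM 1 (dM 1 A))) = 0) :
    ∀ i j, (A i j).totalDegree ≤ 2 := by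
  intro i j
  have k0 := V12aux.third_zero A hA hdeg s t hst 0 0 0 h0 i j
  have k1 := V12aux.third_zero A hA hdeg s t hst 0 0 1 h1 i j
  have k2 := V12aux.third_zero A hA hdeg s t hst 0 1 1 h2 i j
  have k3 := V12aux.third_zero A hA hdeg s t hst 1 1 1 h3 i j
  rw [totalDegree]
  refine Finset.sup_le fun m hm => ?_
  have hdm : m.sum (fun _ e => e) = m 0 + m 1 := by
    rw [Finsupp.sum_fintype _ _ (fun _ => rfl), Fin.sum_univ_two]
  have hm3 : m.sum (fun _ e => e) ≤ 3 := (le_totalDegree hm).trans (hdeg i j)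
  by_contra hlt
  rw [mem_support_iff] at hm
  apply hm
  have hmm := V12aux.fin2_eq m
  have hcase : (m 0 = 3 ∧ m 1 = 0) ∨ (m 0 = 2 ∧ m 1 = 1) ∨ (m 0 = 1 ∧ m 1 = 2) ∨
      (m 0 = 0 ∧ m 1 = 3) := by omega
  rcases hcase with ⟨e0, e1⟩ | ⟨e0, e1⟩ | ⟨e0, e1⟩ | ⟨e0, e1⟩
  all_goals rw [e0, e1] at hmm
  · rw [← k0, hmm]; congr 1; ext l; fin_cases l <;> simp
  · rw [← k1, hmm]; congr 1; ext l; fin_cases l <;> simp
  · rw [← k2, hmm]; congr 1; ext l; fin_cases l <;> simp
  · rw [← k3, hmm]; congr 1; ext l; fin_cases l <;> simp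

end Pool.Agent.Lib.MP_2095a9_ag.T2
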