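import Pool.Agent.Lib.MP_2095a9_ag.T2.Defs

set_option autoImplicit false

/-!
Module V2: a quadratic form vanishing at the generic point of the conic is proportional to the
form of the conic.
-/

namespace Pool.Agent.Lib.MP_2095a9_ag.T2

namespace V2aux

theorem coeffs_zero {F : Type*} [Field F] (x y z : F)
    (h : (Polynomial.C x * Polynomial.X ^ 2 + Polynomial.C y * Polynomial.X + Polynomial.C z :
      Polynomial F) = 0) : x = 0 ∧ y = 0 ∧ z = 0 := by
  refine ⟨?_, ?_, ?_⟩
  · have := congrArg (fun f => Polynomial.coeff f 2) h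
    simpa [Polynomial.coeff_X, Polynomial.coeff_C] using this
  · have := congrArg (fun f => Polynomial.coeff f 1) h
    simpa [Polynomial.coeff_X, Polynomial.coeff_C, Polynomial.coeff_X_pow] using this
  · have := congrArg (fun f => Polynomial.coeff f 0) h
    simpa [Polynomial.coeff_X, Polynomial.coeff_C, Polynomial.coeff_X_pow] using this

end V2aux

theorem prop_diag {Ω : Type} [Field Ω] [Algebra ℂ Ω] [Algebra K2 Ω] [IsScalarTower ℂ K2 Ω]
    (a b : K2) (ha : a ≠ 0) (hb : b ≠ 0) (u v : Ω) (h : IsConicField a b u v)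
    (B : Matrix (Fin 3) (Fin 3) K2) (hB : B.IsSymm)
    (h0 : qf (B.map (algebraMap K2 Ω)) ![u, v, 1] = 0) :
    ∃ l : K2, B = l • Matrix.diagonal ![a, b, -1] := by
  have h2 : (2 : K2) ≠ 0 := by
    have : CharZero K2 := algebraRat.charZero K2
    exact two_ne_zero
  have e10 : B 1 0 = B 0 1 := hB.apply 0 1
  have e20 : B 2 0 = B 0 2 := hB.apply 0 2
  have e21 : B 2 1 = B 1 2 := hB.apply 1 2
  let p : Polynomial K2 := Polynomial.C (b * B 0 0 - a * B 1 1) * Polynomial.X ^ 2
    + Polynomial.C (2 * b * B 0 2) * Polynomial.X + Polynomial.C (b * B 2 2 + B 1 1)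
  let q : Polynomial K2 := Polynomial.C (-2 * b * B 0 1) * Polynomial.X
    + Polynomial.C (-2 * b * B 1 2)
  have hp : Polynomial.aeval u p = (algebraMap K2 Ω b * algebraMap K2 Ω (B 0 0)
      - algebraMap K2 Ω a * algebraMap K2 Ω (B 1 1)) * u ^ 2
      + 2 * algebraMap K2 Ω b * algebraMap K2 Ω (B 0 2) * u
      + (algebraMap K2 Ω b * algebraMap K2 Ω (B 2 2) + algebraMap K2 Ω (B 1 1)) := by
    simp only [p, map_add, map_mul, map_pow, map_sub, Polynomial.aeval_C, Polynomial.aeval_X,
      map_ofNat]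
  have hq : Polynomial.aeval u q = -2 * algebraMap K2 Ω b * algebraMap K2 Ω (B 0 1) * u
      + -2 * algebraMap K2 Ω b * algebraMap K2 Ω (B 1 2) := by
    simp only [q, map_add, map_mul, map_neg, Polynomial.aeval_C, Polynomial.aeval_X,
      map_ofNat]
  have hrel : Polynomial.aeval u p = Polynomial.aeval u q * v := by
    rw [hp, hq]
    have h1 : algebraMap K2 Ω b * v ^ 2 = 1 - algebraMap K2 Ω a * u ^ 2 := by
      have := h.conic
      linear_combination this
    simp only [qf, Fin.sum_univ_three, Matrix.map_apply, e10, e20, e21, Matrix.cons_val] at h0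
    linear_combination (algebraMap K2 Ω b) * h0 - (algebraMap K2 Ω (B 1 1)) * h1
  have hpoly : Polynomial.C b * p ^ 2 = q ^ 2 * (1 - Polynomial.C a * Polynomial.X ^ 2) := by
    refine (transcendental_iff_injective.mp h.trans) ?_
    have h1 : algebraMap K2 Ω b * v ^ 2 = 1 - algebraMap K2 Ω a * u ^ 2 := by
      have := h.conic
      linear_combination this
    simp only [map_mul, map_pow, map_sub, map_one, Polynomial.aeval_C, Polynomial.aeval_X]
    rw [hrel]
    linear_combination (Polynomial.aeval u q) ^ 2 * h1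
  obtain ⟨hp0, hq0⟩ := sq_lemma h2 a b hb _ p q le_rfl hpoly ha
  obtain ⟨c2, c1, c0⟩ := V2aux.coeffs_zero _ _ _ hp0
  obtain ⟨-, d1, d0⟩ := V2aux.coeffs_zero 0 (-2 * b * B 0 1) (-2 * b * B 1 2) (by
    rw [Polynomial.C_0, zero_mul, zero_add]
    exact hq0)
  have f02 : B 0 2 = 0 := by
    rcases mul_eq_zero.mp c1 with h | h
    · exact absurd h (mul_ne_zero h2 hb)
    · exact h
  have f01 : B 0 1 = 0 := by
    rcases mul_eq_zero.mp d1 with h | h
    · exact absurd h (mul_ne_zero (neg_ne_zero.mpr h2) hb)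
    · exact h
  have f12 : B 1 2 = 0 := by
    rcases mul_eq_zero.mp d0 with h | h
    · exact absurd h (mul_ne_zero (neg_ne_zero.mpr h2) hb)
    · exact h
  refine ⟨B 1 1 / b, ?_⟩
  ext i j
  fin_cases i <;> fin_cases j
  · simp
    field_simp
    linear_combination c2
  · simpa using f01
  · simpa using f02
  · simpa [e10] using f01
  · simp
    field_simp
  · simpa using f12
  · simpa [e20] using f02
  · simpa [e21] using f12
  · simp
    field_simp
    linear_combination c0

end Pool.Agent.Lib.MP_2095a9_ag.T2
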