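import Pool.Agent.Lib.MP_2095a9_ag.T2.U6
import Pool.Agent.Lib.MP_2095a9_ag.T2.U7
import Pool.Agent.Lib.MP_2095a9_ag.T2.U10
import Pool.Agent.Lib.MP_2095a9_ag.T2.U11
import Pool.Agent.Lib.MP_2095a9_ag.T2.V1
import Pool.Agent.Lib.MP_2095a9_ag.T2.V2

set_option autoImplicit false

namespace Pool.Agent.Lib.MP_2095a9_ag.T2

open MvPolynomial Matrix

namespace V3aux

lemma qf_eq {E : Type*} [CommRing E] (S : Matrix (Fin 3) (Fin 3) E) (z : Fin 3 → E) :
    qf S z = z ⬝ᵥ (S *ᵥ z) := by
  simp only [qf, dotProduct, mulVec, Finset.mul_sum]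
  refine Finset.sum_congr rfl fun i _ => Finset.sum_congr rfl fun j _ => ?_
  ring

lemma qf_mulVec {E : Type*} [CommRing E] (S P : Matrix (Fin 3) (Fin 3) E) (z : Fin 3 → E) :
    qf S (P *ᵥ z) = qf (P.transpose * S * P) z := by
  rw [qf_eq, qf_eq, ← mulVec_mulVec, ← mulVec_mulVec, mulVec_transpose, dotProduct_comm,
    dotProduct_comm z, ← dotProduct_mulVec]

lemma qf_smul {E : Type*} [CommRing E] (S : Matrix (Fin 3) (Fin 3) E) (k : E) (z : Fin 3 → E) :
    qf S (k • z) = k ^ 2 * qf S z := by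
  simp only [qf, Finset.mul_sum, Pi.smul_apply, smul_eq_mul]
  refine Finset.sum_congr rfl fun i _ => Finset.sum_congr rfl fun j _ => ?_
  ring

section

variable {Ω : Type} [Field Ω] [Algebra ℂ Ω] [Algebra K2 Ω] [IsScalarTower ℂ K2 Ω]

/-- `1, u, v` are linearly independent over `ℂ(x,y)` -/
lemma indep3 (a b : K2) (ha : a ≠ 0) (hb : b ≠ 0) (u v : Ω) (h : IsConicField a b u v)
    (w : Fin 3 → K2)
    (h0 : algebraMap K2 Ω (w 0) * u + algebraMap K2 Ω (w 1) * v + algebraMap K2 Ω (w 2) = 0) :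
    w = 0 := by
  have hB : (Matrix.of fun i j => w i * w j : Matrix (Fin 3) (Fin 3) K2).IsSymm := by
    ext i j
    simp [mul_comm]
  obtain ⟨l, hl⟩ := prop_diag a b ha hb u v h (Matrix.of fun i j => w i * w j) hB (by
    have : qf ((Matrix.of fun i j => w i * w j : Matrix (Fin 3) (Fin 3) K2).map
        (algebraMap K2 Ω)) ![u, v, 1] = (algebraMap K2 Ω (w 0) * u + algebraMap K2 Ω (w 1) * v
          + algebraMap K2 Ω (w 2)) ^ 2 := by
      simp [qf, Fin.sum_univ_three]
      ring
    rw [this, h0]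
    ring)
  have e01 : w 0 * w 1 = 0 := by simpa using congrFun (congrFun hl 0) 1
  have e00 : w 0 * w 0 = l * a := by simpa using congrFun (congrFun hl 0) 0
  have e11 : w 1 * w 1 = l * b := by simpa using congrFun (congrFun hl 1) 1
  have e22 : w 2 * w 2 = -l := by simpa using congrFun (congrFun hl 2) 2
  have hl0 : l = 0 := by
    rcases mul_eq_zero.1 e01 with h1 | h1
    · rw [h1, zero_mul] at e00
      exact (mul_eq_zero.1 e00.symm).resolve_right ha
    · rw [h1, zero_mul] at e11
      exact (mul_eq_zero.1 e11.symm).resolve_right hb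
  rw [hl0] at e00 e11 e22
  simp only [zero_mul, neg_zero, mul_self_eq_zero] at e00 e11 e22
  funext i
  fin_cases i
  · exact e00
  · exact e11
  · exact e22

end

lemma toK_det (A : Matrix (Fin 3) (Fin 3) R2) (hdet : A.det ≠ 0) : (toK A).det ≠ 0 := by
  have : (toK A).det = algebraMap R2 K2 A.det := by
    rw [RingHom.map_det]
    rfl
  rw [this]
  exact fun h => hdet ((FaithfulSMul.algebraMap_injective R2 K2) (by rw [h, map_zero]))

end V3aux

open V3aux

theorem exists_setup (A : Matrix (Fin 3) (Fin 3) R2) (hs : A.IsSymm) (hdet : A.det ≠ 0) :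
    ∃ (Ω : Type) (_ : Field Ω) (_ : Algebra ℂ Ω) (_ : Algebra K2 Ω) (_ : IsScalarTower ℂ K2 Ω)
      (s t : Ω), Setup A s t := by
  have hsK : (toK A).IsSymm := by
    ext i j
    have := congrFun (congrFun hs i) j
    simp only [transpose_apply] at this
    simp [toK, this]
  obtain ⟨P, a, b, c, hP, ha, hb, hc, hPd⟩ := diag_exists (E := K2) two_ne_zero (toK A) hsK
    (toK_det A hdet)
  obtain ⟨Ω, i1, i2, i3, i4, u, v, hΩ, -⟩ := exists_model a b ha hb
  set φ := algebraMap K2 Ω with hφ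
  set z : Fin 3 → Ω := (P.map φ) *ᵥ ![u, v, 1] with hz
  have hzi : ∀ i, z i = φ (P i 0) * u + φ (P i 1) * v + φ (P i 2) := by
    intro i
    simp [hz, mulVec, dotProduct, Fin.sum_univ_three]
  have hz2 : z 2 ≠ 0 := by
    intro h
    rw [hzi] at h
    have h1 := indep3 a b ha hb u v hΩ (P 2) h
    exact hP (det_eq_zero_of_row_eq_zero 2 (fun j => congrFun h1 j))
  have hzs : z = z 2 • ![z 0 / z 2, z 1 / z 2, 1] := by
    funext i
    fin_cases i
    · simp; field_simp
    · simp; field_simp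
    · simp
  -- transfer to the diagonal form
  have key : ∀ B : Matrix (Fin 3) (Fin 3) K2, qf (B.map φ) ![z 0 / z 2, z 1 / z 2, 1] = 0 →
      qf ((P.transpose * B * P).map φ) ![u, v, 1] = 0 := by
    intro B h
    have h1 : (P.transpose * B * P).map φ = (P.map φ).transpose * (B.map φ) * (P.map φ) := by
      rw [Matrix.map_mul, Matrix.map_mul, Matrix.transpose_map]
    rw [h1, ← qf_mulVec, ← hz, hzs, qf_smul, h, mul_zero]
  have key2 : qf ((toK A).map φ) ![z 0 / z 2, z 1 / z 2, 1] = 0 := by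
    have h1 : (P.transpose * toK A * P).map φ = (P.map φ).transpose * ((toK A).map φ) * (P.map φ) := by
      rw [Matrix.map_mul, Matrix.map_mul, Matrix.transpose_map]
    have h2 : qf ((P.transpose * toK A * P).map φ) ![u, v, 1] = 0 := by
      rw [hPd]
      have h3 : qf ((diagonal ![c * a, c * b, -c]).map φ) ![u, v, 1] =
          φ c * (φ a * u ^ 2 + φ b * v ^ 2 - 1) := by
        simp [qf, Fin.sum_univ_three, Matrix.diagonal]
        ring
      rw [h3, hΩ.conic]
      ring
    rw [h1, ← qf_mulVec, ← hz, hzs, qf_smul] at h2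
    exact (mul_eq_zero.1 h2).resolve_left (pow_ne_zero 2 hz2)
  have hkcl : ∀ w : Ω, IsAlgebraic K2 w → w ∈ Set.range (algebraMap K2 Ω) :=
    fun w hw => conic_kcl a b ha hb u v hΩ w hw
  refine ⟨Ω, i1, i2, i3, i4, z 0 / z 2, z 1 / z 2, ⟨key2, ?_, hkcl, ?_, ?_, ?_⟩⟩
  · intro B hB h
    have h1 := key B h
    have hBs : (P.transpose * B * P).IsSymm := by
      unfold Matrix.IsSymm
      rw [transpose_mul, transpose_mul, transpose_transpose, hB.eq, Matrix.mul_assoc]
    obtain ⟨l, hl⟩ := prop_diag a b ha hb u v hΩ _ hBs h1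
    refine ⟨l / c, ?_⟩
    have h2 : P.transpose * B * P = P.transpose * ((l / c) • toK A) * P := by
      rw [hl, Matrix.mul_smul, Matrix.smul_mul, hPd]
      ext i j
      fin_cases i <;> fin_cases j <;> simp [Matrix.diagonal] <;> field_simp
    have hPu : IsUnit P := (Matrix.isUnit_iff_isUnit_det P).2 (isUnit_iff_ne_zero.2 hP)
    have hPt : IsUnit P.transpose := (Matrix.isUnit_iff_isUnit_det _).2 (by
      rw [det_transpose]; exact isUnit_iff_ne_zero.2 hP)
    have h3 := hPu.mul_right_cancel h2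
    exact hPt.mul_left_cancel h3
  · refine conic_indep _ (fun hw => ?_)
    obtain ⟨k, hk⟩ := hkcl _ hw
    have h1 : z 0 = φ k * z 2 := by
      rw [hφ, hk]; field_simp
    rw [hzi, hzi] at h1
    have h2 := indep3 a b ha hb u v hΩ (fun j => P 0 j - k * P 2 j) (by
      simp only [map_sub, map_mul, ← hφ]
      linear_combination h1)
    apply hP
    rw [det_fin_three]
    have e0 := congrFun h2 0
    have e1 := congrFun h2 1
    have e2 := congrFun h2 2
    simp only [Pi.zero_apply, sub_eq_zero] at e0 e1 e2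
    rw [e0, e1, e2]
    ring
  · exact fun g => conic_dep a b ha hb u v hΩ g
  · exact fun S σ hσ z' hz' h => critU a b ha hb u v hΩ S σ hσ z' hz' h

end Pool.Agent.Lib.MP_2095a9_ag.T2
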