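import Pool.Agent.Lib.MP_2095a9_ag.T2.Defs

set_option autoImplicit false

namespace Pool.Agent.Lib.MP_2095a9_ag.T2

open MvPolynomial

namespace V4aux

lemma monomial_two (m : Fin 2 →₀ ℕ) (c : ℂ) :
    (monomial m c : R2) = C c * X 0 ^ (m 0) * X 1 ^ (m 1) := by
  rw [monomial_eq, Finsupp.prod_fintype _ _ (fun i => pow_zero _), Fin.prod_univ_two, mul_assoc]

lemma taylor_mono {E : Type*} [Field E] [Algebra ℂ E] (c : ℂ) (i j : ℕ) (hij : i + j ≤ 3)
    (x y a b : E) :
    aeval ![x + a, y + b] (C c * X 0 ^ i * X 1 ^ j : R2) =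
      aeval ![x, y] (C c * X 0 ^ i * X 1 ^ j : R2)
      + (a * aeval ![x, y] (pderiv 0 (C c * X 0 ^ i * X 1 ^ j : R2))
        + b * aeval ![x, y] (pderiv 1 (C c * X 0 ^ i * X 1 ^ j : R2)))
      + (a ^ 2 * aeval ![x, y] (pderiv 0 (pderiv 0 (C c * X 0 ^ i * X 1 ^ j : R2)))
        + 2 * a * b * aeval ![x, y] (pderiv 0 (pderiv 1 (C c * X 0 ^ i * X 1 ^ j : R2)))
        + b ^ 2 * aeval ![x, y] (pderiv 1 (pderiv 1 (C c * X 0 ^ i * X 1 ^ j : R2)))) / 2
      + (a ^ 3 * aeval ![x, y] (pderiv 0 (pderiv 0 (pderiv 0 (C c * X 0 ^ i * X 1 ^ j : R2))))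
        + 3 * a ^ 2 * b *
          aeval ![x, y] (pderiv 0 (pderiv 0 (pderiv 1 (C c * X 0 ^ i * X 1 ^ j : R2))))
        + 3 * a * b ^ 2 *
          aeval ![x, y] (pderiv 0 (pderiv 1 (pderiv 1 (C c * X 0 ^ i * X 1 ^ j : R2))))
        + b ^ 3 *
          aeval ![x, y] (pderiv 1 (pderiv 1 (pderiv 1 (C c * X 0 ^ i * X 1 ^ j : R2))))) / 6 := by
  have : CharZero E := charZero_of_injective_algebraMap (algebraMap ℂ E).injective
  have h01 : pderiv (0 : Fin 2) (X 1 : R2) = 0 := pderiv_X_of_ne (by decide)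
  have h10 : pderiv (1 : Fin 2) (X 0 : R2) = 0 := pderiv_X_of_ne (by decide)
  have k2 : ∀ i : Fin 2, pderiv i (2 : R2) = 0 := fun i => by
    have : (2 : R2) = C 2 := (map_ofNat C 2).symm
    rw [this, pderiv_C]
  have k3 : ∀ i : Fin 2, pderiv i (3 : R2) = 0 := fun i => by
    have : (3 : R2) = C 3 := (map_ofNat C 3).symm
    rw [this, pderiv_C]
  have hi : i ≤ 3 := by omega
  have hj : j ≤ 3 := by omega
  have h2 : (2 : E) ≠ 0 := two_ne_zero
  have h3 : (3 : E) ≠ 0 := three_ne_zero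
  have h6 : (6 : E) = 2 * 3 := by norm_num
  rw [h6]
  interval_cases i <;> interval_cases j <;> first
    | omega
    | (simp [pderiv_mul, pderiv_pow, h01, h10, k2, k3]; try (field_simp; try ring))

/-- the Taylor formula as a property of `f` -/
def Good {E : Type*} [Field E] [Algebra ℂ E] (x y a b : E) (f : R2) : Prop :=
    aeval ![x + a, y + b] f = aeval ![x, y] f
      + (a * aeval ![x, y] (pderiv 0 f) + b * aeval ![x, y] (pderiv 1 f))
      + (a ^ 2 * aeval ![x, y] (pderiv 0 (pderiv 0 f))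
        + 2 * a * b * aeval ![x, y] (pderiv 0 (pderiv 1 f))
        + b ^ 2 * aeval ![x, y] (pderiv 1 (pderiv 1 f))) / 2
      + (a ^ 3 * aeval ![x, y] (pderiv 0 (pderiv 0 (pderiv 0 f)))
        + 3 * a ^ 2 * b * aeval ![x, y] (pderiv 0 (pderiv 0 (pderiv 1 f)))
        + 3 * a * b ^ 2 * aeval ![x, y] (pderiv 0 (pderiv 1 (pderiv 1 f)))
        + b ^ 3 * aeval ![x, y] (pderiv 1 (pderiv 1 (pderiv 1 f)))) / 6

end V4aux

open V4aux

theorem taylor_three {E : Type*} [Field E] [Algebra ℂ E] (f : R2) (hf : f.totalDegree ≤ 3)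
    (x y a b : E) :
    aeval ![x + a, y + b] f = aeval ![x, y] f
      + (a * aeval ![x, y] (pderiv 0 f) + b * aeval ![x, y] (pderiv 1 f))
      + (a ^ 2 * aeval ![x, y] (pderiv 0 (pderiv 0 f))
        + 2 * a * b * aeval ![x, y] (pderiv 0 (pderiv 1 f))
        + b ^ 2 * aeval ![x, y] (pderiv 1 (pderiv 1 f))) / 2
      + (a ^ 3 * aeval ![x, y] (pderiv 0 (pderiv 0 (pderiv 0 f)))
        + 3 * a ^ 2 * b * aeval ![x, y] (pderiv 0 (pderiv 0 (pderiv 1 f)))
        + 3 * a * b ^ 2 * aeval ![x, y] (pderiv 0 (pderiv 1 (pderiv 1 f)))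
        + b ^ 3 * aeval ![x, y] (pderiv 1 (pderiv 1 (pderiv 1 f)))) / 6 := by
  have key : Good x y a b (∑ m ∈ f.support, monomial m (coeff m f)) := by
    refine Finset.sum_induction _ (Good x y a b) ?_ ?_ ?_
    · intro g h hg hh
      unfold Good at *
      simp only [map_add]
      rw [hg, hh]
      ring
    · unfold Good
      simp
    · intro m hm
      unfold Good
      rw [monomial_two]
      refine taylor_mono _ _ _ ?_ x y a b
      have h1 := (le_totalDegree hm).trans hf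
      rwa [Finsupp.sum_fintype _ _ (fun _ => rfl), Fin.sum_univ_two] at h1
  rw [f.support_sum_monomial_coeff] at key
  exact key

end Pool.Agent.Lib.MP_2095a9_ag.T2
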