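import Pool.Agent.Lib.MP_2095a9_ag.T2.V4

set_option autoImplicit false

/-!
Module V5: the third intersection point of the tangent line.
-/

namespace Pool.Agent.Lib.MP_2095a9_ag.T2

open MvPolynomial

namespace V5aux

theorem ev_eq {Ω : Type} [Field Ω] [Algebra ℂ Ω] [Algebra K2 Ω] [IsScalarTower ℂ K2 Ω]
    (f : R2) : aeval ![co Ω 0, co Ω 1] f = algebraMap K2 Ω (algebraMap R2 K2 f) := by
  have h : (aeval ![co Ω 0, co Ω 1] : R2 →ₐ[ℂ] Ω) =
      (IsScalarTower.toAlgHom ℂ K2 Ω).comp (IsScalarTower.toAlgHom ℂ R2 K2) := by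
    refine MvPolynomial.algHom_ext fun i => ?_
    fin_cases i
    · simp [co]
    · simp [co]
  rw [h]
  rfl

theorem gv_eq {Ω : Type} [Field Ω] [Algebra ℂ Ω] [Algebra K2 Ω] [IsScalarTower ℂ K2 Ω]
    (s t : Ω) (B : Matrix (Fin 3) (Fin 3) R2) :
    gv s t B = ∑ i, ∑ j, aeval ![co Ω 0, co Ω 1] (B i j) *
      ((![s, t, 1] : Fin 3 → Ω) i * (![s, t, 1] : Fin 3 → Ω) j) := by
  simp only [gv, qf, toK, Matrix.map_apply, ev_eq]

end V5aux

theorem tangent_formula {Ω : Type} [Field Ω] [Algebra ℂ Ω] [Algebra K2 Ω]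
    [IsScalarTower ℂ K2 Ω] (A : Matrix (Fin 3) (Fin 3) R2)
    (hdeg : ∀ i j, (A i j).totalDegree ≤ 3) (s t η : Ω) :
    qf (evM A (co Ω 0 + η * gv s t (dM 1 A)) (co Ω 1 - η * gv s t (dM 0 A))) ![s, t, 1] =
      gv s t A + η ^ 2 * hh s t A / 2 + η ^ 3 * gg s t A / 6 := by
  have key : ∀ a b : Ω,
      qf (evM A (co Ω 0 + a) (co Ω 1 + b)) ![s, t, 1] =
        gv s t A + (a * gv s t (dM 0 A) + b * gv s t (dM 1 A))
        + (a ^ 2 * gv s t (dM 0 (dM 0 A)) + 2 * a * b * gv s t (dM 0 (dM 1 A))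
          + b ^ 2 * gv s t (dM 1 (dM 1 A))) / 2
        + (a ^ 3 * gv s t (dM 0 (dM 0 (dM 0 A)))
          + 3 * a ^ 2 * b * gv s t (dM 0 (dM 0 (dM 1 A)))
          + 3 * a * b ^ 2 * gv s t (dM 0 (dM 1 (dM 1 A)))
          + b ^ 3 * gv s t (dM 1 (dM 1 (dM 1 A)))) / 6 := by
    intro a b
    simp only [V5aux.gv_eq, qf, evM, dM, Matrix.map_apply]
    simp only [taylor_three _ (hdeg _ _)]
    simp only [Finset.mul_sum, ← Finset.sum_add_distrib, Finset.sum_div]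
    refine Finset.sum_congr rfl fun i _ => ?_
    refine Finset.sum_congr rfl fun j _ => ?_
    ring
  rw [sub_eq_add_neg, key, hh, gg]
  ring

end Pool.Agent.Lib.MP_2095a9_ag.T2
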