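import Pool.Agent.Lib.MP_2095a9_ag.T2.Defs

set_option autoImplicit false

/-!
Module V6: derivations of a field of characteristic zero with prescribed values on an
algebraically independent family, and vanishing on algebraic elements.
-/

namespace Pool.Agent.Lib.MP_2095a9_ag.T2

open MvPolynomial TensorProduct

namespace V6aux

/-- a derivation extends along a formally etale algebra -/
theorem extend_der {k S Ω : Type*} [CommRing k] [CommRing S] [CommRing Ω] [Algebra k S]
    [Algebra k Ω] [Algebra S Ω] [IsScalarTower k S Ω] [Algebra.FormallyEtale S Ω]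
    (D0 : Derivation k S Ω) :
    ∃ D : Derivation k Ω Ω, ∀ s : S, D (algebraMap S Ω s) = D0 s := by
  refine ⟨((D0.liftKaehlerDifferential.liftBaseChange Ω).comp
    (KaehlerDifferential.tensorKaehlerEquivOfFormallyEtale k S Ω).symm.toLinearMap).compDer
      (KaehlerDifferential.D k Ω), fun s => ?_⟩
  have h := KaehlerDifferential.tensorKaehlerEquivOfFormallyEtale_symm_D_algebraMap k S Ω s
  change (D0.liftKaehlerDifferential.liftBaseChange Ω)
    ((KaehlerDifferential.tensorKaehlerEquivOfFormallyEtale k S Ω).symm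
      (KaehlerDifferential.D k Ω (algebraMap S Ω s))) = _
  rw [h]
  simp

/-- a derivation with prescribed values on an algebraically independent family -/
theorem exists_der_of {k Ω : Type*} [Field k] [CharZero k] [Field Ω] [Algebra k Ω] {ι : Type*}
    (x : ι → Ω) (hx : AlgebraicIndependent k x) (f : ι → Ω) :
    ∃ D : Derivation k Ω Ω, ∀ i, D (x i) = f i := by
  classical
  have hs : AlgebraicIndepOn k id (Set.range x) := hx.to_subtype_range
  obtain ⟨B, hB1, hB2⟩ := exists_isTranscendenceBasis_superset hs
  have hxinj := hx.injective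
  let algS : Algebra (MvPolynomial B k) Ω :=
    (aeval (fun b : B => (b : Ω)) : MvPolynomial B k →ₐ[k] Ω).toRingHom.toAlgebra
  have tower : IsScalarTower k (MvPolynomial B k) Ω := by
    refine IsScalarTower.of_algebraMap_eq fun r => ?_
    exact ((aeval (fun b : B => (b : Ω)) : MvPolynomial B k →ₐ[k] Ω).commutes r).symm
  have hinj : Function.Injective (algebraMap (MvPolynomial B k) Ω) :=
    algebraicIndependent_iff_injective_aeval.1 hB2.1
  have hfs : FaithfulSMul (MvPolynomial B k) Ω := (faithfulSMul_iff_algebraMap_injective _ _).2 hinj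
  let algK : Algebra (FractionRing (MvPolynomial B k)) Ω :=
    FractionRing.liftAlgebra (MvPolynomial B k) Ω
  have tow2 : IsScalarTower (MvPolynomial B k) (FractionRing (MvPolynomial B k)) Ω :=
    FractionRing.isScalarTower_liftAlgebra _ _
  have alg1 : Algebra.IsAlgebraic (MvPolynomial B k) Ω := by
    have h1 := hB2.isAlgebraic
    refine ⟨fun a => ?_⟩
    have h2 := h1.1 a
    refine (isAlgebraic_ringHom_iff_of_comp_eq hB2.1.aevalEquiv.toRingEquiv (RingHom.id Ω)
      Function.injective_id ?_ (a := a)).1 h2
    ext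
    · simp [RingHom.algebraMap_toAlgebra]
    · simp [RingHom.algebraMap_toAlgebra]
  have alg2 : Algebra.IsAlgebraic (FractionRing (MvPolynomial B k)) Ω :=
    (IsFractionRing.comap_isAlgebraic_iff (A := MvPolynomial B k)
      (K := FractionRing (MvPolynomial B k)) (C := Ω)).1 alg1
  have cz : CharZero (FractionRing (MvPolynomial B k)) := inferInstance
  have e1 : Algebra.FormallyEtale (FractionRing (MvPolynomial B k)) Ω :=
    Algebra.FormallyEtale.of_isSeparable _ _
  have e2 : Algebra.FormallyEtale (MvPolynomial B k) (FractionRing (MvPolynomial B k)) :=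
    Algebra.FormallyEtale.of_isLocalization (nonZeroDivisors (MvPolynomial B k))
  have e3 : Algebra.FormallyEtale (MvPolynomial B k) Ω :=
    Algebra.FormallyEtale.comp _ (FractionRing (MvPolynomial B k)) _
  let g : B → Ω := fun b => if h : ∃ i, x i = (b : Ω) then f h.choose else 0
  obtain ⟨D, hD⟩ := extend_der (mkDerivation k g : Derivation k (MvPolynomial B k) Ω)
  refine ⟨D, fun i => ?_⟩
  have hi : x i ∈ B := hB1 ⟨i, rfl⟩
  have h1 := hD (X ⟨x i, hi⟩)
  rw [mkDerivation_X] at h1
  have h2 : algebraMap (MvPolynomial B k) Ω (X ⟨x i, hi⟩) = x i := by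
    change aeval (fun b : B => (b : Ω)) (X (⟨x i, hi⟩ : B)) = x i
    simp
  rw [h2] at h1
  rw [h1]
  have h3 : ∃ j, x j = ((⟨x i, hi⟩ : B) : Ω) := ⟨i, rfl⟩
  simp only [g]
  rw [dif_pos h3]
  exact congrArg f (hxinj h3.choose_spec)

/-- in characteristic zero a derivation over `T` kills the elements algebraic over `T` -/
theorem der_eq_zero {T Ω : Type*} [CommRing T] [IsDomain T] [CharZero T] [Field Ω]
    [Algebra T Ω] [FaithfulSMul T Ω] (D : Derivation T Ω Ω) {w : Ω} (hw : IsAlgebraic T w) :
    D w = 0 := by
  by_contra hne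
  obtain ⟨p, hp0, hp⟩ := hw
  have key : ∀ n : ℕ, ∀ q : Polynomial T, q.natDegree = n → q ≠ 0 →
      Polynomial.aeval w q ≠ 0 := by
    intro n
    induction n using Nat.strong_induction_on with
    | _ n ih =>
      intro q hq hq0 hqw
      have h1 := congrArg D hqw
      rw [Derivation.map_aeval, map_zero, smul_eq_mul] at h1
      have h2 : Polynomial.aeval w (Polynomial.derivative q) = 0 :=
        (mul_eq_zero.1 h1).resolve_right hne
      by_cases hd : q.natDegree = 0
      · rw [Polynomial.eq_C_of_natDegree_eq_zero hd, Polynomial.aeval_C,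
          FaithfulSMul.algebraMap_eq_zero_iff] at hqw
        apply hq0
        rw [Polynomial.eq_C_of_natDegree_eq_zero hd, hqw, Polynomial.C_0]
      · have h3 : Polynomial.derivative q ≠ 0 := by
          intro h
          exact hd (Polynomial.derivative_eq_zero.1 h)
        exact ih _ (hq ▸ Polynomial.natDegree_derivative_lt hd) _ rfl h3 h2
  exact key _ p rfl hp0 hp

/-- the last element of a family is algebraic over the others when independence fails -/
theorem isAlg_of_not {k Ω : Type*} [Field k] [Field Ω] [Algebra k Ω] (s t w : Ω)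
    (hst : AlgebraicIndependent k ![s, t]) (hw : ¬ AlgebraicIndependent k ![s, t, w]) :
    IsAlgebraic (Algebra.adjoin k (Set.range ![s, t])) w := by
  by_contra h
  apply hw
  have h1 := (hst.option_iff_transcendental w).2 h
  have h2 : (fun o : Option (Fin 2) => o.elim w ![s, t]) ∘ (finSuccEquivLast : Fin 3 ≃ _) =
      ![s, t, w] := by
    funext i
    fin_cases i <;> simp [finSuccEquivLast] <;> rfl
  rw [← h2]
  exact (algebraicIndependent_equiv finSuccEquivLast).2 h1

end V6aux

theorem exists_der {Ω : Type} [Field Ω] [Algebra ℂ Ω] (s t x y : Ω)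
    (h : AlgebraicIndependent ℂ ![x, y, s]) :
    ∃ D : Derivation ℂ Ω Ω, D s = 0 ∧ D t = 0 ∧ (D x ≠ 0 ∨ D y ≠ 0) := by
  obtain ⟨D1, hD1⟩ := V6aux.exists_der_of ![x, y, s] h ![1, 0, 0]
  obtain ⟨D2, hD2⟩ := V6aux.exists_der_of ![x, y, s] h ![0, 1, 0]
  have a1 : D1 x = 1 := by simpa using hD1 0
  have a2 : D1 y = 0 := by simpa using hD1 1
  have a3 : D1 s = 0 := by simpa using hD1 2
  have b1 : D2 x = 0 := by simpa using hD2 0
  have b2 : D2 y = 1 := by simpa using hD2 1
  have b3 : D2 s = 0 := by simpa using hD2 2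
  by_cases h1 : D1 t = 0
  · exact ⟨D1, a3, h1, Or.inl (by rw [a1]; exact one_ne_zero)⟩
  · refine ⟨D2 t • D1 - D1 t • D2, ?_, ?_, Or.inr ?_⟩
    · simp [a3, b3]
    · simp only [Derivation.sub_apply, Derivation.smul_apply, smul_eq_mul]
      ring
    · simp [a2, b2, h1]

theorem der_alg {Ω : Type} [Field Ω] [Algebra ℂ Ω] (D : Derivation ℂ Ω Ω) (s t w : Ω)
    (hs : D s = 0) (ht : D t = 0) (hst : AlgebraicIndependent ℂ ![s, t])
    (hw : ¬ AlgebraicIndependent ℂ ![s, t, w]) : D w = 0 := by
  have h1 := V6aux.isAlg_of_not s t w hst hw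
  have hT : ∀ c ∈ Algebra.adjoin ℂ (Set.range ![s, t]), D c = 0 := by
    intro c hc
    induction hc using Algebra.adjoin_induction with
    | mem x hx =>
      obtain ⟨i, rfl⟩ := hx
      fin_cases i
      · exact hs
      · exact ht
    | algebraMap r => exact D.map_algebraMap r
    | add x y _ _ hx hy => rw [map_add, hx, hy, add_zero]
    | mul x y _ _ hx hy => rw [D.leibniz, hx, hy, smul_zero, smul_zero, add_zero]
  let D' : Derivation (Algebra.adjoin ℂ (Set.range ![s, t])) Ω Ω :=
    { toFun := D
      map_add' := fun a b => map_add D a b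
      map_smul' := fun c a => by
        change D ((c : Ω) * a) = (c : Ω) * D a
        rw [D.leibniz, hT _ c.2, smul_zero, add_zero, smul_eq_mul]
      map_one_eq_zero' := by
        change D 1 = 0
        exact D.map_one_eq_zero
      leibniz' := fun a b => D.leibniz a b }
  have cz : CharZero (Algebra.adjoin ℂ (Set.range ![s, t])) :=
    charZero_of_injective_algebraMap (algebraMap ℂ _).injective
  have h2 : D' w = 0 := V6aux.der_eq_zero D' h1
  exact h2

end Pool.Agent.Lib.MP_2095a9_ag.T2
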