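import Pool.Agent.Lib.MP_2095a9_ag.T2.Defs

set_option autoImplicit false

/-!
Module V7: chain rule for the value of a quadratic form with polynomial coefficients.
-/

namespace Pool.Agent.Lib.MP_2095a9_ag.T2

open MvPolynomial

namespace V7aux

theorem der_poly {Ω : Type} [Field Ω] [Algebra ℂ Ω] [Algebra K2 Ω] [IsScalarTower ℂ K2 Ω]
    (D : Derivation ℂ Ω Ω) (f : R2) :
    D (algebraMap K2 Ω (algebraMap R2 K2 f)) =
      algebraMap K2 Ω (algebraMap R2 K2 (pderiv 0 f)) * D (co Ω 0)
        + algebraMap K2 Ω (algebraMap R2 K2 (pderiv 1 f)) * D (co Ω 1) := by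
  induction f using MvPolynomial.induction_on with
  | C a =>
    have e : algebraMap K2 Ω (algebraMap R2 K2 (C a)) = algebraMap ℂ Ω a := by
      rw [IsScalarTower.algebraMap_apply ℂ K2 Ω, IsScalarTower.algebraMap_apply ℂ R2 K2]
      rfl
    rw [e, Derivation.map_algebraMap, pderiv_C, pderiv_C]
    simp
  | add p q hp hq =>
    simp only [map_add] at *
    rw [hp, hq]
    ring
  | mul_X p i hp =>
    simp only [map_mul, Derivation.leibniz, smul_eq_mul, map_add]
    rw [hp]
    have hi : D (algebraMap K2 Ω (algebraMap R2 K2 (X i))) = D (co Ω i) := rfl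
    rw [hi]
    fin_cases i
    · simp [pderiv_X, co]
      ring
    · simp [pderiv_X, co]
      ring

end V7aux

theorem chain_rule {Ω : Type} [Field Ω] [Algebra ℂ Ω] [Algebra K2 Ω] [IsScalarTower ℂ K2 Ω]
    (D : Derivation ℂ Ω Ω) (s t : Ω) (hs : D s = 0) (ht : D t = 0)
    (B : Matrix (Fin 3) (Fin 3) R2) :
    D (gv s t B) = gv s t (dM 0 B) * D (co Ω 0) + gv s t (dM 1 B) * D (co Ω 1) := by
  have hz : ∀ i : Fin 3, D ((![s, t, 1] : Fin 3 → Ω) i) = 0 := by
    intro i
    fin_cases i
    · exact hs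
    · exact ht
    · simp
  simp only [gv, qf, toK, dM, Matrix.map_apply, map_sum, Finset.sum_mul]
  rw [← Finset.sum_add_distrib]
  refine Finset.sum_congr rfl fun i _ => ?_
  rw [← Finset.sum_add_distrib]
  refine Finset.sum_congr rfl fun j _ => ?_
  rw [Derivation.leibniz, Derivation.leibniz, hz i, hz j, V7aux.der_poly]
  simp only [smul_eq_mul]
  ring

end Pool.Agent.Lib.MP_2095a9_ag.T2
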