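import Pool.Agent.Lib.MP_2095a9_ag.T2.V7

set_option autoImplicit false

/-!
Module V8: curvature computations along the cubic curve `G(x,y;z) = 0`.
-/

namespace Pool.Agent.Lib.MP_2095a9_ag.T2

open MvPolynomial

namespace V8aux

theorem pd_comm (f : R2) : pderiv 1 (pderiv 0 f) = pderiv 0 (pderiv 1 f) := by
  ext m
  rw [coeff_pderiv, coeff_pderiv, coeff_pderiv, coeff_pderiv]
  have e : m + Finsupp.single 1 1 + Finsupp.single 0 1 =
      m + Finsupp.single 0 1 + Finsupp.single 1 1 := by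
    rw [add_assoc, add_assoc, add_comm (Finsupp.single (1 : Fin 2) 1)]
  have h0 : (m + Finsupp.single 1 1 : Fin 2 →₀ ℕ) 0 = m 0 := by
    simp
  have h1 : (m + Finsupp.single 0 1 : Fin 2 →₀ ℕ) 1 = m 1 := by
    simp
  rw [e, h0, h1]
  ring

theorem dM_comm (B : Matrix (Fin 3) (Fin 3) R2) : dM 1 (dM 0 B) = dM 0 (dM 1 B) := by
  ext1 i j
  exact pd_comm (B i j)

/-- no monomials of degree at least `d` -/
def NM (d : ℕ) (p : R2) : Prop := ∀ m : Fin 2 →₀ ℕ, d ≤ m.degree → coeff m p = 0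

theorem NM_pd {d : ℕ} {p : R2} (h : NM (d + 1) p) (i : Fin 2) : NM d (pderiv i p) := by
  intro m hm
  rw [coeff_pderiv, h, zero_mul]
  rw [map_add, Finsupp.degree_single]
  omega

theorem NM_zero {p : R2} (h : NM 0 p) : p = 0 := by
  ext m
  rw [h m (Nat.zero_le _), coeff_zero]

theorem NM_of {p : R2} {d : ℕ} (h : p.totalDegree ≤ d) : NM (d + 1) p := by
  intro m hm
  apply coeff_eq_zero_of_totalDegree_lt
  have : m.degree = ∑ i ∈ m.support, m i := rfl
  omega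

theorem fourth (A : Matrix (Fin 3) (Fin 3) R2) (hdeg : ∀ i j, (A i j).totalDegree ≤ 3)
    (a b c d : Fin 2) : dM a (dM b (dM c (dM d A))) = 0 := by
  ext1 i j
  exact NM_zero (NM_pd (NM_pd (NM_pd (NM_pd (NM_of (hdeg i j)) d) c) b) a)

variable {Ω : Type} [Field Ω] [Algebra ℂ Ω] [Algebra K2 Ω] [IsScalarTower ℂ K2 Ω]

omit [Algebra ℂ Ω] [IsScalarTower ℂ K2 Ω] in
theorem gv_zero (s t : Ω) : gv s t 0 = 0 := by
  simp [gv, qf, toK]

/-- derivation rules for the gradient and the Hessian -/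
theorem rules (A : Matrix (Fin 3) (Fin 3) R2) (D : Derivation ℂ Ω Ω) (s t : Ω) (hs : D s = 0)
    (ht : D t = 0) (h0 : gv s t A = 0) (hD : D (co Ω 0) ≠ 0 ∨ D (co Ω 1) ≠ 0)
    (hx : gv s t (dM 0 A) ≠ 0) (hy : gv s t (dM 1 A) ≠ 0) :
    ∃ ρ : Ω, ρ ≠ 0 ∧ D (co Ω 0) = ρ * gv s t (dM 1 A) ∧ D (co Ω 1) = -(ρ * gv s t (dM 0 A)) ∧
      ∀ B : Matrix (Fin 3) (Fin 3) R2, D (gv s t B) =
        ρ * (gv s t (dM 0 B) * gv s t (dM 1 A) - gv s t (dM 1 B) * gv s t (dM 0 A)) := by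
  have h1 := chain_rule D s t hs ht A
  rw [h0, map_zero] at h1
  refine ⟨D (co Ω 0) / gv s t (dM 1 A), ?_, ?_, ?_, ?_⟩
  · intro h
    rcases div_eq_zero_iff.mp h with h | h
    · rcases hD with h2 | h2
      · exact h2 h
      · rw [h, mul_zero, zero_add] at h1
        exact (mul_ne_zero hy h2) h1.symm
    · exact hy h
  · field_simp
  · field_simp
    linear_combination -h1
  · intro B
    rw [chain_rule D s t hs ht B]
    have h2 : D (co Ω 1) = -(D (co Ω 0) / gv s t (dM 1 A) * gv s t (dM 0 A)) := by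
      field_simp
      linear_combination -h1
    rw [h2]
    field_simp
    ring

omit [Algebra K2 Ω] [IsScalarTower ℂ K2 Ω] in
theorem D_num (D : Derivation ℂ Ω Ω) : D 2 = 0 ∧ D 3 = 0 := by
  constructor
  · have := D.map_natCast 2
    exact_mod_cast this
  · have := D.map_natCast 3
    exact_mod_cast this

theorem nz (Ω : Type) [Field Ω] [Algebra ℂ Ω] : (2 : Ω) ≠ 0 ∧ (3 : Ω) ≠ 0 := by
  have : CharZero Ω := charZero_of_injective_algebraMap (algebraMap ℂ Ω).injective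
  constructor
  · exact two_ne_zero
  · exact three_ne_zero

end V8aux

open V8aux

theorem curv_a {Ω : Type} [Field Ω] [Algebra ℂ Ω] [Algebra K2 Ω] [IsScalarTower ℂ K2 Ω]
    (A : Matrix (Fin 3) (Fin 3) R2) (D : Derivation ℂ Ω Ω) (s t : Ω) (hs : D s = 0)
    (ht : D t = 0) (h0 : gv s t A = 0) (hD : D (co Ω 0) ≠ 0 ∨ D (co Ω 1) ≠ 0)
    (hx : gv s t (dM 0 A) ≠ 0) (hy : gv s t (dM 1 A) ≠ 0) (θ : Ω) (hθ : θ ≠ 0)
    (e1 : D (co Ω 0 + θ * gv s t (dM 1 A)) = 0)
    (e2 : D (co Ω 1 - θ * gv s t (dM 0 A)) = 0) : hh s t A = 0 := by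
  obtain ⟨ρ, hρ, ha, hb, hB⟩ := rules A D s t hs ht h0 hD hx hy
  rw [map_add, D.leibniz, ha, smul_eq_mul, smul_eq_mul] at e1
  rw [map_sub, D.leibniz, hb, smul_eq_mul, smul_eq_mul] at e2
  have h1 := hB (dM 0 A)
  have h2 := hB (dM 1 A)
  rw [dM_comm] at h1
  have h3 : θ * ρ * hh s t A = 0 := by
    unfold hh
    rw [h1] at e2
    rw [h2] at e1
    linear_combination (-gv s t (dM 0 A)) * e1 + (-gv s t (dM 1 A)) * e2
  exact (mul_eq_zero.mp h3).resolve_left (mul_ne_zero hθ hρ)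

theorem curv_b {Ω : Type} [Field Ω] [Algebra ℂ Ω] [Algebra K2 Ω] [IsScalarTower ℂ K2 Ω]
    (A : Matrix (Fin 3) (Fin 3) R2) (hdeg : ∀ i j, (A i j).totalDegree ≤ 3)
    (D : Derivation ℂ Ω Ω) (s t : Ω) (hs : D s = 0)
    (ht : D t = 0) (h0 : gv s t A = 0) (hD : D (co Ω 0) ≠ 0 ∨ D (co Ω 1) ≠ 0)
    (hx : gv s t (dM 0 A) ≠ 0) (hy : gv s t (dM 1 A) ≠ 0)
    (hg : gg s t A = 0) (hh' : hh s t A ≠ 0) :
    gv s t (dM 0 (dM 0 (dM 0 A))) = 0 ∧ gv s t (dM 0 (dM 0 (dM 1 A))) = 0 ∧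
      gv s t (dM 0 (dM 1 (dM 1 A))) = 0 ∧ gv s t (dM 1 (dM 1 (dM 1 A))) = 0 := by
  obtain ⟨ρ, hρ, -, -, hB⟩ := rules A D s t hs ht h0 hD hx hy
  obtain ⟨h2, h3⟩ := nz Ω
  have hc : ∀ a b c : Fin 2, D (gv s t (dM a (dM b (dM c A)))) = 0 := by
    intro a b c
    rw [hB, fourth A hdeg, fourth A hdeg, gv_zero]
    ring
  have d0 := hc 0 0 0
  have d1 := hc 0 0 1
  have d2 := hc 0 1 1
  have d3 := hc 1 1 1
  have hp := hB (dM 0 A)
  have hq := hB (dM 1 A)
  rw [dM_comm] at hp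
  have hdet : D (gv s t (dM 0 A)) * gv s t (dM 1 A) - D (gv s t (dM 1 A)) * gv s t (dM 0 A) =
      ρ * hh s t A := by
    rw [hp, hq, hh]
    ring
  have hdet0 : D (gv s t (dM 0 A)) * gv s t (dM 1 A) - D (gv s t (dM 1 A)) * gv s t (dM 0 A) ≠
      0 := by
    rw [hdet]
    exact mul_ne_zero hρ hh'
  unfold gg at hg
  generalize gv s t (dM 0 (dM 0 (dM 0 A))) = t0 at *
  generalize gv s t (dM 0 (dM 0 (dM 1 A))) = t1 at *
  generalize gv s t (dM 0 (dM 1 (dM 1 A))) = t2 at *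
  generalize gv s t (dM 1 (dM 1 (dM 1 A))) = t3 at *
  generalize gv s t (dM 0 A) = p at *
  generalize gv s t (dM 1 A) = q at *
  -- the linear algebra step
  have key : ∀ U W : Ω, q * U - p * W = 0 → D q * U - D p * W = 0 → U = 0 ∧ W = 0 := by
    intro U W e1 e2
    constructor
    · have : (D p * q - D q * p) * U = 0 := by linear_combination D p * e1 - p * e2
      exact (mul_eq_zero.mp this).resolve_left hdet0
    · have : (D p * q - D q * p) * W = 0 := by linear_combination D q * e1 - q * e2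
      exact (mul_eq_zero.mp this).resolve_left hdet0
  -- first step
  have s1 : t0 * q ^ 2 - 2 * t1 * q * p + t2 * p ^ 2 = 0 ∧
      t1 * q ^ 2 - 2 * t2 * q * p + t3 * p ^ 2 = 0 := by
    apply key
    · linear_combination hg
    · have h := congrArg D hg
      simp only [map_add, map_sub, D.leibniz, D.leibniz_pow, smul_eq_mul, map_zero, d0, d1, d2,
        d3, (D_num D).1, (D_num D).2, nsmul_eq_mul] at h
      push_cast at h
      apply mul_left_cancel₀ h3
      linear_combination h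
  obtain ⟨u1, u2⟩ := s1
  have s2 : t0 * q - t1 * p = 0 ∧ t1 * q - t2 * p = 0 := by
    apply key
    · linear_combination u1
    · have h := congrArg D u1
      simp only [map_add, map_sub, D.leibniz, D.leibniz_pow, smul_eq_mul, map_zero, d0, d1, d2,
        d3, (D_num D).1, (D_num D).2, nsmul_eq_mul] at h
      push_cast at h
      apply mul_left_cancel₀ h2
      linear_combination h
  have s3 : t1 * q - t2 * p = 0 ∧ t2 * q - t3 * p = 0 := by
    apply key
    · linear_combination u2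
    · have h := congrArg D u2
      simp only [map_add, map_sub, D.leibniz, D.leibniz_pow, smul_eq_mul, map_zero, d0, d1, d2,
        d3, (D_num D).1, (D_num D).2, nsmul_eq_mul] at h
      push_cast at h
      apply mul_left_cancel₀ h2
      linear_combination h
  have fin : ∀ a b : Ω, D a = 0 → D b = 0 → a * q - b * p = 0 → a = 0 ∧ b = 0 := by
    intro a b ha hb hab
    apply key
    · linear_combination hab
    · have h := congrArg D hab
      simp only [map_sub, D.leibniz, smul_eq_mul, map_zero, ha, hb] at h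
      linear_combination h
  exact ⟨(fin t0 t1 d0 d1 s2.1).1, (fin t0 t1 d0 d1 s2.1).2, (fin t2 t3 d2 d3 s3.2).1,
    (fin t2 t3 d2 d3 s3.2).2⟩

theorem curv_c {Ω : Type} [Field Ω] [Algebra ℂ Ω] [Algebra K2 Ω] [IsScalarTower ℂ K2 Ω]
    (A : Matrix (Fin 3) (Fin 3) R2) (D : Derivation ℂ Ω Ω) (s t : Ω) (hs : D s = 0)
    (ht : D t = 0) (h0 : gv s t A = 0) (hD : D (co Ω 0) ≠ 0 ∨ D (co Ω 1) ≠ 0)
    (hx : gv s t (dM 0 A) ≠ 0) (hy : gv s t (dM 1 A) ≠ 0)
    (hh' : hh s t A = 0) : gg s t A = 0 := by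
  obtain ⟨ρ, hρ, -, -, hB⟩ := rules A D s t hs ht h0 hD hx hy
  have hp := hB (dM 0 A)
  have hq := hB (dM 1 A)
  have hxx := hB (dM 0 (dM 0 A))
  have hxy := hB (dM 0 (dM 1 A))
  have hyy := hB (dM 1 (dM 1 A))
  rw [dM_comm] at hp
  rw [dM_comm, dM_comm A] at hxx
  rw [dM_comm] at hxy
  have h := congrArg D hh'
  unfold hh at h
  simp only [map_add, map_sub, D.leibniz, D.leibniz_pow, smul_eq_mul, map_zero,
    (D_num D).1, (D_num D).2, nsmul_eq_mul] at h
  push_cast at h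
  rw [hxx, hxy, hyy, hp, hq] at h
  have h3 : ρ * gg s t A = 0 := by
    unfold gg
    linear_combination h
  exact (mul_eq_zero.mp h3).resolve_left hρ

end Pool.Agent.Lib.MP_2095a9_ag.T2
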