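import Pool.Agent.Lib.MP_2095a9_ag.T2.Defs

set_option autoImplicit false

/-!
Module V9: coprime entries have only finitely many common zeros.
-/

namespace Pool.Agent.Lib.MP_2095a9_ag.T2

open MvPolynomial

namespace V9aux

/-- the plane has dimension two: a prime ideal which contains strictly a nonzero prime ideal is
maximal -/
theorem maximal_of_lt (P I : Ideal R2) (hP : P.IsPrime) (hI : I.IsPrime) (h0 : P ≠ ⊥)
    (h : P < I) : I.IsMaximal := by
  obtain ⟨M, hM, hIM⟩ := Ideal.exists_le_maximal I hI.ne_top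
  rcases hIM.eq_or_lt with rfl | hlt
  · exact hM
  exfalso
  let f : Fin 4 → PrimeSpectrum R2 :=
    ![⟨⊥, Ideal.isPrime_bot⟩, ⟨P, hP⟩, ⟨I, hI⟩, ⟨M, hM.isPrime⟩]
  have hf : StrictMono f := by
    rw [Fin.strictMono_iff_lt_succ]
    intro i
    fin_cases i
    · show (⊥ : Ideal R2) < P
      exact bot_lt_iff_ne_bot.mpr h0
    · exact h
    · exact hlt
  have h1 := Order.LTSeries.length_le_krullDim (LTSeries.mk 3 f hf)
  have h2 : ringKrullDim R2 = 2 := by
    have h3 := MvPolynomial.ringKrullDim_of_isNoetherianRing (R := ℂ) (ι := Fin 2)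
    rw [ringKrullDim_eq_zero_of_field, Nat.card_fin] at h3
    rw [h3]
    rfl
  change ((3 : ℕ) : WithBot ℕ∞) ≤ ringKrullDim R2 at h1
  rw [h2] at h1
  exact absurd h1 (by decide)

end V9aux

theorem coprim_zero (A : Matrix (Fin 3) (Fin 3) R2) (hA : Coprim A) {E : Type*} [Field E]
    [Algebra ℂ E] (p q : E) (h : evM A p q = 0) : IsAlgebraic ℂ p ∧ IsAlgebraic ℂ q := by
  set f : R2 →ₐ[ℂ] E := aeval ![p, q] with hf
  set I : Ideal R2 := RingHom.ker f with hIdef
  have hI : I.IsPrime := RingHom.ker_isPrime _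
  have hmem : ∀ i j, A i j ∈ I := by
    intro i j
    rw [hIdef, RingHom.mem_ker]
    exact congrFun (congrFun h i) j
  have hne : I ≠ ⊥ := by
    intro h0
    have h1 : ∀ i j, (0 : R2) ∣ A i j := by
      intro i j
      have h2 := hmem i j
      rw [h0, Ideal.mem_bot] at h2
      rw [h2]
    exact not_isUnit_zero (hA 0 h1)
  obtain ⟨φ, hφI, hφ⟩ := hI.exists_mem_prime_of_ne_bot hne
  have hP : (Ideal.span {φ}).IsPrime := (Ideal.span_singleton_prime hφ.ne_zero).mpr hφ
  have hlt : Ideal.span {φ} < I := by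
    refine lt_of_le_of_ne ((Ideal.span_singleton_le_iff_mem _).mpr hφI) fun he => ?_
    apply hφ.not_isUnit
    apply hA φ
    intro i j
    have := hmem i j
    rwa [← he, Ideal.mem_span_singleton] at this
  have hmax : I.IsMaximal := V9aux.maximal_of_lt _ _ hP hI (by
    rw [Ne, Ideal.span_singleton_eq_bot]
    exact hφ.ne_zero) hlt
  let : Field (R2 ⧸ I) := Ideal.Quotient.field I
  have hfin : Module.Finite ℂ (R2 ⧸ I) := finite_of_finite_type_of_isJacobsonRing ℂ (R2 ⧸ I)
  let g : R2 ⧸ I →ₐ[ℂ] E := Ideal.Quotient.liftₐ I f (fun a ha => ha)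
  have hg : ∀ x : R2, g (Ideal.Quotient.mk I x) = f x := fun x => rfl
  have halg : ∀ x : R2, IsAlgebraic ℂ (f x) := by
    intro x
    have h1 : IsAlgebraic ℂ (Ideal.Quotient.mk I x) := Algebra.IsAlgebraic.isAlgebraic _
    have h2 := h1.algHom g
    rwa [hg] at h2
  have e0 : f (X 0) = p := by
    rw [hf, aeval_X]; rfl
  have e1 : f (X 1) = q := by
    rw [hf, aeval_X]; rfl
  exact ⟨by rw [← e0]; exact halg _, by rw [← e1]; exact halg _⟩

end Pool.Agent.Lib.MP_2095a9_ag.T2
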