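import Pool.Agent.Lib.MP_2095a9_ag.T2.Defs

set_option autoImplicit false

/-!
Module W1 of the T2 project (problem MP_2095a9_ag): if a nonzero vector field maps the matrix `A`
to a multiple of itself, the ratios of the entries of `A` are algebraically dependent in pairs.
-/

namespace Pool.Agent.Lib.MP_2095a9_ag.T2

open MvPolynomial

namespace W1aux

/-- a derivation of `ℂ[x,y]` with values in `ℂ(x,y)` extends to `ℂ(x,y)` -/
theorem exists_ext (d : Derivation ℂ R2 K2) :
    ∃ D : Derivation ℂ K2 K2, ∀ f : R2, D (algebraMap R2 K2 f) = d f := by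
  have : Algebra.FormallyEtale R2 K2 :=
    Algebra.FormallyEtale.of_isLocalization (Rₘ := K2) (nonZeroDivisors R2)
  let φ : (Ω[R2⁄ℂ]) →ₗ[R2] K2 := d.liftKaehlerDifferential
  let ψ := LinearMap.liftBaseChange K2 φ
  let e := KaehlerDifferential.tensorKaehlerEquivOfFormallyEtale ℂ R2 K2
  refine ⟨(ψ ∘ₗ e.symm.toLinearMap).compDer (KaehlerDifferential.D ℂ K2), fun f => ?_⟩
  have h1 : e.symm (KaehlerDifferential.D ℂ K2 (algebraMap R2 K2 f)) =
      TensorProduct.tmul R2 (1 : K2) (KaehlerDifferential.D ℂ R2 f) :=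
    KaehlerDifferential.tensorKaehlerEquivOfFormallyEtale_symm_D_algebraMap ℂ R2 K2 f
  have h2 : ((ψ ∘ₗ e.symm.toLinearMap).compDer (KaehlerDifferential.D ℂ K2))
      (algebraMap R2 K2 f) = ψ (e.symm (KaehlerDifferential.D ℂ K2 (algebraMap R2 K2 f))) := rfl
  rw [h2, h1]
  simp [ψ, φ]

/-- the derivation of `ℂ(x,y)` with prescribed values at `x` and `y` -/
theorem exists_field (α β : K2) :
    ∃ D : Derivation ℂ K2 K2, ∀ f : R2, D (algebraMap R2 K2 f) =
      α * algebraMap R2 K2 (pderiv 0 f) + β * algebraMap R2 K2 (pderiv 1 f) := by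
  obtain ⟨D, hD⟩ := exists_ext
    ((LinearMap.toSpanSingleton R2 K2 α).compDer (pderiv 0) +
      (LinearMap.toSpanSingleton R2 K2 β).compDer (pderiv 1))
  refine ⟨D, fun f => ?_⟩
  rw [hD]
  have h1 : ((LinearMap.toSpanSingleton R2 K2 α).compDer (pderiv 0) +
      (LinearMap.toSpanSingleton R2 K2 β).compDer (pderiv 1)) f =
      pderiv 0 f • α + pderiv 1 f • β := rfl
  rw [h1, Algebra.smul_def, Algebra.smul_def, mul_comm α, mul_comm β]

/-- a derivation which vanishes on `r` and `r'` vanishes on everything if `r,r'` is a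
transcendence basis -/
theorem der_zero (D : Derivation ℂ K2 K2) (r r' : K2) (h : AlgebraicIndependent ℂ ![r, r'])
    (h0 : D r = 0) (h1 : D r' = 0) (w : K2) : D w = 0 := by
  have halg0 : Algebra.IsAlgebraic R2 K2 :=
    (IsFractionRing.comap_isAlgebraic_iff (A := R2) (K := K2) (C := K2)).mpr inferInstance
  have hb2 : IsTranscendenceBasis ℂ (algebraMap R2 K2 ∘ (X : Fin 2 → R2)) :=
    (IsTranscendenceBasis.mvPolynomial (Fin 2) ℂ).algebraMap_comp
  have htr : Cardinal.mk (Fin 2) = Algebra.trdeg ℂ K2 := hb2.cardinalMk_eq_trdeg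
  have hb : IsTranscendenceBasis ℂ ![r, r'] :=
    h.isTranscendenceBasis_of_trdeg_le_of_finite htr.symm.le
  have halg := hb.isAlgebraic_field
  set F := IntermediateField.adjoin ℂ (Set.range ![r, r']) with hF
  have hvan : ∀ x ∈ F, D x = 0 := by
    intro x hx
    induction hx using IntermediateField.adjoin_induction with
    | mem x hx =>
      obtain ⟨i, rfl⟩ := hx
      fin_cases i
      · exact h0
      · exact h1
    | algebraMap x => exact D.map_algebraMap x
    | add x y _ _ hx hy => rw [map_add, hx, hy, add_zero]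
    | inv x _ hx => rw [D.leibniz_inv, hx, smul_zero]
    | mul x y _ _ hx hy => rw [D.leibniz, hx, hy, smul_zero, smul_zero, add_zero]
  -- the derivation over `F`
  let D' : Derivation F K2 K2 := 
    { toFun := D
      map_add' := map_add D
      map_smul' := by
        intro c x
        have : c • x = (c : K2) * x := rfl
        rw [this, D.leibniz, hvan _ c.2, smul_zero, add_zero]
        rfl
      map_one_eq_zero' := D.map_one_eq_zero
      leibniz' := D.leibniz }
  have hw : IsAlgebraic F w := halg.isAlgebraic w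
  have hD' : D w = D' w := rfl
  rw [hD']
  have hint : IsIntegral F w := hw.isIntegral
  have h2 := D'.map_aeval (minpoly F w) w
  rw [minpoly.aeval, map_zero] at h2
  have hsep : (minpoly F w).Separable := (minpoly.irreducible hint).separable
  have h3 : Polynomial.aeval w (Polynomial.derivative (minpoly F w)) ≠ 0 :=
    hsep.aeval_derivative_ne_zero (minpoly.aeval F w)
  rcases smul_eq_zero.mp h2.symm with h4 | h4
  · exact absurd h4 h3
  · exact h4

end W1aux

theorem flat_ratios (A : Matrix (Fin 3) (Fin 3) R2) (h : Flat A) (i0 j0 : Fin 3)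
    (h0 : A i0 j0 ≠ 0) (i j i' j' : Fin 3) :
    ¬ AlgebraicIndependent ℂ
      ![toK A i j / toK A i0 j0, toK A i' j' / toK A i0 j0] := by
  intro hind
  obtain ⟨α, β, l, hαβ, hflat⟩ := h
  obtain ⟨D, hD⟩ := W1aux.exists_field α β
  have hDA : ∀ i j, D (toK A i j) = l * toK A i j := by
    intro i j
    have h1 := congrFun (congrFun hflat i) j
    simp only [Matrix.add_apply, Matrix.smul_apply, smul_eq_mul] at h1
    rw [← h1]
    exact hD (A i j)
  have hg : toK A i0 j0 ≠ 0 := by
    intro h1
    apply h0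
    have : algebraMap R2 K2 (A i0 j0) = 0 := h1
    exact (IsFractionRing.injective R2 K2) (by rw [this, map_zero])
  have hratio : ∀ i j, D (toK A i j / toK A i0 j0) = 0 := by
    intro i j
    have h1 : D (toK A i0 j0 * (toK A i j / toK A i0 j0)) = D (toK A i j) := by
      rw [mul_div_cancel₀ _ hg]
    rw [D.leibniz, hDA, hDA] at h1
    simp only [smul_eq_mul] at h1
    have h2 : toK A i0 j0 * D (toK A i j / toK A i0 j0) = 0 := by
      have h3 : (toK A i j / toK A i0 j0) * (l * toK A i0 j0) = l * toK A i j := by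
        field_simp
      rw [h3] at h1
      linear_combination h1
    exact (mul_eq_zero.mp h2).resolve_left hg
  have hz := W1aux.der_zero D _ _ hind (hratio i j) (hratio i' j')
  have hx := hz (algebraMap R2 K2 (X 0))
  have hy := hz (algebraMap R2 K2 (X 1))
  rw [hD] at hx hy
  simp at hx hy
  rcases hαβ with h1 | h1
  · exact h1 hx
  · exact h1 hy

end Pool.Agent.Lib.MP_2095a9_ag.T2
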