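import Pool.Agent.Lib.MP_2095a9_ag.T2.Defs

set_option autoImplicit false

/-!
MP_2095a9_ag, module W2: a subfield of transcendence degree at most one of `ℂ(x,y)` generated by
finitely many elements is contained in a simple extension of `ℂ` (Lüroth).
-/

namespace Pool.Agent.Lib.MP_2095a9_ag.T2

open MvPolynomial

namespace W2aux

/-- clearing denominators -/
theorem clear {ι A : Type} [CommRing A] [Algebra ℂ A] (d : A) (n : ι → A)
    (G : MvPolynomial ι ℂ) :
    ∃ (N : ℕ) (H : A), ∀ (E : Type) [Field E] [Algebra ℂ E] (φ : A →ₐ[ℂ] E), φ d ≠ 0 →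
      φ H = φ d ^ N * aeval (fun i => φ (n i) / φ d) G := by
  induction G using MvPolynomial.induction_on with
  | C r =>
    refine ⟨0, algebraMap ℂ A r, fun E _ _ φ hφ => ?_⟩
    rw [pow_zero, one_mul, aeval_C, AlgHom.commutes]
  | add p q hp hq =>
    obtain ⟨N1, H1, h1⟩ := hp
    obtain ⟨N2, H2, h2⟩ := hq
    refine ⟨N1 + N2, d ^ N2 * H1 + d ^ N1 * H2, fun E _ _ φ hφ => ?_⟩
    rw [map_add, map_mul, map_mul, map_pow, map_pow, h1 E φ hφ, h2 E φ hφ, map_add, pow_add]
    ring
  | mul_X p i hp =>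
    obtain ⟨N, H, h⟩ := hp
    refine ⟨N + 1, H * n i, fun E _ _ φ hφ => ?_⟩
    rw [map_mul, h E φ hφ, map_mul, aeval_X, pow_succ]
    field_simp

theorem clear1 {A : Type} [CommRing A] [Algebra ℂ A] (d n : A) (g : Polynomial ℂ) :
    ∃ (N : ℕ) (H : A), ∀ (E : Type) [Field E] [Algebra ℂ E] (φ : A →ₐ[ℂ] E), φ d ≠ 0 →
      φ H = φ d ^ N * Polynomial.aeval (φ n / φ d) g := by
  induction g using Polynomial.induction_on' with
  | add p q hp hq =>
    obtain ⟨N1, H1, h1⟩ := hp
    obtain ⟨N2, H2, h2⟩ := hq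
    refine ⟨N1 + N2, d ^ N2 * H1 + d ^ N1 * H2, fun E _ _ φ hφ => ?_⟩
    rw [map_add, map_mul, map_mul, map_pow, map_pow, h1 E φ hφ, h2 E φ hφ, map_add, pow_add]
    ring
  | monomial k a =>
    refine ⟨k, a • n ^ k, fun E _ _ φ hφ => ?_⟩
    rw [map_smul, map_pow, Polynomial.aeval_monomial, div_pow, Algebra.smul_def]
    field_simp

/-- elements algebraic over `ℂ` are constants -/
theorem const_of_alg {E : Type} [Field E] [Algebra ℂ E] (z : E) (hz : IsAlgebraic ℂ z) :
    ∃ c : ℂ, algebraMap ℂ E c = z := by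
  have h1 : (minpoly ℂ z).degree = 1 :=
    IsAlgClosed.degree_eq_one_of_irreducible ℂ (minpoly.irreducible hz.isIntegral)
  obtain ⟨c, hc⟩ := minpoly.mem_range_of_degree_eq_one ℂ z h1
  exact ⟨c, hc⟩

theorem alg_of_dep {E : Type} [Field E] [Algebra ℂ E] (a b : E) (hb : Transcendental ℂ b)
    (h : ¬ AlgebraicIndependent ℂ ![a, b]) : IsAlgebraic (Algebra.adjoin ℂ {b}) a := by
  by_contra hcon
  apply h
  rw [AlgebraicIndependent.iff_transcendental_adjoin_image (0 : Fin 2)]
  have hs : Subsingleton {j : Fin 2 // j ≠ 0} := by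
    refine ⟨fun i j => ?_⟩
    obtain ⟨i, hi⟩ := i
    obtain ⟨j, hj⟩ := j
    apply Subtype.ext
    change i = j
    omega
  refine ⟨?_, ?_⟩
  · rw [algebraicIndependent_singleton_iff (⟨1, by simp⟩ : {j : Fin 2 // j ≠ 0})]
    exact hb
  · have e1 : (![a, b] : Fin 2 → E) '' {0}ᶜ = {b} := by
      ext t
      simp only [Set.mem_image, Set.mem_compl_iff, Set.mem_singleton_iff]
      constructor
      · rintro ⟨i, hi, rfl⟩
        have hi' : i = 1 := Fin.eq_one_of_ne_zero i hi
        subst hi'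
        rfl
      · rintro rfl
        exact ⟨1, by simp, rfl⟩
    rw [e1]
    exact hcon

/-- a specialisation with one transcendental coordinate is injective when all coordinates are
algebraic over this one -/
theorem ker_eq {ι E L : Type} [Field E] [Algebra ℂ E] [Field L] [Algebra ℂ L] (r : ι → E)
    (r' : ι → L) (i0 : ι) (hspec : ∀ G : MvPolynomial ι ℂ, aeval r G = 0 → aeval r' G = 0)
    (ht : Transcendental ℂ (r' i0))
    (halg : ∀ i, IsAlgebraic (Algebra.adjoin ℂ {r i0}) (r i)) (G : MvPolynomial ι ℂ)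
    (hG : aeval r' G = 0) : aeval r G = 0 := by
  by_contra hne
  have hall : ∀ F : MvPolynomial ι ℂ, IsAlgebraic (Algebra.adjoin ℂ {r i0}) (aeval r F) := by
    intro F
    induction F using MvPolynomial.induction_on with
    | C c =>
      rw [aeval_C, IsScalarTower.algebraMap_apply ℂ (Algebra.adjoin ℂ {r i0}) E]
      exact isAlgebraic_algebraMap _
    | add p q hp hq =>
      rw [map_add]
      exact hp.add hq
    | mul_X p i hp =>
      rw [map_mul, aeval_X]
      exact hp.mul (halg i)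
  obtain ⟨q, hq0, hq⟩ := (hall G).exists_nonzero_coeff_and_aeval_eq_zero
    (mem_nonZeroDivisors_of_ne_zero hne)
  have hg : ∀ k, ∃ g : Polynomial ℂ, Polynomial.aeval (r i0) g = ((q.coeff k : _) : E) := by
    intro k
    have h1 : ∀ z : E, z ∈ Algebra.adjoin ℂ {r i0} →
        ∃ g : Polynomial ℂ, Polynomial.aeval (r i0) g = z := by
      intro z hz
      rw [Algebra.adjoin_singleton_eq_range_aeval] at hz
      exact hz
    exact h1 _ (q.coeff k).2
  choose g hg using hg
  set H : MvPolynomial ι ℂ :=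
    ∑ k ∈ Finset.range (q.natDegree + 1), Polynomial.aeval (X i0) (g k) * G ^ k with hH
  have key : ∀ {M : Type} [Field M] [Algebra ℂ M] (s : ι → M), aeval s H =
      ∑ k ∈ Finset.range (q.natDegree + 1), Polynomial.aeval (s i0) (g k) * (aeval s G) ^ k := by
    intro M _ _ s
    rw [hH, map_sum]
    refine Finset.sum_congr rfl fun k _ => ?_
    rw [map_mul, map_pow, ← Polynomial.aeval_algHom_apply, aeval_X]
  have h1 : aeval r H = 0 := by
    rw [key r, ← hq, Polynomial.aeval_eq_sum_range]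
    refine Finset.sum_congr rfl fun k _ => ?_
    rw [hg, Algebra.smul_def]
    rfl
  have h2 := hspec H h1
  rw [key r', hG, Finset.sum_eq_single 0] at h2
  · rw [pow_zero, mul_one] at h2
    have h3 : g 0 = 0 := by
      by_contra h4
      exact ht ⟨g 0, h4, h2⟩
    have h4 := hg 0
    rw [h3, map_zero] at h4
    exact hq0 (Subtype.ext h4.symm)
  · intro k _ hk
    rw [zero_pow hk, mul_zero]
  · intro h3
    exact absurd (Finset.mem_range.2 (Nat.succ_pos _)) h3

theorem transport {ι E L : Type} [Field E] [Algebra ℂ E] [Field L] [Algebra ℂ L] (r : ι → E)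
    (r' : ι → L) (hker : ∀ G : MvPolynomial ι ℂ, aeval r G = 0 ↔ aeval r' G = 0) (w' : L)
    (hw : IntermediateField.adjoin ℂ (Set.range r') = IntermediateField.adjoin ℂ {w'}) :
    ∃ w : E, ∀ i, r i ∈ IntermediateField.adjoin ℂ {w} := by
  have h1 : w' ∈ IntermediateField.adjoin ℂ (Set.range r') := by
    rw [hw]
    exact IntermediateField.mem_adjoin_simple_self ℂ w'
  obtain ⟨P, Q, hPQ⟩ := (IntermediateField.mem_adjoin_range_iff ℂ r' w').1 h1
  by_cases hQ' : aeval r' Q = 0
  · -- then `w' = 0` and everything is constant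
    rw [hQ', div_zero] at hPQ
    refine ⟨0, fun i => ?_⟩
    have h2 : r' i ∈ IntermediateField.adjoin ℂ {w'} := by
      rw [← hw]
      exact IntermediateField.subset_adjoin ℂ _ ⟨i, rfl⟩
    rw [hPQ, IntermediateField.adjoin_zero, IntermediateField.mem_bot] at h2
    obtain ⟨c, hc⟩ := h2
    have h3 : aeval r' (X i - C c : MvPolynomial ι ℂ) = 0 := by
      rw [map_sub, aeval_X, aeval_C, hc, sub_self]
    have h4 := (hker _).2 h3
    rw [map_sub, aeval_X, aeval_C, sub_eq_zero] at h4
    rw [h4]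
    exact (IntermediateField.adjoin ℂ {(0 : E)}).algebraMap_mem c
  have hQ : aeval r Q ≠ 0 := fun h => hQ' ((hker Q).1 h)
  refine ⟨aeval r P / aeval r Q, fun i => ?_⟩
  have h2 : r' i ∈ IntermediateField.adjoin ℂ {w'} := by
    rw [← hw]
    exact IntermediateField.subset_adjoin ℂ _ ⟨i, rfl⟩
  obtain ⟨f, g, hfg⟩ := (IntermediateField.mem_adjoin_simple_iff ℂ (r' i)).1 h2
  by_cases hg0 : Polynomial.aeval w' g = 0
  · rw [hg0, div_zero] at hfg
    have h3 : aeval r' (X i : MvPolynomial ι ℂ) = 0 := by rw [aeval_X, hfg]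
    have h4 := (hker _).2 h3
    rw [aeval_X] at h4
    rw [h4]
    exact zero_mem _
  obtain ⟨N1, F, hF⟩ := clear1 Q P f
  obtain ⟨N2, G, hG⟩ := clear1 Q P g
  have hF' := hF L (aeval r') hQ'
  have hG' := hG L (aeval r') hQ'
  have hFE := hF E (aeval r) hQ
  have hGE := hG E (aeval r) hQ
  rw [← hPQ] at hF' hG'
  have hG0 : aeval r' G ≠ 0 := by
    rw [hG']
    exact mul_ne_zero (pow_ne_zero _ hQ') hg0
  have hG1 : aeval r G ≠ 0 := fun h => hG0 ((hker G).1 h)
  have hg1 : Polynomial.aeval (aeval r P / aeval r Q) g ≠ 0 := by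
    intro h
    rw [h, mul_zero] at hGE
    exact hG1 hGE
  have h3 : aeval r' (X i * G * Q ^ N1 - F * Q ^ N2) = 0 := by
    rw [map_sub, map_mul, map_mul, map_mul, map_pow, map_pow, aeval_X, hF', hG', hfg]
    field_simp
    ring
  have h4 := (hker _).2 h3
  rw [map_sub, map_mul, map_mul, map_mul, map_pow, map_pow, aeval_X, hFE, hGE] at h4
  have h5 : (aeval r Q) ^ N1 * (aeval r Q) ^ N2 *
      (r i * Polynomial.aeval (aeval r P / aeval r Q) g -
        Polynomial.aeval (aeval r P / aeval r Q) f) = 0 := by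
    rw [← h4]
    ring
  have h6 : r i * Polynomial.aeval (aeval r P / aeval r Q) g -
        Polynomial.aeval (aeval r P / aeval r Q) f = 0 :=
    (mul_eq_zero.1 h5).resolve_left
      (mul_ne_zero (pow_ne_zero _ hQ) (pow_ne_zero _ hQ))
  refine (IntermediateField.mem_adjoin_simple_iff ℂ (r i)).2 ⟨f, g, ?_⟩
  rw [eq_div_iff hg1]
  exact sub_eq_zero.1 h6

/-- there is a point where a nonzero polynomial does not vanish -/
theorem exists_eval_ne {d : R2} (hd : d ≠ 0) : ∃ P : Fin 2 → ℂ, eval P d ≠ 0 := by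
  by_contra hcon
  push Not at hcon
  exact hd (MvPolynomial.funext fun P => by rw [hcon P, map_zero])

/-- restriction to the line through two points -/
noncomputable def line (P0 P1 : Fin 2 → ℂ) : R2 →ₐ[ℂ] Polynomial ℂ :=
  aeval fun i => Polynomial.C (P0 i) + Polynomial.X * Polynomial.C (P1 i - P0 i)

theorem line_zero (P0 P1 : Fin 2 → ℂ) (g : R2) : (line P0 P1 g).eval 0 = eval P0 g := by
  induction g using MvPolynomial.induction_on with
  | C c => simp [line]
  | add p q hp hq => rw [map_add, Polynomial.eval_add, hp, hq, map_add]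
  | mul_X p i hp =>
    rw [map_mul, Polynomial.eval_mul, hp, map_mul, eval_X]
    simp [line]

theorem line_one (P0 P1 : Fin 2 → ℂ) (g : R2) : (line P0 P1 g).eval 1 = eval P1 g := by
  induction g using MvPolynomial.induction_on with
  | C c => simp [line]
  | add p q hp hq => rw [map_add, Polynomial.eval_add, hp, hq, map_add]
  | mul_X p i hp =>
    rw [map_mul, Polynomial.eval_mul, hp, map_mul, eval_X]
    simp [line]

end W2aux

open W2aux

theorem luroth_two {ι : Type} [Finite ι] (r : ι → K2)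
    (h : ∀ i j, ¬ AlgebraicIndependent ℂ ![r i, r j]) :
    ∃ w : K2, ∀ i, r i ∈ IntermediateField.adjoin ℂ {w} := by
  classical
  by_cases hall : ∀ i, IsAlgebraic ℂ (r i)
  · refine ⟨0, fun i => ?_⟩
    obtain ⟨c, hc⟩ := const_of_alg (r i) (hall i)
    rw [← hc]
    exact (IntermediateField.adjoin ℂ {(0 : K2)}).algebraMap_mem c
  push Not at hall
  obtain ⟨i0, hi0⟩ := hall
  have halg : ∀ i, IsAlgebraic (Algebra.adjoin ℂ {r i0}) (r i) := fun i =>
    alg_of_dep (r i) (r i0) hi0 (h i i0)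
  obtain ⟨⟨d, hd⟩, hD'⟩ := IsLocalization.exist_integer_multiples_of_finite
    (nonZeroDivisors R2) r
  choose n hn using hD'
  have hd0 : d ≠ 0 := nonZeroDivisors.ne_zero hd
  have hdK : algebraMap R2 K2 d ≠ 0 := by
    intro h0
    exact hd0 ((map_eq_zero_iff _ (IsFractionRing.injective R2 K2)).1 h0)
  have hrn : ∀ i, algebraMap R2 K2 (n i) / algebraMap R2 K2 d = r i := by
    intro i
    rw [hn i, div_eq_iff hdK, Algebra.smul_def, mul_comm]
  obtain ⟨P0, hP0⟩ := exists_eval_ne hd0
  set c : ℂ := eval P0 (n i0) / eval P0 d with hc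
  have hF : (n i0 - C c * d) * d ≠ 0 := by
    refine mul_ne_zero (fun h0 => ?_) hd0
    apply hi0
    have h1 : n i0 = C c * d := sub_eq_zero.1 h0
    rw [← hrn i0, h1, map_mul, mul_div_assoc, div_self hdK, mul_one, ← algebraMap_eq,
      ← IsScalarTower.algebraMap_apply]
    exact isAlgebraic_algebraMap c
  obtain ⟨P1, hP1⟩ := exists_eval_ne hF
  let ρ : R2 →ₐ[ℂ] RatFunc ℂ :=
    (IsScalarTower.toAlgHom ℂ (Polynomial ℂ) (RatFunc ℂ)).comp (line P0 P1)
  have hρ : ∀ g, ρ g = algebraMap (Polynomial ℂ) (RatFunc ℂ) (line P0 P1 g) := fun g => rfl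
  have hρd : ρ d ≠ 0 := by
    rw [hρ]
    intro h0
    have h1 := (map_eq_zero_iff _ (RatFunc.algebraMap_injective ℂ)).1 h0
    apply hP0
    rw [← line_zero P0 P1, h1, Polynomial.eval_zero]
  have ht : Transcendental ℂ (ρ (n i0) / ρ d) := by
    intro halg'
    obtain ⟨c', hc'⟩ := const_of_alg _ halg'
    rw [eq_div_iff hρd, IsScalarTower.algebraMap_apply ℂ (Polynomial ℂ) (RatFunc ℂ), hρ, hρ,
      ← map_mul] at hc'
    have h1 := RatFunc.algebraMap_injective ℂ hc'
    have e0 : c' * eval P0 d = eval P0 (n i0) := by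
      rw [← line_zero P0 P1, ← line_zero P0 P1 (n i0), ← h1, Polynomial.eval_mul]
      simp
    have e1 : c' * eval P1 d = eval P1 (n i0) := by
      rw [← line_one P0 P1, ← line_one P0 P1 (n i0), ← h1, Polynomial.eval_mul]
      simp
    have e2 : c' = c := by
      rw [hc, eq_div_iff hP0, e0]
    apply hP1
    rw [map_mul, map_sub, map_mul, eval_C, ← e2, e1, sub_self, zero_mul]
  have hspec : ∀ G : MvPolynomial ι ℂ, aeval r G = 0 →
      aeval (fun i => ρ (n i) / ρ d) G = 0 := by
    intro G hG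
    obtain ⟨N, H, hH⟩ := clear d n G
    have h1 := hH K2 (IsScalarTower.toAlgHom ℂ R2 K2) hdK
    have e1 : (fun i => (IsScalarTower.toAlgHom ℂ R2 K2) (n i) /
        (IsScalarTower.toAlgHom ℂ R2 K2) d) = r := funext hrn
    rw [e1, hG, mul_zero] at h1
    have h2 : H = 0 := (map_eq_zero_iff _ (IsFractionRing.injective R2 K2)).1 h1
    have h3 := hH (RatFunc ℂ) ρ hρd
    rw [h2, map_zero] at h3
    exact (mul_eq_zero.1 h3.symm).resolve_left (pow_ne_zero _ hρd)
  refine transport r (fun i => ρ (n i) / ρ d)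
    (fun G => ⟨hspec G, ker_eq r _ i0 hspec ht halg G⟩) _
    (RatFunc.Luroth.eq_adjoin_generator (E := IntermediateField.adjoin ℂ
      (Set.range fun i => ρ (n i) / ρ d)))

end Pool.Agent.Lib.MP_2095a9_ag.T2
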