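import Pool.Agent.Lib.MP_2095a9_ag.T2.V1

set_option autoImplicit false

/-!
Module W3 of the T2 project (problem MP_2095a9_ag): a ternary quadratic form with coefficients
in `ℂ(w)` has a nontrivial zero (Tsen).
-/

namespace Pool.Agent.Lib.MP_2095a9_ag.T2

open MvPolynomial

namespace W3aux

/-- the quadratic form in terms of the matrix product -/
theorem qf_mulVec {E : Type*} [Field E] (S P : Matrix (Fin 3) (Fin 3) E) (v : Fin 3 → E) :
    qf S (P.mulVec v) = qf (P.transpose * S * P) v := by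
  simp only [qf, Matrix.mul_apply, Matrix.mulVec, dotProduct, Fin.sum_univ_three,
    Matrix.transpose_apply]
  ring

theorem iso_const (w : K2) (hw : IsAlgebraic ℂ w) (a b : K2)
    (ha : a ∈ IntermediateField.adjoin ℂ {w}) :
    ∃ x y z : K2, ¬ (x = 0 ∧ y = 0 ∧ z = 0) ∧ a * x ^ 2 + b * y ^ 2 = z ^ 2 := by
  have halg : Algebra.IsAlgebraic ℂ (IntermediateField.adjoin ℂ {w}) :=
    IntermediateField.isAlgebraic_adjoin_simple hw.isIntegral
  obtain ⟨a0, ha0⟩ := (IsAlgClosed.algebraMap_bijective_of_isIntegral (k := ℂ)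
    (K := IntermediateField.adjoin ℂ {w})).2 ⟨a, ha⟩
  have ha1 : a = algebraMap ℂ K2 a0 := by
    have := congrArg (algebraMap (IntermediateField.adjoin ℂ {w}) K2) ha0
    exact this.symm
  obtain ⟨c, hc⟩ := IsAlgClosed.exists_pow_nat_eq a0 (n := 2) (by norm_num)
  refine ⟨1, 0, algebraMap ℂ K2 c, fun h => one_ne_zero h.1, ?_⟩
  rw [ha1, ← hc, map_pow]; ring

theorem iso_trans (w : K2) (hw : Transcendental ℂ w) (a b : K2) (ha0 : a ≠ 0) (hb0 : b ≠ 0)
    (ha : a ∈ IntermediateField.adjoin ℂ {w}) (hb : b ∈ IntermediateField.adjoin ℂ {w}) :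
    ∃ x y z : K2, ¬ (x = 0 ∧ y = 0 ∧ z = 0) ∧ a * x ^ 2 + b * y ^ 2 = z ^ 2 := by
  have hinj : Function.Injective (Polynomial.aeval (R := ℂ) w) :=
    transcendental_iff_injective.mp hw
  have key : ∀ c : K2, c ≠ 0 → c ∈ IntermediateField.adjoin ℂ {w} →
      ∃ p q : Polynomial ℂ, p ≠ 0 ∧ q ≠ 0 ∧
        c * Polynomial.aeval w q ^ 2 = Polynomial.aeval w p := by
    intro c hc0 hc
    obtain ⟨r, s, hrs⟩ := (IntermediateField.mem_adjoin_simple_iff ℂ c).mp hc
    have hs : Polynomial.aeval w s ≠ 0 := by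
      intro h
      rw [h, div_zero] at hrs
      exact hc0 hrs
    have hr : Polynomial.aeval w r ≠ 0 := by
      intro h
      rw [h, zero_div] at hrs
      exact hc0 hrs
    refine ⟨r * s, s, ?_, ?_, ?_⟩
    · intro h
      have h1 : Polynomial.aeval w (r * s) = 0 := by rw [h, map_zero]
      rw [map_mul] at h1
      exact (mul_ne_zero hr hs) h1
    · rintro rfl
      exact hs (map_zero _)
    · rw [hrs, map_mul]
      field_simp
  obtain ⟨p, q, hp, hq, hpq⟩ := key a ha0 ha
  obtain ⟨p', q', hp', hq', hpq'⟩ := key b hb0 hb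
  obtain ⟨x, y, z, hne, hxyz⟩ := conic_poly (k := ℂ) two_ne_zero p p' hp hp'
  refine ⟨Polynomial.aeval w (q * x), Polynomial.aeval w (q' * y), Polynomial.aeval w z, ?_, ?_⟩
  · rintro ⟨h1, h2, h3⟩
    have e1 : q * x = 0 := hinj (by rw [h1, map_zero])
    have e2 : q' * y = 0 := hinj (by rw [h2, map_zero])
    have e3 : z = 0 := hinj (by rw [h3, map_zero])
    exact hne ⟨(mul_eq_zero.mp e1).resolve_left hq, (mul_eq_zero.mp e2).resolve_left hq', e3⟩
  · have h4 := congrArg (Polynomial.aeval w) hxyz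
    simp only [map_add, map_mul, map_pow] at h4 ⊢
    rw [← h4, ← hpq, ← hpq']
    ring

end W3aux

theorem tsen_adjoin (w : K2) (S : Matrix (Fin 3) (Fin 3) K2) (hs : S.IsSymm)
    (hS : ∀ i j, S i j ∈ IntermediateField.adjoin ℂ {w}) :
    ∃ z : Fin 3 → K2, z ≠ 0 ∧ qf S z = 0 := by
  by_cases hd : S.det = 0
  · obtain ⟨v, hv, hSv⟩ := Matrix.exists_mulVec_eq_zero_iff.mpr hd
    refine ⟨v, hv, ?_⟩
    have h1 : qf S v = ∑ i, v i * (S.mulVec v) i := by
      simp only [qf, Matrix.mulVec, dotProduct, Fin.sum_univ_three]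
      ring
    rw [h1, hSv]
    simp
  · set M := IntermediateField.adjoin ℂ {w} with hM
    let S' : Matrix (Fin 3) (Fin 3) M := fun i j => ⟨S i j, hS i j⟩
    have hmap : S'.map (algebraMap M K2) = S := rfl
    have hs' : S'.IsSymm := by
      ext i j
      have := congrFun (congrFun hs i) j
      exact this
    have hdet : S'.det ≠ 0 := by
      intro h
      apply hd
      rw [← hmap]
      have := (RingHom.map_det (algebraMap M K2) S').symm
      rw [h, map_zero] at this
      exact this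
    obtain ⟨P, a, b, c, hP, ha, hb, hc, hPS⟩ := diag_exists (E := M) two_ne_zero S' hs' hdet
    have hiso : ∃ x y z : K2, ¬ (x = 0 ∧ y = 0 ∧ z = 0) ∧
        (a : K2) * x ^ 2 + (b : K2) * y ^ 2 = z ^ 2 := by
      have ha0 : (a : K2) ≠ 0 := fun h => ha (Subtype.ext h)
      have hb0 : (b : K2) ≠ 0 := fun h => hb (Subtype.ext h)
      by_cases hw : IsAlgebraic ℂ w
      · exact W3aux.iso_const w hw a b a.2
      · exact W3aux.iso_trans w hw a b ha0 hb0 a.2 b.2
    obtain ⟨x, y, z, hne, hxyz⟩ := hiso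
    have hPdet : (P.map (algebraMap M K2)).det ≠ 0 := by
      have := RingHom.map_det (algebraMap M K2) P
      intro h
      apply hP
      apply (algebraMap M K2).injective
      rw [this, map_zero]
      exact h
    refine ⟨(P.map (algebraMap M K2)).mulVec ![x, y, z], ?_, ?_⟩
    · intro h
      have h1 : (![x, y, z] : Fin 3 → K2) = 0 := by
        by_contra hv
        exact hPdet (Matrix.exists_mulVec_eq_zero_iff.mp ⟨_, hv, h⟩)
      apply hne
      refine ⟨?_, ?_, ?_⟩
      · exact congrFun h1 0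
      · exact congrFun h1 1
      · exact congrFun h1 2
    · rw [W3aux.qf_mulVec]
      have h2 : (P.map (algebraMap M K2)).transpose * S * P.map (algebraMap M K2) =
          (Matrix.diagonal ![c * a, c * b, -c]).map (algebraMap M K2) := by
        rw [← hPS, ← hmap, Matrix.map_mul, Matrix.map_mul, Matrix.transpose_map]
      rw [h2]
      simp only [qf, Fin.sum_univ_three, Matrix.map_apply, Matrix.diagonal_apply]
      simp
      have h3 : (algebraMap M K2) a = (a : K2) := rfl
      have h4 : (algebraMap M K2) b = (b : K2) := rfl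
      have h5 : (algebraMap M K2) c = (c : K2) := rfl
      linear_combination (c : K2) * hxyz

end Pool.Agent.Lib.MP_2095a9_ag.T2
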