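import Pool.Agent.Lib.MP_2095a9_ag.T2.Defs
import Pool.Agent.Lib.MP_2095a9_ag.T2.W1
import Pool.Agent.Lib.MP_2095a9_ag.T2.W2
import Pool.Agent.Lib.MP_2095a9_ag.T2.W3

set_option autoImplicit false

namespace Pool.Agent.Lib.MP_2095a9_ag.T2

open MvPolynomial

theorem flat_isotropic (A : Matrix (Fin 3) (Fin 3) R2) (hs : A.IsSymm) (hdet : A.det ≠ 0)
    (h : Flat A) : ∃ z : Fin 3 → K2, z ≠ 0 ∧ qf (toK A) z = 0 := by
  have hA : ∃ i0 j0, A i0 j0 ≠ 0 := by
    by_contra hcon
    push Not at hcon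
    apply hdet
    have : A = 0 := Matrix.ext fun i j => hcon i j
    rw [this, Matrix.det_zero]
  obtain ⟨i0, j0, h0⟩ := hA
  have h0' : toK A i0 j0 ≠ 0 := by
    intro h1
    exact h0 (IsFractionRing.injective R2 K2 (by rw [map_zero]; exact h1))
  obtain ⟨w, hw⟩ := luroth_two (ι := Fin 3 × Fin 3) (fun p => toK A p.1 p.2 / toK A i0 j0)
    (fun p q => flat_ratios A h i0 j0 h0 p.1 p.2 q.1 q.2)
  obtain ⟨z, hz, hq⟩ := tsen_adjoin w (Matrix.of fun i j => toK A i j / toK A i0 j0)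
    (by
      ext i j
      simp only [Matrix.transpose_apply, Matrix.of_apply, toK, Matrix.map_apply]
      rw [hs.apply])
    (fun i j => hw (i, j))
  refine ⟨z, hz, ?_⟩
  have e : qf (toK A) z = toK A i0 j0 * qf (Matrix.of fun i j => toK A i j / toK A i0 j0) z := by
    simp only [qf, Matrix.of_apply, Finset.mul_sum]
    refine Finset.sum_congr rfl fun i _ => Finset.sum_congr rfl fun j _ => ?_
    have e1 : toK A i j / toK A i0 j0 * toK A i0 j0 = toK A i j := div_mul_cancel₀ _ h0'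
    linear_combination (-(z i * z j)) * e1
  rw [e, hq, mul_zero]

end Pool.Agent.Lib.MP_2095a9_ag.T2
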