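import Pool.Agent.Lib.MP_2095a9_ag.T2.Defs

set_option autoImplicit false

namespace Pool.Agent.Lib.MP_2095a9_ag.T2

open MvPolynomial

theorem dom_of_isotropic (S : Matrix (Fin 3) (Fin 3) K2) (z : Fin 3 → K2) (hz : z ≠ 0)
    (h : qf S z = 0) : Dom S := by
  classical
  have hX : Transc (F := F1) (algebraMap (Polynomial F1) L2 Polynomial.X) := by
    intro p hp
    have h1 : Polynomial.aeval (algebraMap (Polynomial F1) L2 Polynomial.X) p =
        algebraMap (Polynomial F1) L2 p := by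
      rw [Polynomial.aeval_algebraMap_apply, Polynomial.aeval_X_left_apply]
    rw [h1] at hp
    exact IsFractionRing.injective (Polynomial F1) L2 (by rw [hp, map_zero])
  obtain ⟨σ, -⟩ := subst_embed (k := ℂ) 1 (L := L2) _ hX
  refine ⟨σ, fun i => σ (z i), ?_, ?_⟩
  · intro h0
    apply hz
    funext i
    have h1 := congrFun h0 i
    exact (map_eq_zero σ).mp h1
  · have h1 : qf (S.map σ) (fun i => σ (z i)) = σ (qf S z) := by
      simp only [qf, map_sum, map_mul, Matrix.map_apply]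
    rw [h1, h, map_zero]

namespace W5aux

theorem two_ne : (2 : L2) ≠ 0 := by
  have := (map_ne_zero (algebraMap ℂ L2)).mpr (two_ne_zero : (2 : ℂ) ≠ 0)
  rwa [map_ofNat] at this

theorem deg_mul {f g : R2} (hf : f.totalDegree ≤ 2) (hg : g.totalDegree ≤ 2) :
    (f * g).totalDegree ≤ 4 :=
  (totalDegree_mul f g).trans (by omega)

theorem deg_sub {f g : R2} (hf : f.totalDegree ≤ 4) (hg : g.totalDegree ≤ 4) :
    (f - g).degreeOf 0 ≤ 4 :=
  (degreeOf_le_totalDegree _ _).trans ((totalDegree_sub f g).trans (max_le hf hg))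

end W5aux

open W5aux in
theorem low_degree (A : Matrix (Fin 3) (Fin 3) R2) (hs : A.IsSymm) (hdet : A.det ≠ 0)
    (hdeg : ∀ i j, (A i j).totalDegree ≤ 2) : Dom (toK A) := by
  classical
  have h10 : A 1 0 = A 0 1 := hs.apply 0 1
  have h20 : A 2 0 = A 0 2 := hs.apply 0 2
  have h21 : A 2 1 = A 1 2 := hs.apply 1 2
  by_cases h00 : A 0 0 = 0
  · refine dom_of_isotropic _ ![1, 0, 0] ?_ ?_
    · intro h0
      have := congrFun h0 0
      simp at this
    · simp [qf, Fin.sum_univ_three, toK, h00]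
  set A' : R2 := A 0 1 * A 0 1 - A 0 0 * A 1 1 with hA'
  set B' : R2 := A 0 1 * A 0 2 - A 0 0 * A 1 2 with hB'
  set D' : R2 := A 0 0 * A 2 2 - A 0 2 * A 0 2 with hD'
  have hδ : B' ^ 2 + A' * D' = - (A 0 0 * A.det) := by
    rw [Matrix.det_fin_three, h10, h20, h21, hA', hB', hD']
    ring
  have hδ0 : B' ^ 2 + A' * D' ≠ 0 := by
    rw [hδ, neg_ne_zero]
    exact mul_ne_zero h00 hdet
  have hinjK : Function.Injective (algebraMap R2 K2) := IsFractionRing.injective R2 K2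
  by_cases hA0 : A' = 0
  · refine dom_of_isotropic _ ![-(algebraMap R2 K2 (A 0 1)), algebraMap R2 K2 (A 0 0), 0] ?_ ?_
    · intro h0
      have h1 := congrFun h0 1
      simp at h1
      exact h00 h1
    · have h1 : algebraMap R2 K2 A' = 0 := by rw [hA0, map_zero]
      rw [hA', map_sub, map_mul, map_mul] at h1
      simp only [qf, Fin.sum_univ_three, toK, Matrix.map_apply, h10, h20, h21]
      simp
      linear_combination (-(algebraMap R2 K2 (A 0 0))) * h1
  let Φ : MvPolynomial (Fin 2) ℂ → Polynomial F1 := fun f =>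
    (MvPolynomial.finSuccEquiv ℂ 1 f).map (algebraMap (MvPolynomial (Fin 1) ℂ) F1)
  have hΦdeg : ∀ f : MvPolynomial (Fin 2) ℂ, f.degreeOf 0 ≤ 4 → (Φ f).natDegree ≤ 4 := by
    intro f hf
    refine (Polynomial.natDegree_map_le).trans ?_
    rw [MvPolynomial.natDegree_finSuccEquiv]
    exact hf
  have hΦinj : ∀ f : MvPolynomial (Fin 2) ℂ, f ≠ 0 → Φ f ≠ 0 := by
    intro f hf h0
    apply hf
    have h1 : MvPolynomial.finSuccEquiv ℂ 1 f = 0 :=
      (Polynomial.map_injective (algebraMap (MvPolynomial (Fin 1) ℂ) F1)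
        (IsFractionRing.injective _ F1)) (by rw [Polynomial.map_zero]; exact h0)
    exact (MvPolynomial.finSuccEquiv ℂ 1).injective (by rw [h1, map_zero])
  have hΦδ : Φ (B' ^ 2 + A' * D') = Φ B' ^ 2 + Φ A' * Φ D' := by
    simp only [Φ, map_add, map_mul, map_pow, Polynomial.map_add, Polynomial.map_mul,
      Polynomial.map_pow]
  have _ : CharZero F1 := charZero_of_injective_algebraMap (algebraMap ℂ F1).injective
  obtain ⟨y1, hy1, hiso⟩ := split_quartic tsen_one (Φ A') (Φ B') (Φ D')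
    (hΦdeg A' (deg_sub (deg_mul (hdeg 0 1) (hdeg 0 1)) (deg_mul (hdeg 0 0) (hdeg 1 1))))
    (hΦdeg B' (deg_sub (deg_mul (hdeg 0 1) (hdeg 0 2)) (deg_mul (hdeg 0 0) (hdeg 1 2))))
    (hΦdeg D' (deg_sub (deg_mul (hdeg 0 0) (hdeg 2 2)) (deg_mul (hdeg 0 2) (hdeg 0 2))))
    (hΦinj A' hA0) (by rw [← hΦδ]; exact hΦinj _ hδ0)
  rw [← hΦδ] at hiso
  obtain ⟨σ, hσ⟩ := subst_embed (k := ℂ) 1 (L := L2) y1 hy1
  rw [← hσ A', ← hσ (B' ^ 2 + A' * D')] at hiso
  have hne : ∀ f : R2, f ≠ 0 → σ (algebraMap R2 K2 f) ≠ 0 := by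
    intro f hf
    rw [map_ne_zero]
    exact fun h0 => hf (hinjK (h0.trans (map_zero _).symm))
  obtain ⟨U, W, hUW⟩ := hiso.norm_form two_ne (hne _ hA0) (hne _ hδ0)
  -- abbreviations
  set s : R2 → L2 := fun f => σ (algebraMap R2 K2 f) with hsdef
  have hsA : s A' = s (A 0 1) * s (A 0 1) - s (A 0 0) * s (A 1 1) := by
    simp only [hsdef, hA', map_sub, map_mul]
  have hsB : s B' = s (A 0 1) * s (A 0 2) - s (A 0 0) * s (A 1 2) := by
    simp only [hsdef, hB', map_sub, map_mul]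
  have hsD : s D' = s (A 0 0) * s (A 2 2) - s (A 0 2) * s (A 0 2) := by
    simp only [hsdef, hD', map_sub, map_mul]
  have hsδ : s (B' ^ 2 + A' * D') = s B' ^ 2 + s A' * s D' := by
    simp only [hsdef, map_add, map_mul, map_pow]
  have hUW' : U ^ 2 - s A' * W ^ 2 = s B' ^ 2 + s A' * s D' := by
    rw [← hsδ]
    exact hUW
  have hsA0 : s A' ≠ 0 := hne _ hA0
  have hs00 : s (A 0 0) ≠ 0 := hne _ h00
  obtain ⟨t, ht⟩ : ∃ t : L2, s A' * t = U - s B' :=
    ⟨(U - s B') / s A', mul_div_cancel₀ _ hsA0⟩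
  obtain ⟨z0, hz0⟩ : ∃ z0 : L2, s (A 0 0) * z0 = W - s (A 0 1) * t - s (A 0 2) :=
    ⟨(W - s (A 0 1) * t - s (A 0 2)) / s (A 0 0), mul_div_cancel₀ _ hs00⟩
  have hW : W ^ 2 = s A' * t ^ 2 + 2 * s B' * t - s D' := by
    apply mul_left_cancel₀ hsA0
    linear_combination (-1) * hUW' - (U + s B' + s A' * t) * ht
  refine ⟨σ, ![z0, t, 1], ?_, ?_⟩
  · intro h0
    have := congrFun h0 2
    simp at this
  · have e : qf ((toK A).map σ) ![z0, t, 1] =
        s (A 0 0) * z0 ^ 2 + 2 * s (A 0 1) * z0 * t + s (A 1 1) * t ^ 2 + 2 * s (A 0 2) * z0 +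
          2 * s (A 1 2) * t + s (A 2 2) := by
      simp only [qf, Fin.sum_univ_three, toK, Matrix.map_apply, h10, h20, h21]
      simp
      ring
    rw [e]
    apply mul_left_cancel₀ hs00
    rw [mul_zero]
    rw [hsA, hsB, hsD] at hW
    linear_combination (s (A 0 0) * z0 + s (A 0 1) * t + s (A 0 2) + W) * hz0 + hW

end Pool.Agent.Lib.MP_2095a9_ag.T2
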