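import Pool.Agent.Lib.MP_2095a9_ag.T2.Defs

set_option autoImplicit false

/-!
Module W6: division by the greatest common divisor of the entries.
-/

namespace Pool.Agent.Lib.MP_2095a9_ag.T2

open MvPolynomial

namespace W6aux

theorem degree_mul (f g : R2) (hf : f ≠ 0) (hg : g ≠ 0) :
    (f * g).totalDegree = f.totalDegree + g.totalDegree :=
  MvPolynomial.totalDegree_mul_of_isDomain hf hg

theorem degree_le_of_mul (f g : R2) (hf : f ≠ 0) : g.totalDegree ≤ (f * g).totalDegree := by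
  by_cases hg : g = 0
  · subst hg
    simp
  · rw [degree_mul f g hf hg]
    omega

end W6aux

theorem reduce_coprim (A : Matrix (Fin 3) (Fin 3) R2) (hs : A.IsSymm) (hdet : A.det ≠ 0)
    (hdeg : ∀ i j, (A i j).totalDegree ≤ 3) :
    ∃ (g : R2) (A' : Matrix (Fin 3) (Fin 3) R2), g ≠ 0 ∧ A = g • A' ∧ A'.IsSymm ∧
      A'.det ≠ 0 ∧ (∀ i j, (A' i j).totalDegree ≤ 3) ∧ Coprim A' := by
  classical
  have hex : ∃ i j, A i j ≠ 0 := by
    by_contra hcon
    push Not at hcon
    apply hdet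
    have hA0 : A = 0 := by
      ext1 i j
      exact hcon i j
    rw [hA0, Matrix.det_zero]
  obtain ⟨i0, j0, h0⟩ := hex
  let P : ℕ → Prop := fun n => ∃ d : R2, (∀ i j, d ∣ A i j) ∧ d.totalDegree = n
  have hP0 : P 0 := ⟨1, fun i j => one_dvd _, by simp⟩
  have hPle : ∀ n, P n → n ≤ 3 := by
    rintro n ⟨d, hd, rfl⟩
    obtain ⟨q, hq⟩ := hd i0 j0
    have hq0 : q ≠ 0 := by
      rintro rfl
      apply h0
      rw [hq, mul_zero]
    have h1 := W6aux.degree_le_of_mul q d hq0
    rw [mul_comm, ← hq] at h1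
    exact h1.trans (hdeg i0 j0)
  obtain ⟨g, hg, hgn⟩ : P (Nat.findGreatest P 3) := Nat.findGreatest_spec (Nat.zero_le 3) hP0
  have hmax : ∀ n, P n → n ≤ Nat.findGreatest P 3 := fun n hn =>
    Nat.le_findGreatest (hPle n hn) hn
  have hg0 : g ≠ 0 := by
    rintro rfl
    exact h0 (zero_dvd_iff.mp (hg i0 j0))
  choose q hq using hg
  let A' : Matrix (Fin 3) (Fin 3) R2 := Matrix.of q
  have hA' : A = g • A' := by
    ext1 i j
    exact hq i j
  have hdet' : A'.det ≠ 0 := by
    intro h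
    apply hdet
    rw [hA', Matrix.det_smul, h, mul_zero]
  refine ⟨g, A', hg0, hA', ?_, hdet', ?_, ?_⟩
  · ext1 i j
    have h1 : A j i = A i j := hs.apply i j
    rw [hq, hq] at h1
    exact mul_left_cancel₀ hg0 h1
  · intro i j
    have h1 := W6aux.degree_le_of_mul g (A' i j) hg0
    have h2 : g * A' i j = A i j := (hq i j).symm
    rw [h2] at h1
    exact h1.trans (hdeg i j)
  · intro d hd
    have hd0 : d ≠ 0 := by
      rintro rfl
      have h1 : A' i0 j0 = 0 := zero_dvd_iff.mp (hd i0 j0)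
      apply h0
      have h2 : A i0 j0 = g * A' i0 j0 := hq i0 j0
      rw [h2, h1, mul_zero]
    have h1 : P (g * d).totalDegree := by
      refine ⟨g * d, fun i j => ?_, rfl⟩
      obtain ⟨r, hr⟩ := hd i j
      refine ⟨r, ?_⟩
      have h2 : A i j = g * A' i j := hq i j
      rw [h2, hr]
      ring
    have h2 := hmax _ h1
    rw [← hgn, W6aux.degree_mul g d hg0 hd0] at h2
    have h3 : d.totalDegree = 0 := by omega
    rw [MvPolynomial.totalDegree_eq_zero_iff_eq_C] at h3
    rw [h3]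
    have h4 : coeff 0 d ≠ 0 := by
      intro h5
      apply hd0
      rw [h3, h5, C_0]
    exact (isUnit_iff_ne_zero.mpr h4).map C

end Pool.Agent.Lib.MP_2095a9_ag.T2
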