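import Pool.Agent.Lib.MP_2095a9_ag.T2.V5

set_option autoImplicit false

/-!
Module W7: the case in which the cubic curves contain their tangent lines.
-/

namespace Pool.Agent.Lib.MP_2095a9_ag.T2

open MvPolynomial

namespace W7aux

/-- one more element in front of an algebraically independent family -/
theorem ai_cons {E Ω : Type*} [Field E] [Field Ω] [Algebra E Ω] {n : ℕ} (w : Ω)
    (v : Fin n → Ω) :
    AlgebraicIndependent E (Matrix.vecCons w v) ↔
      AlgebraicIndependent E v ∧ Transcendental (Algebra.adjoin E (Set.range v)) w := by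
  rw [← AlgebraicIndependent.option_iff]
  refine (algebraicIndependent_equiv' (finSuccEquiv n) ?_)
  funext i
  refine Fin.cases ?_ (fun j => ?_) i
  · simp [finSuccEquiv_zero]
  · simp [finSuccEquiv_succ]

/-- the algebraic closure of `ℂ(S)` in `Ω` -/
noncomputable def cl {Ω : Type} [Field Ω] [Algebra ℂ Ω] (S : Set Ω) : IntermediateField ℂ Ω :=
  (algebraicClosure (IntermediateField.adjoin ℂ S) Ω).restrictScalars ℂ

theorem mem_cl {Ω : Type} [Field Ω] [Algebra ℂ Ω] (S : Set Ω) (w : Ω) :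
    w ∈ cl S ↔ IsAlgebraic (Algebra.adjoin ℂ S) w := by
  rw [cl, IntermediateField.mem_restrictScalars, mem_algebraicClosure_iff,
    IntermediateField.isAlgebraic_adjoin_iff]

theorem cl_eq {Ω : Type} [Field Ω] [Algebra ℂ Ω] (S : Set Ω) :
    (AlgebraicIndependent.matroid ℂ Ω).closure S = cl S := by
  ext w
  rw [AlgebraicIndependent.matroid_closure_eq, SetLike.mem_coe, SetLike.mem_coe, mem_cl]
  exact Subalgebra.mem_algebraicClosure _ _

theorem subset_cl {Ω : Type} [Field Ω] [Algebra ℂ Ω] (S : Set Ω) : S ⊆ cl S := by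
  intro w hw
  rw [SetLike.mem_coe, mem_cl]
  exact isAlgebraic_algebraMap (⟨w, Algebra.subset_adjoin hw⟩ : Algebra.adjoin ℂ S)

theorem cl_le {Ω : Type} [Field Ω] [Algebra ℂ Ω] (S T : Set Ω) (h : S ⊆ cl T) :
    cl S ≤ cl T := by
  have h1 : (AlgebraicIndependent.matroid ℂ Ω).closure S ⊆
      (AlgebraicIndependent.matroid ℂ Ω).closure T := by
    apply Matroid.closure_subset_closure_of_subset_closure
    rw [cl_eq]
    exact h
  rw [cl_eq, cl_eq] at h1
  exact h1

/-- exchange for one element -/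
theorem swap {Ω : Type} [Field Ω] [Algebra ℂ Ω] (a b : Ω) (h : a ∈ cl {b})
    (h0 : a ∉ cl (∅ : Set Ω)) : b ∈ cl {a} := by
  have h1 := (AlgebraicIndependent.matroid ℂ Ω).closure_exchange (X := ∅) (e := a) (f := b)
  rw [cl_eq, cl_eq, cl_eq] at h1
  have h2 := h1 ⟨by rw [← Set.singleton_def]; exact h, h0⟩
  have h3 := h2.1
  rw [← Set.singleton_def] at h3
  exact h3

theorem not_mem_empty {Ω : Type} [Field Ω] [Algebra ℂ Ω] (S : Set Ω) (w : Ω) (h : w ∉ cl S) :
    Transcendental ℂ w := by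
  intro h1
  apply h
  rw [mem_cl]
  exact h1.extendScalars (algebraMap ℂ (Algebra.adjoin ℂ S)).injective

theorem mem_of_dep {Ω : Type} [Field Ω] [Algebra ℂ Ω] (φ w : Ω) (h : Transcendental ℂ φ)
    (h1 : ¬ AlgebraicIndependent ℂ ![φ, w]) : w ∈ cl {φ} := by
  by_contra h2
  apply h1
  have h3 : AlgebraicIndependent ℂ ![w, φ] := by
    rw [show ![w, φ] = Matrix.vecCons w ![φ] from rfl, ai_cons]
    refine ⟨algebraicIndependent_iff_transcendental.mpr h, ?_⟩
    intro h4
    apply h2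
    rw [mem_cl]
    have e : Set.range ![φ] = {φ} := by simp
    rw [e] at h4
    exact h4
  have h5 := h3.comp ![1, 0] (by decide)
  have e : (![w, φ] ∘ ![1, 0]) = ![φ, w] := by
    funext i
    fin_cases i <;> rfl
  rw [← e]
  exact h5

/-- three independent elements do not lie in the closure of two -/
theorem exists_out {Ω : Type} [Field Ω] [Algebra ℂ Ω] (x y s m c : Ω)
    (h : AlgebraicIndependent ℂ ![x, y, s]) :
    x ∉ cl {m, c} ∨ y ∉ cl {m, c} ∨ s ∉ cl {m, c} := by
  by_contra hcon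
  push Not at hcon
  obtain ⟨hx, hy, hs⟩ := hcon
  have hI : (AlgebraicIndependent.matroid ℂ Ω).Indep (Set.range ![x, y, s]) := by
    rw [AlgebraicIndependent.matroid_indep_iff]
    exact h.to_subtype_range
  have hsub : Set.range ![x, y, s] ⊆
      (AlgebraicIndependent.matroid ℂ Ω).closure {m, c} := by
    rw [cl_eq]
    rintro _ ⟨i, rfl⟩
    fin_cases i
    · exact hx
    · exact hy
    · exact hs
  have h1 := hI.encard_le_eRk_of_subset hsub
  rw [Matroid.eRk_closure_eq] at h1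
  have h2 := h1.trans ((AlgebraicIndependent.matroid ℂ Ω).eRk_le_encard {m, c})
  have h3 := h2.trans ((Set.encard_insert_le {c} m).trans (by rw [Set.encard_singleton]))
  have h4 := h.injective.encard_range.trans h3
  rw [ENat.card_eq_coe_fintype_card, Fintype.card_fin] at h4
  have h5 : ((3 : ℕ) : ℕ∞) ≤ ((2 : ℕ) : ℕ∞) := by
    refine h4.trans (le_of_eq ?_)
    norm_num
  exact absurd (Nat.cast_le.mp h5) (by decide)

theorem range_le {Ω : Type} [Field Ω] [Algebra ℂ Ω] [Algebra K2 Ω] [IsScalarTower ℂ K2 Ω]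
    (r : K2) : algebraMap K2 Ω r ∈ cl (Set.range ![co Ω 0, co Ω 1]) := by
  have key : ∀ p : R2, algebraMap K2 Ω (algebraMap R2 K2 p) ∈
      cl (Set.range ![co Ω 0, co Ω 1]) := by
    intro p
    induction p using MvPolynomial.induction_on with
    | C a =>
      have e : algebraMap K2 Ω (algebraMap R2 K2 (C a)) = algebraMap ℂ Ω a := by
        rw [← MvPolynomial.algebraMap_eq, ← IsScalarTower.algebraMap_apply ℂ R2 K2,
          ← IsScalarTower.algebraMap_apply ℂ K2 Ω]
      rw [e]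
      exact IntermediateField.algebraMap_mem _ a
    | add p q hp hq =>
      rw [map_add, map_add]
      exact add_mem hp hq
    | mul_X p i hp =>
      rw [map_mul, map_mul]
      refine mul_mem hp (subset_cl _ ?_)
      refine ⟨i, ?_⟩
      fin_cases i <;> rfl
  obtain ⟨n, d, hd, rfl⟩ := IsFractionRing.div_surjective (A := R2) r
  rw [map_div₀]
  exact div_mem (key n) (key d)

/-- the choice of the parameter -/
theorem exists_phi {Ω : Type} [Field Ω] [Algebra ℂ Ω] [Algebra K2 Ω] [IsScalarTower ℂ K2 Ω]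
    (s m c : Ω) (hs : AlgebraicIndependent ℂ ![co Ω 0, co Ω 1, s])
    (hy : co Ω 1 = m * co Ω 0 + c) :
    ∃ φ : Ω, φ ∉ Set.range (algebraMap K2 Ω) ∧ AlgebraicIndependent ℂ ![φ, m * φ + c] := by
  -- `s` is not in `ℂ(x,y)`
  have hsr : s ∉ Set.range (algebraMap K2 Ω) := by
    rintro ⟨r, hr⟩
    have h1 := range_le (Ω := Ω) r
    rw [hr, mem_cl] at h1
    have h2 : AlgebraicIndependent ℂ ![s, co Ω 0, co Ω 1] := by
      have h5 := hs.comp ![2, 0, 1] (by decide)
      have e : (![co Ω 0, co Ω 1, s] ∘ ![2, 0, 1]) = ![s, co Ω 0, co Ω 1] := by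
        funext i
        fin_cases i <;> rfl
      rw [← e]
      exact h5
    rw [show ![s, co Ω 0, co Ω 1] = Matrix.vecCons s ![co Ω 0, co Ω 1] from rfl, ai_cons] at h2
    exact h2.2 h1
  obtain ⟨φ, hφ, hr⟩ : ∃ φ : Ω, φ ∉ cl ({m, c} : Set Ω) ∧
      ∀ k : ℕ, φ + k ∉ Set.range (algebraMap K2 Ω) := by
    have hmain : ∀ w : Ω, w ∉ cl ({m, c} : Set Ω) → w ∈ Set.range (algebraMap K2 Ω) →
        ∃ φ : Ω, φ ∉ cl ({m, c} : Set Ω) ∧ ∀ k : ℕ, φ + k ∉ Set.range (algebraMap K2 Ω) := by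
      rintro w hw ⟨r, hr⟩
      by_cases hsc : s ∈ cl ({m, c} : Set Ω)
      · refine ⟨w + s, ?_, ?_⟩
        · intro h
          apply hw
          have := sub_mem h hsc
          rwa [add_sub_cancel_right] at this
        · rintro k ⟨q, hq⟩
          apply hsr
          refine ⟨q - r - k, ?_⟩
          rw [map_sub, map_sub, hq, hr, map_natCast]
          ring
      · refine ⟨s, hsc, ?_⟩
        rintro k ⟨q, hq⟩
        apply hsr
        refine ⟨q - k, ?_⟩
        rw [map_sub, hq, map_natCast]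
        ring
    rcases exists_out (co Ω 0) (co Ω 1) s m c hs with h | h | h
    · exact hmain _ h ⟨_, rfl⟩
    · exact hmain _ h ⟨_, rfl⟩
    · refine ⟨s, h, ?_⟩
      rintro k ⟨q, hq⟩
      apply hsr
      refine ⟨q - k, ?_⟩
      rw [map_sub, hq, map_natCast]
      ring
  by_cases hA : AlgebraicIndependent ℂ ![φ, m * φ + c]
  · refine ⟨φ, ?_, hA⟩
    have := hr 0
    rwa [Nat.cast_zero, add_zero] at this
  by_cases hB : AlgebraicIndependent ℂ ![φ + 1, m * (φ + 1) + c]
  · refine ⟨φ + 1, ?_, hB⟩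
    have := hr 1
    rwa [Nat.cast_one] at this
  exfalso
  have hone : (1 : Ω) ∈ cl ({m, c} : Set Ω) := one_mem _
  have hφ1 : φ + 1 ∉ cl ({m, c} : Set Ω) := by
    intro h
    apply hφ
    have := sub_mem h hone
    rwa [add_sub_cancel_right] at this
  have w1 : m * φ + c ∈ cl ({φ} : Set Ω) := mem_of_dep φ _ (not_mem_empty _ _ hφ) hA
  have w2 : m * (φ + 1) + c ∈ cl ({φ + 1} : Set Ω) :=
    mem_of_dep (φ + 1) _ (not_mem_empty _ _ hφ1) hB
  have hφφ : φ ∈ cl ({φ} : Set Ω) := subset_cl _ rfl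
  have hsub : cl ({φ + 1} : Set Ω) ≤ cl ({φ} : Set Ω) := by
    apply cl_le
    rw [Set.singleton_subset_iff]
    exact add_mem hφφ (one_mem _)
  have w2' := hsub w2
  have hm : m ∈ cl ({φ} : Set Ω) := by
    have h := sub_mem w2' w1
    have e : m * (φ + 1) + c - (m * φ + c) = m := by ring
    rwa [e] at h
  have hc : c ∈ cl ({φ} : Set Ω) := by
    have h := sub_mem w1 (mul_mem hm hφφ)
    have e : m * φ + c - m * φ = c := by ring
    rwa [e] at h
  have hm0 : m ∈ cl (∅ : Set Ω) := by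
    by_contra h
    apply hφ
    have h1 := swap m φ hm h
    refine cl_le _ _ ?_ h1
    rw [Set.singleton_subset_iff]
    exact subset_cl _ (by simp)
  have hc0 : c ∈ cl (∅ : Set Ω) := by
    by_contra h
    apply hφ
    have h1 := swap c φ hc h
    refine cl_le _ _ ?_ h1
    rw [Set.singleton_subset_iff]
    exact subset_cl _ (by simp)
  have hy1 : co Ω 1 ∈ cl ({co Ω 0} : Set Ω) := by
    rw [hy]
    have hx : co Ω 0 ∈ cl ({co Ω 0} : Set Ω) := subset_cl _ rfl
    have hle : cl (∅ : Set Ω) ≤ cl ({co Ω 0} : Set Ω) := cl_le _ _ (Set.empty_subset _)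
    exact add_mem (mul_mem (hle hm0) hx) (hle hc0)
  have h2 : AlgebraicIndependent ℂ ![co Ω 1, co Ω 0] := by
    have h5 := hs.comp ![1, 0] (by decide)
    have e : (![co Ω 0, co Ω 1, s] ∘ ![1, 0]) = ![co Ω 1, co Ω 0] := by
      funext i
      fin_cases i <;> rfl
    rw [← e]
    exact h5
  rw [show ![co Ω 1, co Ω 0] = Matrix.vecCons (co Ω 1) ![co Ω 0] from rfl, ai_cons] at h2
  rw [mem_cl] at hy1
  have e : Set.range ![co Ω 0] = {co Ω 0} := by simp
  rw [e] at h2
  exact h2.2 hy1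

end W7aux

theorem lines_case {Ω : Type} [Field Ω] [Algebra ℂ Ω] [Algebra K2 Ω] [IsScalarTower ℂ K2 Ω]
    (A : Matrix (Fin 3) (Fin 3) R2) (hs : A.IsSymm) (hdeg : ∀ i j, (A i j).totalDegree ≤ 3)
    (s t : Ω) (hS : Setup A s t) (hy : gv s t (dM 1 A) ≠ 0)
    (h1 : hh s t A = 0) (h2 : gg s t A = 0) : Dom (toK A) := by
  obtain ⟨φ, hφ, hind⟩ := W7aux.exists_phi s (-(gv s t (dM 0 A)) / gv s t (dM 1 A))
    (co Ω 1 - (-(gv s t (dM 0 A)) / gv s t (dM 1 A)) * co Ω 0) hS.indep (by ring)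
  have hT := tangent_formula A hdeg s t ((φ - co Ω 0) / gv s t (dM 1 A))
  rw [hS.zero, h1, h2] at hT
  have e1 : co Ω 0 + (φ - co Ω 0) / gv s t (dM 1 A) * gv s t (dM 1 A) = φ := by
    field_simp
    ring
  have e2 : co Ω 1 - (φ - co Ω 0) / gv s t (dM 1 A) * gv s t (dM 0 A) =
      (-(gv s t (dM 0 A)) / gv s t (dM 1 A)) * φ +
        (co Ω 1 - (-(gv s t (dM 0 A)) / gv s t (dM 1 A)) * co Ω 0) := by
    field_simp
    ring
  rw [e1, e2] at hT
  set w : Ω := (-(gv s t (dM 0 A)) / gv s t (dM 1 A)) * φ +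
        (co Ω 1 - (-(gv s t (dM 0 A)) / gv s t (dM 1 A)) * co Ω 0) with hw
  have hT0 : qf (evM A φ w) ![s, t, 1] = 0 := by
    rw [hT]
    ring
  have hinj : Function.Injective (aeval ![φ, w] : R2 →ₐ[ℂ] Ω) := hind
  let σ : K2 →ₐ[ℂ] Ω := IsFractionRing.liftAlgHom (g := (aeval ![φ, w] : R2 →ₐ[ℂ] Ω)) hinj
  have hσ : ∀ p : R2, σ (algebraMap R2 K2 p) = aeval ![φ, w] p := fun p =>
    IsFractionRing.lift_algebraMap hinj p
  refine hS.critU (toK A) σ ⟨algebraMap R2 K2 (X 0), ?_⟩ ![s, t, 1] ?_ ?_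
  · rw [hσ, aeval_X]
    exact hφ
  · intro h
    have := congrFun h 2
    simp at this
  · rw [← hT0]
    congr 1
    ext i j
    simp only [toK, evM, Matrix.map_apply]
    exact hσ _

end Pool.Agent.Lib.MP_2095a9_ag.T2
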