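import Pool.Agent.Lib.MP_2095a9_ag.T2.Defs
import Pool.Agent.Lib.MP_2095a9_ag.T2.V5
import Pool.Agent.Lib.MP_2095a9_ag.T2.V6
import Pool.Agent.Lib.MP_2095a9_ag.T2.V8
import Pool.Agent.Lib.MP_2095a9_ag.T2.V10
import Pool.Agent.Lib.MP_2095a9_ag.T2.V11

set_option autoImplicit false

/-!
MP_2095a9_ag, theorem T2, module W8: the main case.
-/

namespace Pool.Agent.Lib.MP_2095a9_ag.T2

open MvPolynomial

namespace W8aux

theorem qf_comb {E : Type*} [CommRing E] (B B' : Matrix (Fin 3) (Fin 3) E) (r r' : E)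
    (z : Fin 3 → E) : qf (r • B + r' • B') z = r * qf B z + r' * qf B' z := by
  simp only [qf, Matrix.add_apply, Matrix.smul_apply, smul_eq_mul, Finset.mul_sum,
    ← Finset.sum_add_distrib]
  refine Finset.sum_congr rfl fun i _ => Finset.sum_congr rfl fun j _ => ?_
  ring

theorem dM_symm (i : Fin 2) (A : Matrix (Fin 3) (Fin 3) R2) (hs : A.IsSymm) :
    (dM i A).IsSymm := by
  ext j k
  simp only [Matrix.transpose_apply, dM, Matrix.map_apply]
  rw [hs.apply]

theorem toK_symm (A : Matrix (Fin 3) (Fin 3) R2) (hs : A.IsSymm) :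
    (toK A).IsSymm := by
  ext j k
  simp only [Matrix.transpose_apply, toK, Matrix.map_apply]
  rw [hs.apply]

/-- the embedding of the function field of the plane given by two independent elements -/
theorem exists_sigma {Ω : Type} [Field Ω] [Algebra ℂ Ω] (f1 f2 : Ω)
    (hf : AlgebraicIndependent ℂ ![f1, f2]) :
    ∃ σ : K2 →ₐ[ℂ] Ω, ∀ P : R2, σ (algebraMap R2 K2 P) = aeval ![f1, f2] P := by
  have hinj : Function.Injective (aeval ![f1, f2] : R2 →ₐ[ℂ] Ω) := hf
  refine ⟨IsFractionRing.liftAlgHom (K := K2) hinj, fun P => ?_⟩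
  exact IsFractionRing.lift_algebraMap (K := K2) hinj P

end W8aux

open W8aux in
theorem main_case {Ω : Type} [Field Ω] [Algebra ℂ Ω] [Algebra K2 Ω] [IsScalarTower ℂ K2 Ω]
    (A : Matrix (Fin 3) (Fin 3) R2) (hs : A.IsSymm) (hdeg : ∀ i j, (A i j).totalDegree ≤ 3)
    (hco : Coprim A) (s t : Ω) (hS : Setup A s t) (hflat : ¬ Flat A)
    (h1 : hh s t A ≠ 0) (h2 : gg s t A ≠ 0) : Dom (toK A) := by
  have : CharZero Ω := charZero_of_injective_algebraMap (algebraMap ℂ Ω).injective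
  obtain ⟨hx, hy⟩ := grad_ne A hs s t hS hflat
  have hst := st_indep A s t hS hx
  obtain ⟨D, hDs, hDt, hD⟩ := exists_der s t (co Ω 0) (co Ω 1) hS.indep
  set θ : Ω := -3 * hh s t A / gg s t A with hθdef
  have hθ : θ ≠ 0 := by
    rw [hθdef]
    exact div_ne_zero (mul_ne_zero (by norm_num) h1) h2
  set f1 : Ω := co Ω 0 + θ * gv s t (dM 1 A) with hf1
  set f2 : Ω := co Ω 1 - θ * gv s t (dM 0 A) with hf2
  -- the point lies on the conic
  have hpt : qf (evM A f1 f2) ![s, t, 1] = 0 := by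
    rw [hf1, hf2, tangent_formula A hdeg s t θ, hS.zero, hθdef]
    field_simp
    ring
  -- independence of `f1, f2`
  have hD12 : D f1 ≠ 0 ∨ D f2 ≠ 0 := by
    by_contra hcon
    push Not at hcon
    exact h1 (curv_a A D s t hDs hDt hS.zero hD hx hy θ hθ hcon.1 hcon.2)
  have hn : AlgebraicIndependent ℂ ![s, t, f1] ∨ AlgebraicIndependent ℂ ![s, t, f2] := by
    rcases hD12 with h | h
    · left
      by_contra hcon
      exact h (der_alg D s t f1 hDs hDt hst hcon)
    · right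
      by_contra hcon
      exact h (der_alg D s t f2 hDs hDt hst hcon)
  have hf := rk_indep A hs hco s t hst f1 f2 hpt hn
  obtain ⟨σ, hσ⟩ := exists_sigma f1 f2 hf
  have hσ0 : σ (algebraMap R2 K2 (X 0)) = f1 := by rw [hσ]; simp
  have hσ1 : σ (algebraMap R2 K2 (X 1)) = f2 := by rw [hσ]; simp
  have hz : (![s, t, 1] : Fin 3 → Ω) ≠ 0 := by
    intro h
    have := congrFun h 2
    simp at this
  have hq : qf ((toK A).map σ) ![s, t, 1] = 0 := by
    have e : (toK A).map σ = evM A f1 f2 := by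
      ext i j
      simp only [toK, evM, Matrix.map_apply, hσ]
    rw [e, hpt]
  by_cases hr : ∃ r, σ r ∉ Set.range (algebraMap K2 Ω)
  · exact hS.critU (toK A) σ hr _ hz hq
  · exfalso
    push Not at hr
    obtain ⟨α, hα⟩ := hr (algebraMap R2 K2 (X 0))
    obtain ⟨β, hβ⟩ := hr (algebraMap R2 K2 (X 1))
    rw [hσ0] at hα
    rw [hσ1] at hβ
    set ξ : K2 := algebraMap R2 K2 (X 0) with hξ
    set υ : K2 := algebraMap R2 K2 (X 1) with hυ
    have hαx : algebraMap K2 Ω (α - ξ) = θ * gv s t (dM 1 A) := by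
      rw [map_sub, hα, hf1]
      unfold co
      ring
    have hβy : algebraMap K2 Ω (β - υ) = -(θ * gv s t (dM 0 A)) := by
      rw [map_sub, hβ, hf2]
      unfold co
      ring
    have hqB : qf (((α - ξ) • toK (dM 0 A) + (β - υ) • toK (dM 1 A)).map
        (algebraMap K2 Ω)) ![s, t, 1] = 0 := by
      have e : ((α - ξ) • toK (dM 0 A) + (β - υ) • toK (dM 1 A)).map (algebraMap K2 Ω)
          = algebraMap K2 Ω (α - ξ) • (toK (dM 0 A)).map (algebraMap K2 Ω)
            + algebraMap K2 Ω (β - υ) • (toK (dM 1 A)).map (algebraMap K2 Ω) := by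
        ext i j
        simp only [Matrix.map_apply, Matrix.add_apply, Matrix.smul_apply, smul_eq_mul, map_add,
          map_mul]
      rw [e, qf_comb, hαx, hβy]
      change _ * gv s t (dM 0 A) + _ * gv s t (dM 1 A) = 0
      ring
    have hsy : ((α - ξ) • toK (dM 0 A) + (β - υ) • toK (dM 1 A)).IsSymm :=
      ((toK_symm _ (dM_symm 0 A hs)).smul _).add ((toK_symm _ (dM_symm 1 A hs)).smul _)
    obtain ⟨l, hl⟩ := hS.prop _ hsy hqB
    refine hflat ⟨α - ξ, β - υ, l, Or.inl ?_, hl⟩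
    intro h0
    rw [h0, map_zero] at hαx
    exact mul_ne_zero hθ hy hαx.symm

end Pool.Agent.Lib.MP_2095a9_ag.T2
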