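import Pool.Agent.Lib.MP_2095a9_ag.T2.Defs
import Pool.Agent.Lib.MP_2095a9_ag.T2.U12
import Pool.Agent.Lib.MP_2095a9_ag.T2.V3
import Pool.Agent.Lib.MP_2095a9_ag.T2.V6
import Pool.Agent.Lib.MP_2095a9_ag.T2.V8
import Pool.Agent.Lib.MP_2095a9_ag.T2.V11
import Pool.Agent.Lib.MP_2095a9_ag.T2.V12
import Pool.Agent.Lib.MP_2095a9_ag.T2.W4
import Pool.Agent.Lib.MP_2095a9_ag.T2.W5
import Pool.Agent.Lib.MP_2095a9_ag.T2.W6
import Pool.Agent.Lib.MP_2095a9_ag.T2.W7
import Pool.Agent.Lib.MP_2095a9_ag.T2.W8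

set_option autoImplicit false

namespace Pool.Agent.Lib.MP_2095a9_ag.T2

open MvPolynomial

/-! ## Module W9 (assembly, helper1) -/

theorem core (A : Matrix (Fin 3) (Fin 3) R2) (hs : A.IsSymm) (hdet : A.det ≠ 0)
    (hdeg : ∀ i j, (A i j).totalDegree ≤ 3) : Dom (toK A) := by
  obtain ⟨g, A', hg, hAA, hs', hdet', hdeg', hco⟩ := reduce_coprim A hs hdet hdeg
  have key : Dom (toK A') := by
    by_cases hflat : Flat A'
    · obtain ⟨z, hz, hqz⟩ := flat_isotropic A' hs' hdet' hflat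
      exact dom_of_isotropic _ z hz hqz
    · obtain ⟨Ω, i1, i2, i3, i4, s, t, hS⟩ := exists_setup A' hs' hdet'
      obtain ⟨hx, hy⟩ := grad_ne A' hs' s t hS hflat
      have hst := st_indep A' s t hS hx
      obtain ⟨D, hDs, hDt, hD⟩ := exists_der s t (co Ω 0) (co Ω 1) hS.indep
      by_cases hh0 : hh s t A' = 0
      · exact lines_case A' hs' hdeg' s t hS hy hh0
          (curv_c A' D s t hDs hDt hS.zero hD hx hy hh0)
      · by_cases hg0 : gg s t A' = 0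
        · obtain ⟨h0, h1, h2, h3⟩ := curv_b A' hdeg' D s t hDs hDt hS.zero hD hx hy hg0 hh0
          exact low_degree A' hs' hdet' (deg_le_two A' hs' hdeg' s t hst h0 h1 h2 h3)
        · exact main_case A' hs' hdeg' hco s t hS hflat hh0 hg0
  obtain ⟨τ, z, hz, hq⟩ := key
  refine ⟨τ, z, hz, ?_⟩
  have e : qf ((toK A).map τ) z = τ (algebraMap R2 K2 g) * qf ((toK A').map τ) z := by
    simp only [qf, toK, hAA, Matrix.map_apply, Matrix.smul_apply, smul_eq_mul, map_mul,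
      Finset.mul_sum]
    refine Finset.sum_congr rfl fun i _ => Finset.sum_congr rfl fun j _ => ?_
    ring
  rw [e, hq, mul_zero]

theorem theoremT2 (A : Matrix (Fin 3) (Fin 3) R2) (hs : A.IsSymm) (hdet : A.det ≠ 0)
    (hdeg : ∀ i j, (A i j).totalDegree ≤ 3)
    (a b : K2) (ha : a ≠ 0) (hb : b ≠ 0) (P : Matrix (Fin 3) (Fin 3) K2)
    (hP : P.det ≠ 0) (c : K2) (hc : c ≠ 0)
    (h : P.transpose * toK A * P = Matrix.diagonal ![c * a, c * b, -c]) :
    Nonempty (Fld a b →ₐ[ℂ] FractionRing (MvPolynomial (Fin 3) ℂ)) :=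
  fin_of_dom a b ha hb (toK A) P hP c hc h (core A hs hdet hdeg)

end Pool.Agent.Lib.MP_2095a9_ag.T2
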